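import Pool.Agent.T6.H14.CM.Prd
import Pool.Agent.R917.DT.Mat
import Pool.Agent.R917.DT.Stb

set_option autoImplicit false

/-!
# The period conjecture for 1-motives over abelian varieties with complex multiplication by abelian
fields, in terms of torsors

Let `A` be an abelian variety over the field `ℚ̄` of algebraic numbers, with a polarization `φ`. Let
`P_i = exp(u_i)` and `Q_l = φ(exp(v_l))` be algebraic points of `A` and of the dual abelian variety,
`G` the extension of `A` by `G_m^s` given by the `Q_l`, and `M = [ℤ^n → G]` a 1-motive over `ℚ̄` with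
the images `e_i ↦ R_i` above `P_i`. The periods of `M` are `2 π i`, the periods and quasi-periods of
`A`, the abelian integrals `u_i` and the integrals of the second kind `h_k(u_i)`, the periods of the
third kind `∑ k, (h_k(v_l) λ_k - v_lk η_k)`, and the integrals of the third kind `ℓ_il`. The points
`R_i` are algebraic, and this means for the logarithms `ℓ_il` that

  `exp(ℓ_il) = q_il · θ(u_i - v_l) / (θ(u_i) θ(-v_l)) · exp(∑ k, h_k(v_l) u_ik)`, `q_il` algebraic:

the function `z ↦ θ(z - v) / (θ(z) θ(-v)) · exp(∑ k, h_k(v) z_k)` is the pullback of a rational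
section, over `ℚ̄`, of the extension of `A` by `G_m` given by `v`. We assume that the arguments of
the theta functions are not in the divisor of `θ`. So we get all 1-motives over `A`, up to isogeny.

The motivic Galois group of `M` is the Mumford-Tate group of the mixed Hodge structure `H_1(M)`
(Brylinski, André): the smallest algebraic group over `ℚ` which contains the image of the Deligne
torus, which acts on the subspaces `I^{p,q}` of `H_1(M, ℂ)` given by Deligne's splitting.

The period conjecture says that the comparison isomorphism is a generic point, over `ℚ̄`, of its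
torsor under the motivic Galois group of `M`. A consequence is that this torsor is the smallest
torsor, among the torsors over `ℚ̄` of all algebraic groups `G ⊆ GL(H_B(M))` over `ℚ`, which
contains the comparison isomorphism (in the terminology of André: `Ω^And = Ω^dRB`).

**Theorem.** Let `K` be a finite abelian extension of `ℚ`, and let `B₂` be a product of abelian
varieties `B_Φ` with complex multiplication by `K`, where all CM types `Φ` of `K` occur. Let `B₁` be
an abelian variety such that the derived group of its Hodge group is determined by the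
endomorphisms of `B₁`: all subalgebras `𝔥` of the Lie algebra `𝔤` of the Hodge group which act
semisimply on `H_1(B₁, ℚ)` with the same commutant contain `[𝔤, 𝔤]`. Let `B` be an abelian variety
with the factors `B₁` and `B₂` such that the Lie algebra of the Hodge group of `B` acts faithfully on
`H_1(B₁) ⊕ H_1(B₂)`, and its centre acts faithfully on `H_1(B₂)`. Let `A` be a direct factor of `B`
up to isogeny, and let `M` be any 1-motive over `A`. Then every algebraic group `G` over `ℚ` with a
torsor over `ℚ̄` which contains the comparison isomorphism contains the Mumford-Tate group of `M`.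
So `Ω^And = Ω^dRB` for `M` and for all motives generated by `M`.

There is no condition on the points, so that all the deficient 1-motives are included. The
hypothesis on the faithful action means that the motive of `B` is in the category generated by the
motives of `B₁` and `B₂`, up to finite covers of the Mumford-Tate groups. For `B = B₁ × B₂` it is
satisfied.

## Examples

* All abelian varieties `A` with complex multiplication by abelian fields (the simple factors have
  complex multiplication by fields which are abelian over `ℚ`) are factors of abelian varieties `B₂`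
  as above, and for `B₁` we can take any abelian variety with complex multiplication by subfields of
  `K`. So the theorem holds for all 1-motives over them, for instance for all 1-motives over all
  factors of products of the Jacobians of the Fermat curves `x ^ N + y ^ N = 1`, `N = 3, 4, ...`. For
  `M = A` the theorem says: if a monomial in the periods of these curves (in the values
  `Γ(a / N)`) and all its conjugates (`a ↦ t a`, for `t` prime to `N`) are algebraic then this
  follows from the relations of Deligne and Shimura. (The conjecture of Rohrlich is the same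
  statement for one single monomial.)
* `B₁` an abelian variety whose Hodge group has a perfect Lie algebra, and which is determined by the
  endomorphisms: products of elliptic curves without complex multiplication, abelian varieties with
  real or quaternion multiplication, Kuga-Satake varieties. `B = B₁ × B₂`: the centre of the Lie
  algebra of the Hodge group of `B` is the one of `B₂`, so that the last hypothesis is satisfied.
* Let `V` be a Hodge structure of K3 type whose field of endomorphisms `E` is an abelian CM field, of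
  even rank over `E`, and let `B₁` be its Kuga-Satake variety. Here `[𝔤, 𝔤]` is a sum of special
  unitary Lie algebras, and the centre of `𝔤` is given by the determinants, which are of CM type
  (`derivedDetermined_of_typeUnitary`, proved below). Let `C` be an abelian variety with complex
  multiplication by `E` such that `V ⊗_E H_1(C)` is the homology of an abelian variety `A`. The
  Hodge group of `B = A × B₁ × B₂`, `B₂` as above for `K = E`, is up to isogeny the one of
  `B₁ × B₂`. In this way we get the general abelian varieties with multiplication by an abelian CM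
  field `E` which acts with the signature `(1, n - 1)` at one place and `(0, n)` at the others, `n`
  even.

In the earlier file `OneMotivesMumfordTate` the abelian variety `A` is a factor of an abelian variety
`B` whose Hodge group is determined by its endomorphisms, and the abelian varieties with complex
multiplication which are shown to satisfy this are those whose Hodge group is a simple torus, and
the products of elliptic curves: the Lie algebra of the Hodge group has no algebraic subalgebras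
other than zero and itself. The unitary type is also restricted to simple centres. Here the Hodge
groups of `B₂` are the Serre groups of the abelian fields `K`, which have many subtori.

## Proof

Let `Γ` be the Galois group of `K`, and `c` the complex conjugation. The Lie algebra of the Hodge
group of `B₂` is the space `K⁻` of the `κ ∈ K` with `c κ = - κ`, and `κ` acts on `H_1(B_Φ) = K` by the
multiplication by `∑ τ(κ)`, `τ` in the reflex type of `Φ`. An algebraic subalgebra is given by a
subspace `U ⊆ K⁻` stable under `Γ` (`RC_gal`: the replicas of `κ` are the conjugates of `κ`, since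
`Γ` is commutative). If `U ≠ K⁻` then there are functions `f ≠ 0` from `Γ` to `ℚ`, odd under `c`,
with `∑ f(τ) τ(κ) = 0` for all `κ ∈ U` (`exists_odd`), and they form a space which is stable under
translations. By a lemma on finite abelian groups (`comb`) every nonzero space of rational functions
on `Γ` which is stable under translations contains a nonzero function `h` with values in
`{0, 1, -1}`: if the Fourier transform of a function of the space does not vanish at a character `χ`
of order `m` then the function `h` is the pull back by `χ` of the coefficients of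
`∏_{p | m} (1 - T ^ {m/p})`, which is divisible by all cyclotomic polynomials `Φ_d`, `d | m`,
`d < m`. An odd function with values in `{0, 1, -1}` is the difference of two CM types. So `U` acts
in the same way on the homology of two of the factors `B_Φ`, `B_Ψ` which are not isogenous (as
modules over `K`), and this is a contradiction to the theorem of Wüstholz on the periods of
`B_Φ × B_Ψ` (`Ser.det`).

Let `𝔥` be the set of the elements of the Lie algebra of the Hodge group of `B` whose restriction to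
`H_1(A)` is in the image of the Lie algebra of `G`. It is algebraic, and it contains the logarithmic
derivatives of the periods of `B`. The images of `𝔥` in the Lie algebras of the Hodge groups of `B₁`
and `B₂` contain the logarithmic derivatives of the periods of `B₁` and `B₂`, and so they act
semisimply, with the right commutant (Wüstholz). So the first image contains the derived algebra,
and then `𝔥` contains the derived algebra `[𝔤, 𝔤]` of the Lie algebra of the Hodge group of `B`,
since `B₂` has a commutative Lie algebra. Therefore all elements of the second image have lifts in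
`𝔥` which are in the centre of `𝔤`. The elements of the centre are diagonalizable (`imag_roots`), so
that the second image is algebraic. So it is everything, and `𝔥` contains the centre of `𝔤`
(`DX_pair`). Now the theorem follows as in the file `OneMotivesMumfordTate` (`hodge_stab6`): in
particular the integrals of the third kind are treated with the theorem of Schneider and Lang for
theta functions.
-/

open Module Matrix Pool.Agent.Y102 Pool.Agent.R917.OM Pool.Agent.R917.BX Pool.Agent.W516.DR
  Pool.Agent.H204R3.GP Pool.Agent.R917.DT Pool.Agent.T6.H14.CM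

noncomputable section

namespace Pool.Agent.Results.MP_5d33ca_ag.OneMotivesAbelianCM

section Hyp

variable {g : ℕ} (A : AbVar g)

/-! ### The hypothesis on the Lie algebra of the Hodge group of the abelian variety -/

/-- The rational matrices which act on `H_1(A, ℚ) = ℚ^(2g)` (the basis is the basis of the
lattice). -/
abbrev Mat (g : ℕ) : Type := Matrix (Fin (2 * g)) (Fin (2 * g)) ℚ

/-- The multilinear forms in `2m` variables in the rational homology. -/
abbrev Form (m : ℕ) : Type := MultilinearMap ℚ (fun _ : Fin m × Fin 2 => A.H1) ℚ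

/-- `φ` is a de Rham-Betti class in `H^1(A) ^ {⊗ 2m} (m)`. -/
def IsDRB {m : ℕ} (φ : Form A m) : Prop :=
  IsDeRhamBettiForm QBar A.dR (2 * Real.pi * Complex.I) m φ

/-- `φ` is a Hodge class in `H^1(A) ^ {⊗ 2m} (m)`. -/
def IsHodge {m : ℕ} (φ : Form A m) : Prop := IsHodgeTensor (A.per : A.H1 →+ (Fin g → ℂ)) φ

/-- The matrix `X` annihilates the form `φ` (as a derivation). -/
def Annihilates {m : ℕ} (X : Mat g) (φ : Form A m) : Prop :=
  ∀ v : Fin m × Fin 2 → Fin (2 * g) → ℚ, ∑ k, φ (Function.update v k (X *ᵥ v k)) = 0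

/-- `X` is in the Lie algebra `𝔤` of the Hodge group: it annihilates all classes that are Hodge
classes and de Rham-Betti classes (by the theorem of Deligne all Hodge classes are de Rham-Betti
classes). -/
def InLie (X : Mat g) : Prop :=
  ∀ (m : ℕ) (φ : Form A m), IsHodge A φ → IsDRB A φ → Annihilates A X φ

/-- The subspace `𝔥` is a Lie algebra contained in `𝔤`. -/
def IsSubalgebra (𝔥 : Submodule ℚ (Mat g)) : Prop :=
  (∀ X ∈ 𝔥, InLie A X) ∧ ∀ X ∈ 𝔥, ∀ Y ∈ 𝔥, X * Y - Y * X ∈ 𝔥

/-- The subspace `U` of the homology is stable under the elements of `𝔥`. -/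
def Stable (𝔥 : Submodule ℚ (Mat g)) (U : Submodule ℚ (Fin (2 * g) → ℚ)) : Prop :=
  ∀ X ∈ 𝔥, ∀ u ∈ U, X *ᵥ u ∈ U

/-- The action of `𝔥` on the homology is semisimple. -/
def IsSemisimple (𝔥 : Submodule ℚ (Mat g)) : Prop :=
  ∀ U, Stable 𝔥 U → ∃ U', Stable 𝔥 U' ∧ IsCompl U U'

/-- Every matrix which commutes with `𝔥` commutes with `𝔤`. -/
def SameCommutant (𝔥 : Submodule ℚ (Mat g)) : Prop :=
  ∀ P : Mat g, (∀ X ∈ 𝔥, X * P = P * X) → ∀ X : Mat g, InLie A X → X * P = P * X

/-- The derived group of the Hodge group of `A` is determined by the endomorphisms of `A`: the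
subalgebras `𝔥` of the Lie algebra `𝔤` which act semisimply on the homology and have the same
commutant contain the derived algebra `[𝔤, 𝔤]`. -/
def DerivedDetermined : Prop := ∀ 𝔥 : Submodule ℚ (Mat g), IsSubalgebra A 𝔥 →
  IsSemisimple 𝔥 → SameCommutant A 𝔥 → ∀ X Y, InLie A X → InLie A Y → X * Y - Y * X ∈ 𝔥

/-! ### Complex multiplication -/

/-- A CM type of the Galois extension `K` of `ℚ`: a set of representatives for the Galois group modulo
the complex conjugation `c`. -/
def IsCMType {K : IntermediateField ℚ ℂ} (c : K ≃ₐ[ℚ] K) (Φ : Finset (K ≃ₐ[ℚ] K)) : Prop :=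
  ∀ τ, c * τ ∈ Φ ↔ τ ∉ Φ

/-- `A` is of Serre type for the Galois extension `K` of `ℚ` (with commutative Galois group): up to
isogeny it is a product of abelian varieties `B_i` with complex multiplication by `K`, and all CM
types of `K` occur. The homology `H_1(B_i, ℚ)` is `K`, and the Lie algebra of the Hodge group of `A`
is the space of the elements `κ` of `K` with `c κ = - κ` (`c` is the complex conjugation); `κ` acts on
`H_1(B_i, ℚ)` by the multiplication by `∑ τ(κ)`, `τ ∈ Φ_i`, where `Φ_i` is the reflex type of the CM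
type of `B_i`. -/
def IsSerreType (K : IntermediateField ℚ ℂ) [FiniteDimensional ℚ K] : Prop :=
  ∃ (c : K ≃ₐ[ℚ] K) (I : Type) (_ : Fintype I) (Θ : (I → K) ≃ₗ[ℚ] (Fin (2 * g) → ℚ))
    (Φ : I → Finset (K ≃ₐ[ℚ] K)),
    (∀ x : K, ((c x : K) : ℂ) = (starRingEnd ℂ) (x : ℂ)) ∧
    (∀ i, IsCMType c (Φ i)) ∧ (∀ Ψ, IsCMType c Ψ → ∃ i, Φ i = Ψ) ∧
    ∀ X : Mat g, InLie A X ↔
      ∃ κ : K, c κ = -κ ∧ ∀ x i, Θ.symm (X *ᵥ Θ x) i = (∑ τ ∈ Φ i, τ κ) * x i

/-! ### Factors -/

/-- `f` is a homomorphism (up to isogeny) from `A` to `B`: it is given by a linear map of the tangent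
spaces, and the pull backs of the algebraic differential forms are algebraic. -/
def IsHomomorphism {g' : ℕ} (B : AbVar g') (f : A.H1 →ₗ[ℚ] B.H1) : Prop :=
  (∃ F : (Fin g → ℂ) →ₗ[ℂ] (Fin g' → ℂ), ∀ w, F (A.per w) = B.per (f w)) ∧
    ∃ e : Fin g' ⊕ Fin g' → Fin g ⊕ Fin g → QBar,
      ∀ i w, B.dR i (f w) = ∑ j, algebraMap QBar ℂ (e i j) * A.dR j w

/-- `A` is a direct factor of `B`, up to isogeny. -/
def IsFactor {g' : ℕ} (B : AbVar g') : Prop :=
  ∃ (f : A.H1 →ₗ[ℚ] B.H1) (p : B.H1 →ₗ[ℚ] A.H1), IsHomomorphism A B f ∧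
    IsHomomorphism B A p ∧ ∀ w, p (f w) = w

/-- `A` is the direct factor of `B` given by the homomorphisms `f` and `p`. -/
structure IsFactorBy {g' : ℕ} (B : AbVar g') (f : A.H1 →ₗ[ℚ] B.H1) (p : B.H1 →ₗ[ℚ] A.H1) :
    Prop where
  hf : IsHomomorphism A B f
  hp : IsHomomorphism B A p
  pf : ∀ w, p (f w) = w

/-- The Lie algebra of the Hodge group of `A` acts faithfully on `H_1(B₁) ⊕ H_1(B₂)`, for the factors
`B₁` and `B₂` of `A` given by the projections `p₁` and `p₂`. -/
def ActsFaithfully {g₁ g₂ : ℕ} {B₁ : AbVar g₁} {B₂ : AbVar g₂} (p₁ : A.H1 →ₗ[ℚ] B₁.H1)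
    (p₂ : A.H1 →ₗ[ℚ] B₂.H1) : Prop :=
  ∀ X : Mat g, InLie A X → (∀ w, p₁ (X *ᵥ w) = 0) → (∀ w, p₂ (X *ᵥ w) = 0) → X = 0

/-- The centre of the Lie algebra of the Hodge group of `A` acts faithfully on `H_1(B₂)`, for the
factor `B₂` of `A` given by the projection `p₂`. -/
def CentreActsFaithfully {g₂ : ℕ} {B₂ : AbVar g₂} (p₂ : A.H1 →ₗ[ℚ] B₂.H1) : Prop :=
  ∀ Z : Mat g, InLie A Z → (∀ Y : Mat g, InLie A Y → Z * Y = Y * Z) →
    (∀ w, p₂ (Z *ᵥ w) = 0) → Z = 0

end Hyp

section Motives

variable {g n s : ℕ} (A : AbVarG g)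

/-! ### 1-motives and their periods -/

/-- The basis of the Betti realization of the 1-motive: the basis `λ_j` of the lattice of `A`, the
basis `γ_l` of `H_1(G_m^s)`, the basis `e_i` of `ℤ^n`. -/
abbrev Betti (g n s : ℕ) : Type := Fin (2 * g) ⊕ (Fin s ⊕ Fin n)

/-- The basis of the de Rham cohomology of the 1-motive: the invariant differentials `d z_k` and the
differentials of the second kind `d h_k` on `A`, the invariant differentials of the third kind `ω_l`
on the semiabelian variety, and a basis for `ℤ^n`. -/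
abbrev DeRham (g n s : ℕ) : Type := (Fin g ⊕ Fin g) ⊕ (Fin s ⊕ Fin n)

/-- The integral of the second kind `h_k = ∂ k (log θ 0)`, with the value zero at the origin. -/
def second (k : Fin g) (z : Fin g → ℂ) : ℂ := pd k (A.θ 0) z / A.θ 0 z - pd k (A.θ 0) 0

/-- The comparison isomorphism of the 1-motive. The rows are the Betti side. -/
def periodMatrix (u : Fin n → Fin g → ℂ) (v : Fin s → Fin g → ℂ) (ℓ : Fin n → Fin s → ℂ) :
    Matrix (Betti g n s) (DeRham g n s) ℂ := Matrix.of fun r c =>
  match r, c with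
  | Sum.inl j, Sum.inl (Sum.inl k) => A.lam j k
  | Sum.inl j, Sum.inl (Sum.inr k) => A.η j k
  | Sum.inl j, Sum.inr (Sum.inl l) => ∑ k, (second A k (v l) * A.lam j k - v l k * A.η j k)
  | Sum.inr (Sum.inl l), Sum.inr (Sum.inl l') => if l = l' then 2 * Real.pi * Complex.I else 0
  | Sum.inr (Sum.inr i), Sum.inl (Sum.inl k) => u i k
  | Sum.inr (Sum.inr i), Sum.inl (Sum.inr k) => second A k (u i)
  | Sum.inr (Sum.inr i), Sum.inr (Sum.inl l) => ℓ i l
  | Sum.inr (Sum.inr i), Sum.inr (Sum.inr i') => if i = i' then 1 else 0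
  | _, _ => 0

/-- The data `u_i, v_l, ℓ_il` of a 1-motive over the algebraic numbers: the points of `A` and of the
dual abelian variety are algebraic, and so are the points of the extension, in terms of the
trivialization by the function `θ(z - v) / (θ(z) θ(-v)) · exp(∑ k, h_k(v) z_k)`. The vectors are
chosen outside of the divisor of the theta function. -/
structure IsOneMotive (u : Fin n → Fin g → ℂ) (v : Fin s → Fin g → ℂ) (ℓ : Fin n → Fin s → ℂ) :
    Prop where
  point : ∀ i, IsPoint A.toAbVar (u i)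
  dual : ∀ l, IsPoint A.toAbVar (v l)
  neg : ∀ l, IsPoint A.toAbVar (-v l)
  sub : ∀ i l, IsPoint A.toAbVar (u i - v l)
  log : ∀ i l, ∃ q : ℂ, IsAlgebraic ℚ q ∧ Complex.exp (ℓ i l) =
    q * (A.θ 0 (u i - v l) / (A.θ 0 (u i) * A.θ 0 (-v l))) *
      Complex.exp (∑ k, second A k (v l) * u i k)

/-! ### Algebraic groups which contain the periods -/

/-- A subgroup of `GL_R(ℂ)` defined by polynomials with rational coefficients. -/
def IsAlgebraicSubgroup {R : Type} [Fintype R] [DecidableEq R] (G : Subgroup (GL R ℂ)) : Prop :=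
  ∃ I : Set (MvPolynomial (R × R) ℚ), ∀ x : GL R ℂ, x ∈ G ↔
    ∀ p ∈ I, MvPolynomial.aeval (fun b : R × R => (x : Matrix R R ℂ) b.1 b.2) p = 0

/-- The comparison isomorphism `c` is an element of a torsor `G · T⁻¹` of `G`, defined over the
algebraic numbers: `T` is a matrix with algebraic entries (an isomorphism between the Betti side and
the de Rham side) such that `c T ∈ G`. -/
def ContainsPeriods (u : Fin n → Fin g → ℂ) (v : Fin s → Fin g → ℂ) (ℓ : Fin n → Fin s → ℂ)
    (G : Subgroup (GL (Betti g n s) ℂ)) : Prop :=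
  ∃ T : Matrix (DeRham g n s) (Betti g n s) ℂ, (∀ i j, IsAlgebraic ℚ (T i j)) ∧
    ∃ x ∈ G, (x : Matrix (Betti g n s) (Betti g n s) ℂ) = periodMatrix A u v ℓ * T

/-! ### The mixed Hodge structure and the Mumford-Tate group -/

/-- The Hodge filtration: the vectors of `H_1(M, ℂ)` (in terms of their coordinates) on which the
invariant differentials of the semiabelian variety vanish. -/
def F0 (u : Fin n → Fin g → ℂ) (v : Fin s → Fin g → ℂ) (ℓ : Fin n → Fin s → ℂ)
    (x : Betti g n s → ℂ) : Prop :=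
  (∀ k, ∑ r, x r * periodMatrix A u v ℓ r (Sum.inl (Sum.inl k)) = 0) ∧
    ∀ l, ∑ r, x r * periodMatrix A u v ℓ r (Sum.inr (Sum.inl l)) = 0

/-- The part of weight `≤ -1` of the homology, the homology of the semiabelian variety. -/
def W1 (x : Betti g n s → ℂ) : Prop := ∀ i, x (Sum.inr (Sum.inr i)) = 0

/-- The part of weight `≤ -2` of the homology, the homology of the torus. -/
def W2 (x : Betti g n s → ℂ) : Prop :=
  (∀ j, x (Sum.inl j) = 0) ∧ ∀ i, x (Sum.inr (Sum.inr i)) = 0

/-- The complex conjugate vector. -/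
def bar (x : Betti g n s → ℂ) : Betti g n s → ℂ := fun r => (starRingEnd ℂ) (x r)

/-- The matrix `M` gives the action of the element `z` of the Deligne torus on the homology of the
1-motive (vectors are rows): it acts by `1` on `I^{0,0} = F^0 ∩ (F̄^0 + W_{-2})`, by `z̄` on
`I^{0,-1} = F^0 ∩ W_{-1}`, by `z` on its complex conjugate `I^{-1,0}` and by `z z̄` on
`I^{-1,-1} = W_{-2}`. -/
structure IsDeligne (u : Fin n → Fin g → ℂ) (v : Fin s → Fin g → ℂ) (ℓ : Fin n → Fin s → ℂ)
    (z : ℂ) (M : Matrix (Betti g n s) (Betti g n s) ℂ) : Prop where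
  zero_zero : ∀ x y w, F0 A u v ℓ x → F0 A u v ℓ y → W2 w → x = bar y + w → x ᵥ* M = x
  zero_neg : ∀ x, F0 A u v ℓ x → W1 x → x ᵥ* M = (starRingEnd ℂ) z • x
  neg_zero : ∀ x, F0 A u v ℓ x → W1 x → bar x ᵥ* M = z • bar x
  neg_neg : ∀ x, W2 x → x ᵥ* M = (z * (starRingEnd ℂ) z) • x

/-- The Mumford-Tate group of the 1-motive: the smallest algebraic group over `ℚ` which contains the
image of the Deligne torus. -/
def mumfordTate (u : Fin n → Fin g → ℂ) (v : Fin s → Fin g → ℂ) (ℓ : Fin n → Fin s → ℂ) :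
    Subgroup (GL (Betti g n s) ℂ) :=
  sInf {G | IsAlgebraicSubgroup G ∧ ∀ z : ℂ, z ≠ 0 → ∃ x ∈ G,
    IsDeligne A u v ℓ z (x : Matrix (Betti g n s) (Betti g n s) ℂ)}

/-! ### Proofs -/

/-- the data of the 1-motive -/
def dat (u : Fin n → Fin g → ℂ) (v : Fin s → Fin g → ℂ) (ℓ : Fin n → Fin s → ℂ) : Dt g n s where
  P := Sum.elim (fun i => Sum.elim (u i) (fun k => second A k (u i)))
    (fun l => Sum.elim (v l) (fun k => second A k (v l)))
  ℓ := ℓ

theorem per_eb (j : Fin (2 * g)) (k : Fin g) : A.dR (Sum.inl k) (eb A.toAbVar j) = A.lam j k := by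
  change A.per (Pi.single j 1) k = _
  unfold AbVar.per
  rw [Fintype.linearCombination_apply_single, one_smul]

theorem eta_eb (j : Fin (2 * g)) (k : Fin g) : A.dR (Sum.inr k) (eb A.toAbVar j) = A.η j k := by
  change A.eta (Pi.single j 1) k = _
  unfold AbVar.eta
  rw [Fintype.linearCombination_apply_single, one_smul]

theorem periodMatrix_eq (u : Fin n → Fin g → ℂ) (v : Fin s → Fin g → ℂ)
    (ℓ : Fin n → Fin s → ℂ) : periodMatrix A u v ℓ = pmat A.toAbVar (dat A u v ℓ) := by
  ext r c
  rcases r with j | l | i <;> rcases c with (k | k) | l' | i' <;>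
    simp [periodMatrix, pmat, dat, per_eb, eta_eb, thd, tau]

end Motives

section Prf

variable {g : ℕ} (A : AbVar g)

/-- The matrix of an endomorphism of the homology. -/
def mat (X : Module.End ℚ A.H1) : Mat g := LinearMap.toMatrix' X

theorem mat_mulVec (X : Module.End ℚ A.H1) (v : Fin (2 * g) → ℚ) : mat A X *ᵥ v = X v :=
  LinearMap.toMatrix'_mulVec X v

theorem mat_mul (X Y : Module.End ℚ A.H1) : mat A (X * Y) = mat A X * mat A Y :=
  LinearMap.toMatrix'_mul X Y

theorem mat_br (X Y : Module.End ℚ A.H1) :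
    mat A (X * Y - Y * X) = mat A X * mat A Y - mat A Y * mat A X := by
  rw [← mat_mul, ← mat_mul]
  exact map_sub (LinearMap.toMatrix' : _ ≃ₗ[ℚ] Mat g) _ _

theorem mat_inj {X Y : Module.End ℚ A.H1} (h : mat A X = mat A Y) : X = Y :=
  (LinearMap.toMatrix' : _ ≃ₗ[ℚ] Mat g).injective h

theorem mat_surj (X : Mat g) : ∃ Y : Module.End ℚ A.H1, mat A Y = X :=
  (LinearMap.toMatrix' : _ ≃ₗ[ℚ] Mat g).surjective X

theorem inLie_mat {X : Module.End ℚ A.H1} : InLie A (mat A X) ↔ X ∈ A.NA := by
  constructor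
  · intro h m φ h1 h2 v
    have h3 := h m φ h1 h2 v
    simp only [mat_mulVec] at h3
    exact h3
  · intro h m φ h1 h2 v
    simp only [mat_mulVec]
    exact h m φ h1 h2 v

/-- the passage to endomorphisms -/
theorem of_derivedDetermined (hA : DerivedDetermined A) (𝔥 : Submodule ℚ (Module.End ℚ A.H1))
    (h : A.Full 𝔥) : ∀ X ∈ A.NA, ∀ Y ∈ A.NA, X * Y - Y * X ∈ 𝔥 := by
  let 𝔥' : Submodule ℚ (Mat g) := 𝔥.map (LinearMap.toMatrix' : _ ≃ₗ[ℚ] Mat g).toLinearMap
  have hmem : ∀ X : Module.End ℚ A.H1, mat A X ∈ 𝔥' ↔ X ∈ 𝔥 := by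
    intro X
    constructor
    · rintro ⟨Y, hY, hYX⟩
      rw [← mat_inj A hYX]
      exact hY
    · intro hX
      exact ⟨X, hX, rfl⟩
  intro X hX Y hY
  rw [← hmem, mat_br]
  refine hA 𝔥' ⟨?_, ?_⟩ ?_ ?_ _ _ ((inLie_mat A).2 hX) ((inLie_mat A).2 hY)
  · rintro _ ⟨Y, hY, rfl⟩
    exact (inLie_mat A).2 (h.le hY)
  · rintro _ ⟨Y, hY, rfl⟩ _ ⟨Z, hZ, rfl⟩
    have h1 := (hmem (Y * Z - Z * Y)).2 (h.br Y hY Z hZ)
    rw [mat_br] at h1
    exact h1
  · intro U hU
    obtain ⟨U', h1, h2⟩ := h.semi U (fun Y hY u hu => by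
      have h3 := hU _ ((hmem Y).2 hY) u hu
      rwa [mat_mulVec] at h3)
    refine ⟨U', ?_, h2⟩
    rintro _ ⟨Y, hY, rfl⟩ u hu
    have h3 := h1 Y hY u hu
    rwa [← mat_mulVec] at h3
  · intro P hP Y hY
    obtain ⟨P, rfl⟩ := mat_surj A P
    obtain ⟨Y, rfl⟩ := mat_surj A Y
    rw [← mat_mul, ← mat_mul]
    congr 1
    refine h.comm P (fun Z hZ => mat_inj A ?_) Y ((inLie_mat A).1 hY)
    rw [mat_mul, mat_mul]
    exact hP _ ((hmem Z).2 hZ)

/-- the function of a CM type -/
theorem T_sign {K : IntermediateField ℚ ℂ} [FiniteDimensional ℚ K] {c : K ≃ₐ[ℚ] K}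
    {Φ : Finset (K ≃ₐ[ℚ] K)} (hΦ : IsCMType c Φ) (hab : ∀ σ τ : K ≃ₐ[ℚ] K, σ * τ = τ * σ)
    {κ : K} (hκ : c κ = -κ) :
    T (fun τ => open Classical in if τ ∈ Φ then (1 : ℚ) else -1) κ = 2 * ∑ τ ∈ Φ, τ κ := by
  classical
  unfold T
  rw [← Finset.sum_add_sum_compl Φ, two_mul]
  congr 1
  · refine Finset.sum_congr rfl fun τ hτ => ?_
    beta_reduce
    rw [if_pos hτ, one_smul]
  · refine Finset.sum_bij' (fun τ _ => c * τ) (fun τ _ => c⁻¹ * τ) (fun τ hτ => ?_)
      (fun τ hτ => ?_) (fun τ _ => inv_mul_cancel_left c τ) (fun τ _ => mul_inv_cancel_left c τ)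
      (fun τ hτ => ?_)
    · exact (hΦ τ).2 (Finset.mem_compl.1 hτ)
    · rw [Finset.mem_compl]
      intro h1
      have h2 := (hΦ (c⁻¹ * τ)).1 (by rwa [mul_inv_cancel_left])
      exact h2 h1
    · beta_reduce
      rw [if_neg (Finset.mem_compl.1 hτ), neg_one_smul, hab c τ, AlgEquiv.mul_apply, hκ, map_neg]

/-- the passage to the abstract data -/
theorem exists_ser {K : IntermediateField ℚ ℂ} [FiniteDimensional ℚ K]
    (hab : ∀ σ τ : K ≃ₐ[ℚ] K, σ * τ = τ * σ) (h : IsSerreType A K) :
    ∃ (I : Type) (_ : Fintype I) (_ : DecidableEq I), Nonempty (Ser A K I) := by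
  classical
  obtain ⟨c, I, hI, Θ, Φ, h1, h2, h3, h4⟩ := h
  have hcc : c * c = 1 := by
    refine AlgEquiv.ext fun x => ?_
    apply Subtype.ext
    rw [AlgEquiv.mul_apply, h1, h1, Complex.conj_conj, AlgEquiv.one_apply]
  refine ⟨I, hI, Classical.decEq I, ⟨{
    c := c
    cc := hcc
    Θ := Θ
    ε := fun i τ => if τ ∈ Φ i then (1 : ℚ) else -1
    sg := fun i => ⟨fun τ => ?_, fun τ => ?_⟩
    all := fun e he => ?_
    na := fun X => ?_ }⟩⟩
  · by_cases h : τ ∈ Φ i
    · exact Or.inl (if_pos h)
    · exact Or.inr (if_neg h)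
  · by_cases h : τ ∈ Φ i
    · rw [if_pos h, if_neg fun h' => ((h2 i τ).1 h') h]
    · rw [if_neg h, if_pos ((h2 i τ).2 h), neg_neg]
  · have h5 : IsCMType c (Finset.univ.filter fun τ => e τ = 1) := by
      intro τ
      rw [Finset.mem_filter, Finset.mem_filter, he.odd]
      simp only [Finset.mem_univ, true_and]
      rcases he.val τ with h | h <;> rw [h] <;> norm_num
    obtain ⟨i, hi⟩ := h3 _ h5
    refine ⟨i, funext fun τ => ?_⟩
    simp only [hi, Finset.mem_filter, Finset.mem_univ, true_and]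
    rcases he.val τ with h | h <;> rw [h] <;> norm_num
  · rw [← inLie_mat A, h4]
    have hw : ∀ x, mat A X *ᵥ Θ x = X (Θ x) := fun x => mat_mulVec A X _
    simp only [hw]
    constructor
    · rintro ⟨κ, hκ, h5⟩
      refine ⟨(2 : ℚ)⁻¹ • κ, by rw [map_rat_smul c, hκ, smul_neg], Xk_eq fun x i => ?_⟩
      rw [h5, T_arg_smul, T_sign (h2 i) hab hκ, Algebra.smul_def]
      congr 1
      simp
    · rintro ⟨κ, hκ, h5⟩
      refine ⟨(2 : ℚ) • κ, by rw [map_rat_smul c, hκ, smul_neg], fun x i => ?_⟩
      rw [h5, Xk_apply, Θ.symm_apply_apply, T_sign (h2 i) hab hκ]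
      congr 1
      rw [Finset.mul_sum]
      refine Finset.sum_congr rfl fun τ _ => ?_
      rw [map_rat_smul τ, Algebra.smul_def]
      simp

end Prf

/-- The Lie algebra of the Hodge group of `B` has no proper algebraic subalgebras which contain the
logarithmic derivatives of the periods. -/
theorem dx_of {g₁ g₂ g' : ℕ} {B : AbVar g'} {B₁ : AbVar g₁} {B₂ : AbVar g₂}
    {f₁ : B₁.H1 →ₗ[ℚ] B.H1} {p₁ : B.H1 →ₗ[ℚ] B₁.H1} {f₂ : B₂.H1 →ₗ[ℚ] B.H1}
    {p₂ : B.H1 →ₗ[ℚ] B₂.H1} (i₁ : IsFactorBy B₁ B f₁ p₁) (i₂ : IsFactorBy B₂ B f₂ p₂)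
    (h₁ : DerivedDetermined B₁) (K : IntermediateField ℚ ℂ) [FiniteDimensional ℚ K]
    [IsGalois ℚ K] (hK : ∀ σ τ : K ≃ₐ[ℚ] K, σ * τ = τ * σ) (h₂ : IsSerreType B₂ K)
    (h₃ : ActsFaithfully B p₁ p₂) (h₄ : CentreActsFaithfully B p₂) : DX B := by
  obtain ⟨I, _, _, ⟨S⟩⟩ := exists_ser B₂ hK h₂
  have F₁ : Fac B₁ B f₁ p₁ := ⟨⟨i₁.hf.1, i₁.hf.2⟩, ⟨i₁.hp.1, i₁.hp.2⟩, i₁.pf⟩
  have F₂ : Fac B₂ B f₂ p₂ := ⟨⟨i₂.hf.1, i₂.hf.2⟩, ⟨i₂.hp.1, i₂.hp.2⟩, i₂.pf⟩
  have key₁ : ∀ Z ∈ B.NA, rs f₁ p₁ Z = 0 → ∀ w, p₁ (mat B Z *ᵥ w) = 0 := by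
    intro Z hZ hZ0 w
    have hw : mat B Z *ᵥ w = Z w := mat_mulVec B Z w
    rw [hw]
    have h5 := congrArg (fun T : Module.End ℚ B.H1 => p₁ (T w)) (B.NA_comm hZ F₁.mem_EA)
    change p₁ (Z (f₁ (p₁ w))) = p₁ (f₁ (p₁ (Z w))) at h5
    rw [i₁.pf] at h5
    rw [← h5]
    exact LinearMap.congr_fun hZ0 (p₁ w)
  have key₂ : ∀ Z ∈ B.NA, rs f₂ p₂ Z = 0 → ∀ w, p₂ (mat B Z *ᵥ w) = 0 := by
    intro Z hZ hZ0 w
    have hw : mat B Z *ᵥ w = Z w := mat_mulVec B Z w
    rw [hw]
    have h5 := congrArg (fun T : Module.End ℚ B.H1 => p₂ (T w)) (B.NA_comm hZ F₂.mem_EA)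
    change p₂ (Z (f₂ (p₂ w))) = p₂ (f₂ (p₂ (Z w))) at h5
    rw [i₂.pf] at h5
    rw [← h5]
    exact LinearMap.congr_fun hZ0 (p₂ w)
  have hz : ∀ Z : Module.End ℚ B.H1, mat B Z = 0 → Z = 0 := fun Z h =>
    mat_inj B (h.trans (map_zero (LinearMap.toMatrix' : _ ≃ₗ[ℚ] Mat g')).symm)
  refine DX_pair F₁ F₂ ?_ (of_derivedDetermined B₁ h₁) (S.det hK (algebraMap K ℂ)) ?_ ?_
  · intro Y hY e₁ e₂
    exact hz _ (h₃ _ ((inLie_mat B).2 hY) (key₁ Y hY e₁) (key₂ Y hY e₂))
  · intro X hX Y hY
    obtain ⟨κ, -, rfl⟩ := (S.na X).1 hX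
    obtain ⟨κ', -, rfl⟩ := (S.na Y).1 hY
    exact Xk_comm _ _ _ _
  · intro Z hZ hZc hZ0
    refine hz _ (h₄ (mat B Z) ((inLie_mat B).2 hZ) (fun Y hY => ?_) (key₂ Z hZ hZ0))
    obtain ⟨Y, rfl⟩ := mat_surj B Y
    rw [← mat_mul, ← mat_mul, hZc Y ((inLie_mat B).1 hY)]

/-- **Theorem.** Let `K` be a finite abelian extension of `ℚ`, let `B₂` be of Serre type for `K`, and
let `B₁` be an abelian variety such that the derived group of the Hodge group is determined by the
endomorphisms. Let `B` be an abelian variety with the factors `B₁` and `B₂` such that the Lie algebra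
of the Hodge group of `B` acts faithfully on `H_1(B₁) ⊕ H_1(B₂)` and its centre acts faithfully on
`H_1(B₂)`. Then every algebraic group over `ℚ` with a torsor over `ℚ̄` which contains the comparison
isomorphism of a 1-motive over a factor of `B` contains the Mumford-Tate group of the 1-motive. -/
theorem result (g₁ g₂ g' : ℕ) (B₁ : AbVar g₁) (h₁ : DerivedDetermined B₁) (B₂ : AbVar g₂)
    (K : IntermediateField ℚ ℂ) [FiniteDimensional ℚ K] [IsGalois ℚ K]
    (hK : ∀ σ τ : K ≃ₐ[ℚ] K, σ * τ = τ * σ) (h₂ : IsSerreType B₂ K)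
    (B : AbVar g') (f₁ : B₁.H1 →ₗ[ℚ] B.H1) (p₁ : B.H1 →ₗ[ℚ] B₁.H1) (f₂ : B₂.H1 →ₗ[ℚ] B.H1)
    (p₂ : B.H1 →ₗ[ℚ] B₂.H1) (i₁ : IsFactorBy B₁ B f₁ p₁) (i₂ : IsFactorBy B₂ B f₂ p₂)
    (h₃ : ActsFaithfully B p₁ p₂) (h₄ : CentreActsFaithfully B p₂)
    (g n s : ℕ) (A : AbVarG g) (hA : IsFactor A.toAbVar B) (u : Fin n → Fin g → ℂ)
    (v : Fin s → Fin g → ℂ) (ℓ : Fin n → Fin s → ℂ) (hM : IsOneMotive A u v ℓ)
    (G : Subgroup (GL (Betti g n s) ℂ)) (hG : IsAlgebraicSubgroup G)
    (hP : ContainsPeriods A u v ℓ G) : mumfordTate A u v ℓ ≤ G := by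
  obtain ⟨T, hT, x, hx, hxT⟩ := hP
  rw [periodMatrix_eq] at hxT
  have hpt := ptM_of hG hT hx hxT
  obtain ⟨K₁, hK₁, hrat⟩ := exists_rat_mult A (pt (dat A u v ℓ)) (by
    rintro (i | l)
    · exact Or.inl (hM.point i)
    · exact Or.inl (hM.dual l))
  obtain ⟨f, p, hf, hp, hpf⟩ := hA
  obtain ⟨h1, h2⟩ := hodge_stab6 hpt ⟨hM.point, hM.neg, hM.sub, hM.log⟩ hrat
    (detJ_of_DX (f := f) (p := p) ⟨⟨hf.1, hf.2⟩, ⟨hp.1, hp.2⟩, hpf⟩ (dx_of i₁ i₂ h₁ K hK h₂ h₃ h₄))
  refine sInf_le ⟨hG, fun z hz => ?_⟩
  obtain ⟨M, ⟨y, hy, hyM⟩, hM⟩ := hodge_exp hpt.grp h1 h2 z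
  have hlog : ((Complex.log z).re : ℂ) + (Complex.log z).im * Complex.I = Complex.log z :=
    Complex.re_add_im _
  have hexp := Complex.exp_log hz
  have hconj : Complex.exp ((starRingEnd ℂ) (Complex.log z)) = (starRingEnd ℂ) z := by
    rw [Complex.exp_conj, hexp]
  have hlog' : ((Complex.log z).re : ℂ) - (Complex.log z).im * Complex.I =
      (starRingEnd ℂ) (Complex.log z) := by
    apply Complex.ext <;> simp
  rw [← hyM] at hM
  have hF : ∀ a, F0 A u v ℓ a → (∀ k, i1 A.toAbVar (dat A u v ℓ) a k = 0) ∧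
      ∀ l, i3 A.toAbVar (dat A u v ℓ) a l = 0 := by
    rintro a ⟨ha1, ha2⟩
    rw [periodMatrix_eq] at ha1 ha2
    exact ⟨ha1, ha2⟩
  refine ⟨y, hy, ⟨fun a b w ha hb hw hab => ?_, fun a ha ha1 => ?_, fun a ha ha1 => ?_,
    fun a ha => ?_⟩⟩
  · obtain ⟨e1, e2⟩ := eig_0 (A := A.toAbVar) (d := dat A u v ℓ) (v := a) (f := b)
      (fun j => by rw [hab, Pi.add_apply, hw.1, add_zero]; rfl)
      (fun i => by rw [hab, Pi.add_apply, hw.2, add_zero]; rfl) (hF a ha).1 (hF a ha).2 (hF b hb).1
    have h3 := hM a 0 0 e1 e2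
    rwa [mul_zero, mul_zero, add_zero, Complex.exp_zero, one_smul] at h3
  · obtain ⟨e1, e2⟩ := eig_m (A := A.toAbVar) (d := dat A u v ℓ) (v := a) ha1 (hF a ha).1
      (hF a ha).2
    have h3 := hM a 1 (-Complex.I) (by rw [one_smul]; exact e1) e2
    rw [h3, ← hconj, ← hlog']
    congr 2
    ring
  · obtain ⟨e1, e2⟩ := eig_p (A := A.toAbVar) (d := dat A u v ℓ) (v := bar a) (w := a)
      (fun r => rfl) ha1 (hF a ha).1 (hF a ha).2
    have h3 := hM (bar a) 1 Complex.I (by rw [one_smul]; exact e1) e2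
    rw [h3, mul_one, hlog, hexp]
  · obtain ⟨e1, e2⟩ := eig_t (A := A.toAbVar) (d := dat A u v ℓ) (v := a) ha.1 ha.2
    have h3 := hM a 2 0 e1 e2
    rw [h3]
    congr 1
    rw [mul_zero, add_zero]
    have h4 : z * (starRingEnd ℂ) z =
        Complex.exp (Complex.log z) * Complex.exp ((starRingEnd ℂ) (Complex.log z)) := by
      rw [hexp, hconj]
    rw [h4, ← Complex.exp_add]
    congr 1
    linear_combination hlog + hlog'

/-! ### Examples -/

section Examples

variable {g : ℕ} (A : AbVar g)

/-- The complex Lie algebra `𝔤 ⊗ ℂ`, acting on `H_1(A, ℂ)`. -/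
def lieC : Submodule ℂ (Matrix (Fin (2 * g)) (Fin (2 * g)) ℂ) :=
  Submodule.span ℂ {Y | ∃ X, InLie A X ∧ Y = X.map (algebraMap ℚ ℂ)}

/-- The Lie algebra `𝔤 ⊗ ℂ` is a sum of `k` algebras `gl(W_σ)` with `W_σ` of even dimension, acting on
`H_1(A, ℂ)` by a multiple of the tensor product of the exterior algebras of the `W_σ`, twisted by the
inverses of the square roots of the determinants: the `a i` and `b i` are creation and annihilation
operators, each of them has one of `k` colours, each colour is used an even number of times, and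
`𝔤 ⊗ ℂ` is spanned by the matrices `a i * b j - δ i j / 2`, `i` and `j` of the same colour. There is
no condition on the centre. -/
def TypeUnitary : Prop :=
  ∃ (n k : ℕ) (a b : Fin n → Matrix (Fin (2 * g)) (Fin (2 * g)) ℂ) (c : Fin n → Fin k),
    (∀ σ, Even (Finset.univ.filter fun j => c j = σ).card) ∧
    (∀ i j, a i * a j = -(a j * a i)) ∧ (∀ i j, b i * b j = -(b j * b i)) ∧
    (∀ i j, a i * b j + b j * a i = if i = j then 1 else 0) ∧
    lieC A = Submodule.span ℂ {Y | ∃ i j, c i = c j ∧
      Y = a i * b j - if i = j then (2⁻¹ : ℂ) • 1 else 0}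

theorem lieC_eq : lieC A = Submodule.span ℂ {Y | ∃ X ∈ A.NA, Y = toC X} := by
  unfold lieC
  congr 1
  ext Y
  constructor
  · rintro ⟨X, hX, rfl⟩
    obtain ⟨X, rfl⟩ := mat_surj A X
    exact ⟨X, (inLie_mat A).1 hX, (toC_eq X).symm⟩
  · rintro ⟨X, hX, rfl⟩
    exact ⟨mat A X, (inLie_mat A).2 hX, toC_eq X⟩

theorem derivedDetermined_of (hA : ∀ 𝔥 : Submodule ℚ (Module.End ℚ A.H1), A.Full 𝔥 →
    ∀ X ∈ A.NA, ∀ Y ∈ A.NA, X * Y - Y * X ∈ 𝔥) : DerivedDetermined A := by
  intro 𝔥 hsub hsemi hcomm X Y hX hY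
  obtain ⟨X, rfl⟩ := mat_surj A X
  obtain ⟨Y, rfl⟩ := mat_surj A Y
  let 𝔥' : Submodule ℚ (Module.End ℚ A.H1) :=
    𝔥.comap (LinearMap.toMatrix' : _ ≃ₗ[ℚ] Mat g).toLinearMap
  have hmem : ∀ X : Module.End ℚ A.H1, mat A X ∈ 𝔥 ↔ X ∈ 𝔥' := fun _ => Iff.rfl
  rw [← mat_br, hmem]
  refine hA 𝔥' ⟨fun Y hY => (inLie_mat A).1 (hsub.1 _ hY), fun Y hY Z hZ => ?_, fun U hU => ?_,
    fun P hP Y hY => ?_⟩ X ((inLie_mat A).1 hX) Y ((inLie_mat A).1 hY)
  · change mat A (Y * Z - Z * Y) ∈ 𝔥
    rw [mat_br]
    exact hsub.2 _ hY _ hZ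
  · obtain ⟨U', h1, h2⟩ := hsemi U (fun Y hY u hu => by
      obtain ⟨Y, rfl⟩ := mat_surj A Y
      rw [mat_mulVec]
      exact hU Y hY u hu)
    refine ⟨U', fun Y hY u hu => ?_, h2⟩
    have h3 := h1 _ hY u hu
    rwa [show (LinearMap.toMatrix' : _ ≃ₗ[ℚ] Mat g).toLinearMap Y = mat A Y from rfl,
      mat_mulVec] at h3
  · refine mat_inj A ?_
    rw [mat_mul, mat_mul]
    refine hcomm _ (fun Z hZ => ?_) _ ((inLie_mat A).2 hY)
    obtain ⟨Z, rfl⟩ := mat_surj A Z
    rw [← mat_mul, ← mat_mul]
    exact congrArg (mat A) (hP Z hZ)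

/-- The derived groups of the Hodge groups of the abelian varieties of unitary type are
determined. -/
theorem derivedDetermined_of_typeUnitary (h : TypeUnitary A) : DerivedDetermined A := by
  obtain ⟨n, k, a, b, c, hn, aa, bb, hab, hl⟩ := h
  have hev : ∀ i : Fin n, Even (Finset.univ.filter fun j => c j = c i).card := fun i => hn (c i)
  have hl' : Submodule.span ℂ {Y | ∃ X ∈ A.NA, Y = toC X} =
      Submodule.span ℂ {Y | ∃ i j, c i = c j ∧ Y = Pool.Agent.R912.gM a b i j} := by
    rw [← lieC_eq, hl]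
    rfl
  exact derivedDetermined_of A fun 𝔥 hF X hX Y hY =>
    Pool.Agent.R912.full_unitary hF (Pool.Agent.R912.car_mat aa bb hab)
      (Pool.Agent.R912.cx_NA_eq aa bb hab hev hl') hev hX hY

/-- The derived groups are trivial for abelian varieties with complex multiplication. -/
theorem derivedDetermined_of_comm (h : ∀ X Y : Mat g, InLie A X → InLie A Y → X * Y = Y * X) :
    DerivedDetermined A := by
  intro 𝔥 _ _ _ X Y hX hY
  rw [h X Y hX hY, sub_self]
  exact 𝔥.zero_mem

end Examples

end Pool.Agent.Results.MP_5d33ca_ag.OneMotivesAbelianCM
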