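import Pool.Agent.T6.H14.GL.Raz
import Pool.Agent.R917.DT.Mat
import Pool.Agent.R917.DT.Stb
import Pool.Agent.R917.DT.Rig

set_option autoImplicit false

/-!
# The period conjecture for 1-motives over products of Kuga-Satake varieties, in terms of torsors

Let `A` be an abelian variety over the field `ℚ̄` of algebraic numbers, with a polarization `φ`. Let
`P_i = exp(u_i)` and `Q_l = φ(exp(v_l))` be algebraic points of `A` and of the dual abelian variety,
`G` the extension of `A` by `G_m^s` given by the `Q_l`, and `M = [ℤ^n → G]` a 1-motive over `ℚ̄` with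
the images `e_i ↦ R_i` above `P_i`. The periods of `M` are `2 π i`, the periods and quasi-periods of
`A`, the abelian integrals `u_i` and the integrals of the second kind `h_k(u_i)`, the periods of the
third kind `∑ k, (h_k(v_l) λ_k - v_lk η_k)`, and the integrals of the third kind `ℓ_il`. The points
`R_i` are algebraic, and this means for the logarithms `ℓ_il` that

  `exp(ℓ_il) = q_il · θ(u_i - v_l) / (θ(u_i) θ(-v_l)) · exp(∑ k, h_k(v_l) u_ik)`, `q_il` algebraic:

the function `z ↦ θ(z - v) / (θ(z) θ(-v)) · exp(∑ k, h_k(v) z_k)` is the pullback of a rational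
section, over `ℚ̄`, of the extension of `A` by `G_m` given by `v`. We assume that the arguments of
the theta functions are not in the divisor of `θ`. So we get all 1-motives over `A`, up to isogeny.

The motivic Galois group of `M` is the Mumford-Tate group of the mixed Hodge structure `H_1(M)`
(Brylinski, André): the smallest algebraic group over `ℚ` which contains the image of the Deligne
torus, which acts on the subspaces `I^{p,q}` of `H_1(M, ℂ)` given by Deligne's splitting.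

The period conjecture says that the comparison isomorphism is a generic point, over `ℚ̄`, of its
torsor under the motivic Galois group of `M`. A consequence is that this torsor is the smallest
torsor, among the torsors over `ℚ̄` of all algebraic groups `G ⊆ GL(H_B(M))` over `ℚ`, which
contains the comparison isomorphism (in the terminology of André: `Ω^And = Ω^dRB`).

**Theorem.** Let `S_i`, `i ∈ κ`, be a finite family of abelian varieties over `ℚ̄` such that the
Lie algebra `𝔤(S_i)` of the Hodge group is simple (over `ℚ`) and of spin type, of rank `r_i ≥ 6`: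
`𝔤(S_i) ⊗ ℂ` is a sum of orthogonal Lie algebras `so(r_i)`, and `H_1(S_i, ℂ)` is a multiple of the
tensor product of their (full) spin representations. Assume that `r_i = 8` for at most one `i`. Let
`B₀` be an abelian variety such that the derived group of its Hodge group is determined by the
endomorphisms of `B₀`, and such that none of the `𝔤(S_i)` is a quotient of
`[𝔤(B₀), 𝔤(B₀)]`. Let `C` be an abelian variety with complex multiplication such that the Hodge group
of `C` is determined by the endomorphisms of `C`. Let `B` be an abelian variety with the factors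
`B₀`, `S_i`, `C` such that the Lie algebra of the Hodge group of `B` acts faithfully on
`H_1(B₀) ⊕ ⨁ H_1(S_i) ⊕ H_1(C)`, and its centre acts faithfully on `H_1(C)`. Let `A` be a direct
factor of `B` up to isogeny, and let `M` be any 1-motive over `A`. Then every algebraic group `G` over
`ℚ` with a torsor over `ℚ̄` which contains the comparison isomorphism contains the Mumford-Tate group
of `M`. So `Ω^And = Ω^dRB` for `M` and for all motives generated by `M`.

There is no condition on the points, so that all the deficient 1-motives are included, and there is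
no condition on the relations between the abelian varieties `S_i`: some of them can be isogenous, or
they can be different Kuga-Satake varieties with the same Lie algebra. The hypothesis on the faithful
action means that the motive of `B` is in the category generated by the motives of `B₀`, `S_i`
and `C`, up to finite covers of the Mumford-Tate groups. For `B = B₀ × ∏ S_i × C` it is satisfied, if
the centre of `𝔤(B₀)` is zero or comes from `C`.

## Examples

* Let `X_1, ..., X_m` be K3 surfaces over `ℚ̄` such that the field of endomorphisms `E_i` of the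
  transcendental lattice `T_i` is totally real (for instance `E_i = ℚ`, the general case), and
  `dim_{E_i} T_i ≥ 6` for all `i`, equal to eight for at most one `i`. The Kuga-Satake variety `S_i`
  of `T_i` is of spin type, of rank `dim_{E_i} T_i`, and the `ℚ`-simple Lie algebra is
  `Res_{E_i / ℚ} so(T_i)`. The motives of the `X_i` are in the category generated by the `S_i` and
  the Tate motives (Deligne, André), so that the theorem gives the conjecture of de Rham-Betti type
  for all products of powers of the K3 surfaces `X_i`, and moreover for the 1-motives over the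
  Kuga-Satake varieties. The same is true for all other families of Hodge structures of K3 type,
  for instance for hyperkähler varieties and for cubic fourfolds. For one single surface this is
  contained in the earlier file `OneMotivesMumfordTate`. For products of several surfaces there are
  new Hodge classes (correspondences) and also, a priori, new de Rham-Betti classes.
* `B₀` can be a product of elliptic curves and of abelian varieties with real or quaternion
  multiplication (their homology is a sum of planes). The hypotheses on `B₀` are proved below for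
  them, `derivedDetermined_of_planes` and `notQuotient_of_planes`. It can also be a Kuga-Satake
  variety of unitary type (`derivedDetermined_of_typeUnitary`, proved below), or any abelian variety
  with complex multiplication (`derivedDetermined_of_comm`, `notQuotient_of_comm`).
* `C` can be of Serre type for an abelian extension `K` of `ℚ` (this is proved in the file
  `OneMotivesRadical`, `determined_of_serreType`): a product of abelian varieties with complex
  multiplication by `K` where all CM types occur. Also all abelian varieties with complex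
  multiplication whose Hodge group is a simple torus are possible (`determined_of_typeTorus`, proved
  below).

In the earlier files `OneMotivesMumfordTate` and `OneMotivesAbelianCM` the hypothesis on the (derived
group of the) Hodge group of the whole abelian variety is that it is determined by the endomorphisms,
and this was proved for single Kuga-Satake varieties, but not for products. The new point is the
theorem of Goursat type for the Lie algebras of spin type: the graph of an isomorphism of Lie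
algebras is visible in the endomorphisms.

## Proof

Let `𝔥` be an algebraic subalgebra of `𝔤(B)` which contains the logarithmic derivatives of the
periods. By the theorem of Wüstholz it acts semisimply on `H_1(B)`, with the same commutant as
`𝔤(B)`. The images of `[𝔥, 𝔥]` in `𝔤(S_i)` and in `[𝔤(B₀), 𝔤(B₀)]` are everything. We have to show that
`[𝔥, 𝔥] = [𝔤(B), 𝔤(B)]`. By the lemma of Goursat and Ribet (`Gou.all`) it is enough to consider the
pairs `(i, j)` such that the image of `[𝔥, 𝔥]` in `𝔤(S_i) × 𝔤(S_j)` is the graph of an isomorphism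
`φ : 𝔤(S_j) → 𝔤(S_i)`. So we need the following theorem (`link`, `link_rat`): for every isomorphism
`φ : 𝔤(S_j) → 𝔤(S_i)` there is a linear map `M ≠ 0` from `H_1(S_i)` to `H_1(S_j)` with
`x M = M φ(x)` for all `x ∈ 𝔤(S_j)`, if `r_i ≠ 8` (this is false for other representations, for
instance for the half spin representations). Then `M` gives an endomorphism of `H_1(B)` which
commutes with `𝔥`, and so it commutes with `𝔤(B)`, and this shows that the image of `[𝔤(B), 𝔤(B)]` is
a graph too.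

The proof of the theorem on isomorphisms. Over `ℂ` the simple summands are mapped to the simple
summands. Let `φ` be an isomorphism from `so(r)` to `so(r)`, and let `x = u ∧ w` be a decomposable
element, with `u ⊥ w` and `N = (u, u)(w, w) ≠ 0`. Then `ad(x)^3 = - N ad(x)`, and the trace form of
the adjoint representation shows that `tr(φ(x)^2) = -2 N`. The relation `ad(Y)^3 = - N ad(Y)` for
`Y = φ(x)` gives `(r - 8)(Y^3 + N Y) = 0` by contraction (`cube_eq`), and then the relations of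
Plücker for `Y` (`plucker`), so that `Y` is decomposable. So in the spin representation the elements
`φ(x)` satisfy the same quadratic relations as the elements `x` (`iso_rels`), and then an intertwining
map can be constructed by averaging (`exists_intertwiner`).

The centre is treated as in the files `OneMotivesAbelianCM` and `OneMotivesRadical` (`centre_le`),
and the theorem follows as in the file `OneMotivesMumfordTate` (`hodge_stab6`): in particular the
integrals of the third kind are treated with the theorem of Schneider and Lang for theta functions.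
-/

open Module Matrix Pool.Agent.Y102 Pool.Agent.R917.OM Pool.Agent.R917.BX Pool.Agent.W516.DR
  Pool.Agent.H204R3.GP Pool.Agent.R917.DT Pool.Agent.T6.H14.CM Pool.Agent.T6.H14.GL

noncomputable section

namespace Pool.Agent.Results.MP_5d33ca_ag.OneMotivesProducts

section Hyp

variable {g : ℕ} (A : AbVar g)

/-! ### The hypotheses on the Lie algebras of the Hodge groups of the abelian varieties -/

/-- The rational matrices which act on `H_1(A, ℚ) = ℚ^(2g)` (the basis is the basis of the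
lattice). -/
abbrev Mat (g : ℕ) : Type := Matrix (Fin (2 * g)) (Fin (2 * g)) ℚ

/-- The multilinear forms in `2m` variables in the rational homology. -/
abbrev Form (m : ℕ) : Type := MultilinearMap ℚ (fun _ : Fin m × Fin 2 => A.H1) ℚ

/-- `φ` is a de Rham-Betti class in `H^1(A) ^ {⊗ 2m} (m)`. -/
def IsDRB {m : ℕ} (φ : Form A m) : Prop :=
  IsDeRhamBettiForm QBar A.dR (2 * Real.pi * Complex.I) m φ

/-- `φ` is a Hodge class in `H^1(A) ^ {⊗ 2m} (m)`. -/
def IsHodge {m : ℕ} (φ : Form A m) : Prop := IsHodgeTensor (A.per : A.H1 →+ (Fin g → ℂ)) φ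

/-- The matrix `X` annihilates the form `φ` (as a derivation). -/
def Annihilates {m : ℕ} (X : Mat g) (φ : Form A m) : Prop :=
  ∀ v : Fin m × Fin 2 → Fin (2 * g) → ℚ, ∑ k, φ (Function.update v k (X *ᵥ v k)) = 0

/-- `X` is in the Lie algebra `𝔤` of the Hodge group: it annihilates all classes that are Hodge
classes and de Rham-Betti classes (by the theorem of Deligne all Hodge classes are de Rham-Betti
classes). -/
def InLie (X : Mat g) : Prop :=
  ∀ (m : ℕ) (φ : Form A m), IsHodge A φ → IsDRB A φ → Annihilates A X φ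

/-- The subspace `𝔥` is a Lie algebra contained in `𝔤`. -/
def IsSubalgebra (𝔥 : Submodule ℚ (Mat g)) : Prop :=
  (∀ X ∈ 𝔥, InLie A X) ∧ ∀ X ∈ 𝔥, ∀ Y ∈ 𝔥, X * Y - Y * X ∈ 𝔥

/-- The subspace `U` of the homology is stable under the elements of `𝔥`. -/
def Stable (𝔥 : Submodule ℚ (Mat g)) (U : Submodule ℚ (Fin (2 * g) → ℚ)) : Prop :=
  ∀ X ∈ 𝔥, ∀ u ∈ U, X *ᵥ u ∈ U

/-- The action of `𝔥` on the homology is semisimple. -/
def IsSemisimple (𝔥 : Submodule ℚ (Mat g)) : Prop :=
  ∀ U, Stable 𝔥 U → ∃ U', Stable 𝔥 U' ∧ IsCompl U U'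

/-- Every matrix which commutes with `𝔥` commutes with `𝔤`. -/
def SameCommutant (𝔥 : Submodule ℚ (Mat g)) : Prop :=
  ∀ P : Mat g, (∀ X ∈ 𝔥, X * P = P * X) → ∀ X : Mat g, InLie A X → X * P = P * X

/-- The complex matrix of a rational matrix. -/
def cplx (X : Mat g) : Matrix (Fin (2 * g)) (Fin (2 * g)) ℂ := X.map (algebraMap ℚ ℂ)

/-- `𝔥` is closed under the replicas of its diagonalizable elements. Let `X ∈ 𝔥` be diagonalizable
over `ℂ`, with eigenvalues in the finite set `S`, let `σ : ℂ → ℂ` be additive, and let `Q` be a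
polynomial with `Q(a) = σ(a)` for all `a ∈ S`. Then the matrix `Q(X)` is in the complex span of
`𝔥`. -/
def IsReplicaClosed (𝔥 : Submodule ℚ (Mat g)) : Prop :=
  ∀ X ∈ 𝔥, ∀ (S : Finset ℂ) (σ : ℂ →+ ℂ) (Q : Polynomial ℂ),
    Polynomial.aeval (cplx X) (∏ a ∈ S, (Polynomial.X - Polynomial.C a)) = 0 →
    (∀ a ∈ S, Q.eval a = σ a) →
      Polynomial.aeval (cplx X) Q ∈ Submodule.span ℂ {Y | ∃ Z ∈ 𝔥, Y = cplx Z}

/-- The Hodge group of `A` is determined by the endomorphisms of `A`: its Lie algebra `𝔤` has no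
proper algebraic subalgebra `𝔥` which acts semisimply on the homology and has the same
commutant. -/
def Determined : Prop := ∀ 𝔥 : Submodule ℚ (Mat g), IsSubalgebra A 𝔥 → IsReplicaClosed 𝔥 →
  IsSemisimple 𝔥 → SameCommutant A 𝔥 → ∀ X, InLie A X → X ∈ 𝔥

/-- The Hodge group of `A` is commutative (`A` has complex multiplication) and determined by the
endomorphisms of `A`. -/
def DeterminedCM : Prop :=
  (∀ X Y : Mat g, InLie A X → InLie A Y → X * Y = Y * X) ∧ Determined A

/-- The derived group of the Hodge group of `A` is determined by the endomorphisms of `A`: the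
subalgebras `𝔥` of the Lie algebra `𝔤` which act semisimply on the homology and have the same
commutant contain the derived algebra `[𝔤, 𝔤]`. -/
def DerivedDetermined : Prop := ∀ 𝔥 : Submodule ℚ (Mat g), IsSubalgebra A 𝔥 →
  IsSemisimple 𝔥 → SameCommutant A 𝔥 → ∀ X Y, InLie A X → InLie A Y → X * Y - Y * X ∈ 𝔥

/-- The matrix `X` is in the derived algebra `[𝔤, 𝔤]` of the Lie algebra `𝔤` of the Hodge group. -/
def InDerived (X : Mat g) : Prop :=
  X ∈ Submodule.span ℚ {Z : Mat g | ∃ X Y, InLie A X ∧ InLie A Y ∧ Z = X * Y - Y * X}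

/-- The Lie algebra `𝔤` is simple: it is not zero, and the only ideals are zero and `𝔤`. -/
def IsSimpleLie : Prop := (∃ X, InLie A X ∧ X ≠ 0) ∧ ∀ I : Submodule ℚ (Mat g),
  (∀ X ∈ I, InLie A X) → (∀ Y, InLie A Y → ∀ X ∈ I, Y * X - X * Y ∈ I) →
    I = ⊥ ∨ ∀ X, InLie A X → X ∈ I

/-- The Lie algebra `𝔤(S)` is a quotient of the derived algebra `[𝔤(A), 𝔤(A)]`. -/
def IsQuotient {g' : ℕ} (S : AbVar g') : Prop := ∃ ψ : Mat g →ₗ[ℚ] Mat g',
  (∀ X Y, InDerived A X → InDerived A Y → ψ (X * Y - Y * X) = ψ X * ψ Y - ψ Y * ψ X) ∧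
  (∀ X, InDerived A X → InLie S (ψ X)) ∧ ∀ Y, InLie S Y → ∃ X, InDerived A X ∧ ψ X = Y

/-- The complex Lie algebra `𝔤 ⊗ ℂ`, acting on `H_1(A, ℂ)`. -/
def lieC : Submodule ℂ (Matrix (Fin (2 * g)) (Fin (2 * g)) ℂ) :=
  Submodule.span ℂ {Y | ∃ X, InLie A X ∧ Y = X.map (algebraMap ℚ ℂ)}

/-- The Lie algebra `𝔤 ⊗ ℂ` is a sum of `k` orthogonal Lie algebras `so(r)`, acting by spin
representations: the `E i` are the generators of a Clifford algebra acting on `H_1(A, ℂ)`, each of
them has one of `k` colours, each colour is used `r` times, and `𝔤 ⊗ ℂ` is spanned by the products of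
two different generators of the same colour. -/
def IsSpinType (r : ℕ) : Prop :=
  ∃ (N k : ℕ) (E : Fin N → Matrix (Fin (2 * g)) (Fin (2 * g)) ℂ) (c : Fin N → Fin k),
    (∀ i, E i * E i = 1) ∧ (∀ i j, i ≠ j → E i * E j = -(E j * E i)) ∧
    (∀ σ, (Finset.univ.filter fun j => c j = σ).card = r) ∧
    lieC A = Submodule.span ℂ {Y | ∃ i j, i ≠ j ∧ c i = c j ∧ Y = E i * E j}

/-! ### Factors -/

/-- `f` is a homomorphism (up to isogeny) from `A` to `B`: it is given by a linear map of the tangent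
spaces, and the pull backs of the algebraic differential forms are algebraic. -/
def IsHomomorphism {g' : ℕ} (B : AbVar g') (f : A.H1 →ₗ[ℚ] B.H1) : Prop :=
  (∃ F : (Fin g → ℂ) →ₗ[ℂ] (Fin g' → ℂ), ∀ w, F (A.per w) = B.per (f w)) ∧
    ∃ e : Fin g' ⊕ Fin g' → Fin g ⊕ Fin g → QBar,
      ∀ i w, B.dR i (f w) = ∑ j, algebraMap QBar ℂ (e i j) * A.dR j w

/-- `A` is a direct factor of `B`, up to isogeny. -/
def IsFactor {g' : ℕ} (B : AbVar g') : Prop :=
  ∃ (f : A.H1 →ₗ[ℚ] B.H1) (p : B.H1 →ₗ[ℚ] A.H1), IsHomomorphism A B f ∧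
    IsHomomorphism B A p ∧ ∀ w, p (f w) = w

/-- `A` is the direct factor of `B` given by the homomorphisms `f` and `p`. -/
structure IsFactorBy {g' : ℕ} (B : AbVar g') (f : A.H1 →ₗ[ℚ] B.H1) (p : B.H1 →ₗ[ℚ] A.H1) :
    Prop where
  hf : IsHomomorphism A B f
  hp : IsHomomorphism B A p
  pf : ∀ w, p (f w) = w

/-- The Lie algebra of the Hodge group of `A` acts faithfully on `H_1(B₀) ⊕ ⨁ H_1(S_i) ⊕ H_1(C)`, for
the factors `B₀`, `S_i` and `C` of `A` given by the projections `p₀`, `p_i` and `q`. -/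
def ActsFaithfully {g₀ g₂ : ℕ} {B₀ : AbVar g₀} {C : AbVar g₂} {κ : Type} {γ : κ → ℕ}
    {S : ∀ i, AbVar (γ i)} (p₀ : A.H1 →ₗ[ℚ] B₀.H1) (p : ∀ i, A.H1 →ₗ[ℚ] (S i).H1)
    (q : A.H1 →ₗ[ℚ] C.H1) : Prop :=
  ∀ X : Mat g, InLie A X → (∀ w, p₀ (X *ᵥ w) = 0) → (∀ i w, p i (X *ᵥ w) = 0) →
    (∀ w, q (X *ᵥ w) = 0) → X = 0

/-- The centre of the Lie algebra of the Hodge group of `A` acts faithfully on `H_1(C)`, for the
factor `C` of `A` given by the projection `q`. -/
def CentreActsFaithfully {g₂ : ℕ} {C : AbVar g₂} (q : A.H1 →ₗ[ℚ] C.H1) : Prop :=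
  ∀ Z : Mat g, InLie A Z → (∀ Y : Mat g, InLie A Y → Z * Y = Y * Z) →
    (∀ w, q (Z *ᵥ w) = 0) → Z = 0

end Hyp

section Motives

variable {g n s : ℕ} (A : AbVarG g)

/-! ### 1-motives and their periods -/

/-- The basis of the Betti realization of the 1-motive: the basis `λ_j` of the lattice of `A`, the
basis `γ_l` of `H_1(G_m^s)`, the basis `e_i` of `ℤ^n`. -/
abbrev Betti (g n s : ℕ) : Type := Fin (2 * g) ⊕ (Fin s ⊕ Fin n)

/-- The basis of the de Rham cohomology of the 1-motive: the invariant differentials `d z_k` and the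
differentials of the second kind `d h_k` on `A`, the invariant differentials of the third kind `ω_l`
on the semiabelian variety, and a basis for `ℤ^n`. -/
abbrev DeRham (g n s : ℕ) : Type := (Fin g ⊕ Fin g) ⊕ (Fin s ⊕ Fin n)

/-- The integral of the second kind `h_k = ∂ k (log θ 0)`, with the value zero at the origin. -/
def second (k : Fin g) (z : Fin g → ℂ) : ℂ := pd k (A.θ 0) z / A.θ 0 z - pd k (A.θ 0) 0

/-- The comparison isomorphism of the 1-motive. The rows are the Betti side. -/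
def periodMatrix (u : Fin n → Fin g → ℂ) (v : Fin s → Fin g → ℂ) (ℓ : Fin n → Fin s → ℂ) :
    Matrix (Betti g n s) (DeRham g n s) ℂ := Matrix.of fun r c =>
  match r, c with
  | Sum.inl j, Sum.inl (Sum.inl k) => A.lam j k
  | Sum.inl j, Sum.inl (Sum.inr k) => A.η j k
  | Sum.inl j, Sum.inr (Sum.inl l) => ∑ k, (second A k (v l) * A.lam j k - v l k * A.η j k)
  | Sum.inr (Sum.inl l), Sum.inr (Sum.inl l') => if l = l' then 2 * Real.pi * Complex.I else 0
  | Sum.inr (Sum.inr i), Sum.inl (Sum.inl k) => u i k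
  | Sum.inr (Sum.inr i), Sum.inl (Sum.inr k) => second A k (u i)
  | Sum.inr (Sum.inr i), Sum.inr (Sum.inl l) => ℓ i l
  | Sum.inr (Sum.inr i), Sum.inr (Sum.inr i') => if i = i' then 1 else 0
  | _, _ => 0

/-- The data `u_i, v_l, ℓ_il` of a 1-motive over the algebraic numbers: the points of `A` and of the
dual abelian variety are algebraic, and so are the points of the extension, in terms of the
trivialization by the function `θ(z - v) / (θ(z) θ(-v)) · exp(∑ k, h_k(v) z_k)`. The vectors are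
chosen outside of the divisor of the theta function. -/
structure IsOneMotive (u : Fin n → Fin g → ℂ) (v : Fin s → Fin g → ℂ) (ℓ : Fin n → Fin s → ℂ) :
    Prop where
  point : ∀ i, IsPoint A.toAbVar (u i)
  dual : ∀ l, IsPoint A.toAbVar (v l)
  neg : ∀ l, IsPoint A.toAbVar (-v l)
  sub : ∀ i l, IsPoint A.toAbVar (u i - v l)
  log : ∀ i l, ∃ q : ℂ, IsAlgebraic ℚ q ∧ Complex.exp (ℓ i l) =
    q * (A.θ 0 (u i - v l) / (A.θ 0 (u i) * A.θ 0 (-v l))) *
      Complex.exp (∑ k, second A k (v l) * u i k)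

/-! ### Algebraic groups which contain the periods -/

/-- A subgroup of `GL_R(ℂ)` defined by polynomials with rational coefficients. -/
def IsAlgebraicSubgroup {R : Type} [Fintype R] [DecidableEq R] (G : Subgroup (GL R ℂ)) : Prop :=
  ∃ I : Set (MvPolynomial (R × R) ℚ), ∀ x : GL R ℂ, x ∈ G ↔
    ∀ p ∈ I, MvPolynomial.aeval (fun b : R × R => (x : Matrix R R ℂ) b.1 b.2) p = 0

/-- The comparison isomorphism `c` is an element of a torsor `G · T⁻¹` of `G`, defined over the
algebraic numbers: `T` is a matrix with algebraic entries (an isomorphism between the Betti side and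
the de Rham side) such that `c T ∈ G`. -/
def ContainsPeriods (u : Fin n → Fin g → ℂ) (v : Fin s → Fin g → ℂ) (ℓ : Fin n → Fin s → ℂ)
    (G : Subgroup (GL (Betti g n s) ℂ)) : Prop :=
  ∃ T : Matrix (DeRham g n s) (Betti g n s) ℂ, (∀ i j, IsAlgebraic ℚ (T i j)) ∧
    ∃ x ∈ G, (x : Matrix (Betti g n s) (Betti g n s) ℂ) = periodMatrix A u v ℓ * T

/-! ### The mixed Hodge structure and the Mumford-Tate group -/

/-- The Hodge filtration: the vectors of `H_1(M, ℂ)` (in terms of their coordinates) on which the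
invariant differentials of the semiabelian variety vanish. -/
def F0 (u : Fin n → Fin g → ℂ) (v : Fin s → Fin g → ℂ) (ℓ : Fin n → Fin s → ℂ)
    (x : Betti g n s → ℂ) : Prop :=
  (∀ k, ∑ r, x r * periodMatrix A u v ℓ r (Sum.inl (Sum.inl k)) = 0) ∧
    ∀ l, ∑ r, x r * periodMatrix A u v ℓ r (Sum.inr (Sum.inl l)) = 0

/-- The part of weight `≤ -1` of the homology, the homology of the semiabelian variety. -/
def W1 (x : Betti g n s → ℂ) : Prop := ∀ i, x (Sum.inr (Sum.inr i)) = 0

/-- The part of weight `≤ -2` of the homology, the homology of the torus. -/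
def W2 (x : Betti g n s → ℂ) : Prop :=
  (∀ j, x (Sum.inl j) = 0) ∧ ∀ i, x (Sum.inr (Sum.inr i)) = 0

/-- The complex conjugate vector. -/
def bar (x : Betti g n s → ℂ) : Betti g n s → ℂ := fun r => (starRingEnd ℂ) (x r)

/-- The matrix `M` gives the action of the element `z` of the Deligne torus on the homology of the
1-motive (vectors are rows): it acts by `1` on `I^{0,0} = F^0 ∩ (F̄^0 + W_{-2})`, by `z̄` on
`I^{0,-1} = F^0 ∩ W_{-1}`, by `z` on its complex conjugate `I^{-1,0}` and by `z z̄` on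
`I^{-1,-1} = W_{-2}`. -/
structure IsDeligne (u : Fin n → Fin g → ℂ) (v : Fin s → Fin g → ℂ) (ℓ : Fin n → Fin s → ℂ)
    (z : ℂ) (M : Matrix (Betti g n s) (Betti g n s) ℂ) : Prop where
  zero_zero : ∀ x y w, F0 A u v ℓ x → F0 A u v ℓ y → W2 w → x = bar y + w → x ᵥ* M = x
  zero_neg : ∀ x, F0 A u v ℓ x → W1 x → x ᵥ* M = (starRingEnd ℂ) z • x
  neg_zero : ∀ x, F0 A u v ℓ x → W1 x → bar x ᵥ* M = z • bar x
  neg_neg : ∀ x, W2 x → x ᵥ* M = (z * (starRingEnd ℂ) z) • x

/-- The Mumford-Tate group of the 1-motive: the smallest algebraic group over `ℚ` which contains the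
image of the Deligne torus. -/
def mumfordTate (u : Fin n → Fin g → ℂ) (v : Fin s → Fin g → ℂ) (ℓ : Fin n → Fin s → ℂ) :
    Subgroup (GL (Betti g n s) ℂ) :=
  sInf {G | IsAlgebraicSubgroup G ∧ ∀ z : ℂ, z ≠ 0 → ∃ x ∈ G,
    IsDeligne A u v ℓ z (x : Matrix (Betti g n s) (Betti g n s) ℂ)}

/-! ### Proofs -/

/-- the data of the 1-motive -/
def dat (u : Fin n → Fin g → ℂ) (v : Fin s → Fin g → ℂ) (ℓ : Fin n → Fin s → ℂ) : Dt g n s where
  P := Sum.elim (fun i => Sum.elim (u i) (fun k => second A k (u i)))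
    (fun l => Sum.elim (v l) (fun k => second A k (v l)))
  ℓ := ℓ

theorem per_eb (j : Fin (2 * g)) (k : Fin g) : A.dR (Sum.inl k) (eb A.toAbVar j) = A.lam j k := by
  change A.per (Pi.single j 1) k = _
  unfold AbVar.per
  rw [Fintype.linearCombination_apply_single, one_smul]

theorem eta_eb (j : Fin (2 * g)) (k : Fin g) : A.dR (Sum.inr k) (eb A.toAbVar j) = A.η j k := by
  change A.eta (Pi.single j 1) k = _
  unfold AbVar.eta
  rw [Fintype.linearCombination_apply_single, one_smul]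

theorem periodMatrix_eq (u : Fin n → Fin g → ℂ) (v : Fin s → Fin g → ℂ)
    (ℓ : Fin n → Fin s → ℂ) : periodMatrix A u v ℓ = pmat A.toAbVar (dat A u v ℓ) := by
  ext r c
  rcases r with j | l | i <;> rcases c with (k | k) | l' | i' <;>
    simp [periodMatrix, pmat, dat, per_eb, eta_eb, thd, tau]

end Motives

section Prf

variable {g : ℕ} (A : AbVar g)

/-- The matrix of an endomorphism of the homology. -/
def mat (X : Module.End ℚ A.H1) : Mat g := LinearMap.toMatrix' X

theorem mat_mulVec (X : Module.End ℚ A.H1) (v : Fin (2 * g) → ℚ) : mat A X *ᵥ v = X v :=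
  LinearMap.toMatrix'_mulVec X v

theorem mat_mul (X Y : Module.End ℚ A.H1) : mat A (X * Y) = mat A X * mat A Y :=
  LinearMap.toMatrix'_mul X Y

theorem mat_br (X Y : Module.End ℚ A.H1) :
    mat A (X * Y - Y * X) = mat A X * mat A Y - mat A Y * mat A X := by
  rw [← mat_mul, ← mat_mul]
  exact map_sub (LinearMap.toMatrix' : _ ≃ₗ[ℚ] Mat g) _ _

theorem mat_inj {X Y : Module.End ℚ A.H1} (h : mat A X = mat A Y) : X = Y :=
  (LinearMap.toMatrix' : _ ≃ₗ[ℚ] Mat g).injective h

theorem mat_surj (X : Mat g) : ∃ Y : Module.End ℚ A.H1, mat A Y = X :=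
  (LinearMap.toMatrix' : _ ≃ₗ[ℚ] Mat g).surjective X

theorem inLie_mat {X : Module.End ℚ A.H1} : InLie A (mat A X) ↔ X ∈ A.NA := by
  constructor
  · intro h m φ h1 h2 v
    have h3 := h m φ h1 h2 v
    simp only [mat_mulVec] at h3
    exact h3
  · intro h m φ h1 h2 v
    simp only [mat_mulVec]
    exact h m φ h1 h2 v

theorem cplx_mat (X : Module.End ℚ A.H1) : cplx (mat A X) = toC X := (toC_eq X).symm

theorem span_mat (𝔥 : Submodule ℚ (Module.End ℚ A.H1)) (𝔥' : Submodule ℚ (Mat g))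
    (h : ∀ X : Module.End ℚ A.H1, mat A X ∈ 𝔥' ↔ X ∈ 𝔥) :
    Submodule.span ℂ {Y | ∃ Z ∈ 𝔥', Y = cplx Z} = Submodule.span ℂ {Y | ∃ Z ∈ 𝔥, Y = toC Z} := by
  congr 1
  ext Y
  constructor
  · rintro ⟨Z, hZ, rfl⟩
    obtain ⟨Z, rfl⟩ := mat_surj A Z
    exact ⟨Z, (h Z).1 hZ, cplx_mat A Z⟩
  · rintro ⟨Z, hZ, rfl⟩
    exact ⟨mat A Z, (h Z).2 hZ, (cplx_mat A Z).symm⟩

theorem det_of_determined (hA : Determined A) : Det A := by
  intro 𝔥 h hRC
  let 𝔥' : Submodule ℚ (Mat g) := 𝔥.map (LinearMap.toMatrix' : _ ≃ₗ[ℚ] Mat g).toLinearMap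
  have hmem : ∀ X : Module.End ℚ A.H1, mat A X ∈ 𝔥' ↔ X ∈ 𝔥 := by
    intro X
    constructor
    · rintro ⟨Y, hY, hYX⟩
      rw [← mat_inj A hYX]
      exact hY
    · intro hX
      exact ⟨X, hX, rfl⟩
  intro X hX
  rw [← hmem]
  refine hA 𝔥' ⟨?_, ?_⟩ ?_ ?_ ?_ _ ((inLie_mat A).2 hX)
  · rintro _ ⟨Y, hY, rfl⟩
    exact (inLie_mat A).2 (h.le hY)
  · rintro _ ⟨Y, hY, rfl⟩ _ ⟨Z, hZ, rfl⟩
    have h1 := (hmem (Y * Z - Z * Y)).2 (h.br Y hY Z hZ)
    rw [mat_br] at h1
    exact h1
  · rintro _ ⟨Y, hY, rfl⟩ S σ Q hS hQ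
    rw [span_mat A 𝔥 𝔥' hmem]
    change Polynomial.aeval (cplx (mat A Y)) _ = 0 at hS
    change Polynomial.aeval (cplx (mat A Y)) Q ∈ _
    rw [cplx_mat] at hS ⊢
    exact rc_iff.1 hRC Y hY S σ Q hS hQ
  · intro U hU
    obtain ⟨U', h1, h2⟩ := h.semi U (fun Y hY u hu => by
      have h3 := hU _ ((hmem Y).2 hY) u hu
      rwa [mat_mulVec] at h3)
    refine ⟨U', ?_, h2⟩
    rintro _ ⟨Y, hY, rfl⟩ u hu
    have h3 := h1 Y hY u hu
    rwa [← mat_mulVec] at h3
  · intro P hP Y hY
    obtain ⟨P, rfl⟩ := mat_surj A P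
    obtain ⟨Y, rfl⟩ := mat_surj A Y
    rw [← mat_mul, ← mat_mul]
    congr 1
    refine h.comm P (fun Z hZ => mat_inj A ?_) Y ((inLie_mat A).1 hY)
    rw [mat_mul, mat_mul]
    exact hP _ ((hmem Z).2 hZ)

theorem determined_of_det (hA : Det A) : Determined A := by
  intro 𝔥 hsub hrc hsemi hcomm X hX
  obtain ⟨X, rfl⟩ := mat_surj A X
  let 𝔥' : Submodule ℚ (Module.End ℚ A.H1) :=
    𝔥.comap (LinearMap.toMatrix' : _ ≃ₗ[ℚ] Mat g).toLinearMap
  have hmem : ∀ X : Module.End ℚ A.H1, mat A X ∈ 𝔥 ↔ X ∈ 𝔥' := fun _ => Iff.rfl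
  refine hA 𝔥' ⟨fun Y hY => (inLie_mat A).1 (hsub.1 _ hY), fun Y hY Z hZ => ?_, fun U hU => ?_,
    fun P hP Y hY => ?_⟩ (rc_iff.2 fun Y hY S σ Q hS hQ => ?_) ((inLie_mat A).1 hX)
  · change mat A (Y * Z - Z * Y) ∈ 𝔥
    rw [mat_br]
    exact hsub.2 _ hY _ hZ
  · obtain ⟨U', h1, h2⟩ := hsemi U (fun Y hY u hu => by
      obtain ⟨Y, rfl⟩ := mat_surj A Y
      rw [mat_mulVec]
      exact hU Y hY u hu)
    refine ⟨U', fun Y hY u hu => ?_, h2⟩
    have h3 := h1 _ hY u hu
    rwa [show (LinearMap.toMatrix' : _ ≃ₗ[ℚ] Mat g).toLinearMap Y = mat A Y from rfl,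
      mat_mulVec] at h3
  · refine mat_inj A ?_
    rw [mat_mul, mat_mul]
    refine hcomm _ (fun Z hZ => ?_) _ ((inLie_mat A).2 hY)
    obtain ⟨Z, rfl⟩ := mat_surj A Z
    rw [← mat_mul, ← mat_mul]
    exact congrArg (mat A) (hP Z hZ)
  · rw [← span_mat A 𝔥' 𝔥 hmem, ← cplx_mat]
    rw [← cplx_mat] at hS
    exact hrc _ hY S σ Q hS hQ

/-- the passage to endomorphisms -/
theorem of_derivedDetermined (hA : DerivedDetermined A) (𝔥 : Submodule ℚ (Module.End ℚ A.H1))
    (h : A.Full 𝔥) : ∀ X ∈ A.NA, ∀ Y ∈ A.NA, X * Y - Y * X ∈ 𝔥 := by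
  let 𝔥' : Submodule ℚ (Mat g) := 𝔥.map (LinearMap.toMatrix' : _ ≃ₗ[ℚ] Mat g).toLinearMap
  have hmem : ∀ X : Module.End ℚ A.H1, mat A X ∈ 𝔥' ↔ X ∈ 𝔥 := by
    intro X
    constructor
    · rintro ⟨Y, hY, hYX⟩
      rw [← mat_inj A hYX]
      exact hY
    · intro hX
      exact ⟨X, hX, rfl⟩
  intro X hX Y hY
  rw [← hmem, mat_br]
  refine hA 𝔥' ⟨?_, ?_⟩ ?_ ?_ _ _ ((inLie_mat A).2 hX) ((inLie_mat A).2 hY)
  · rintro _ ⟨Y, hY, rfl⟩
    exact (inLie_mat A).2 (h.le hY)
  · rintro _ ⟨Y, hY, rfl⟩ _ ⟨Z, hZ, rfl⟩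
    have h1 := (hmem (Y * Z - Z * Y)).2 (h.br Y hY Z hZ)
    rw [mat_br] at h1
    exact h1
  · intro U hU
    obtain ⟨U', h1, h2⟩ := h.semi U (fun Y hY u hu => by
      have h3 := hU _ ((hmem Y).2 hY) u hu
      rwa [mat_mulVec] at h3)
    refine ⟨U', ?_, h2⟩
    rintro _ ⟨Y, hY, rfl⟩ u hu
    have h3 := h1 Y hY u hu
    rwa [← mat_mulVec] at h3
  · intro P hP Y hY
    obtain ⟨P, rfl⟩ := mat_surj A P
    obtain ⟨Y, rfl⟩ := mat_surj A Y
    rw [← mat_mul, ← mat_mul]
    congr 1
    refine h.comm P (fun Z hZ => mat_inj A ?_) Y ((inLie_mat A).1 hY)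
    rw [mat_mul, mat_mul]
    exact hP _ ((hmem Z).2 hZ)

theorem lieC_eq : lieC A = Submodule.span ℂ {Y | ∃ X ∈ A.NA, Y = toC X} := by
  unfold lieC
  congr 1
  ext Y
  constructor
  · rintro ⟨X, hX, rfl⟩
    obtain ⟨X, rfl⟩ := mat_surj A X
    exact ⟨X, (inLie_mat A).1 hX, (toC_eq X).symm⟩
  · rintro ⟨X, hX, rfl⟩
    exact ⟨mat A X, (inLie_mat A).2 hX, toC_eq X⟩

theorem inDerived_mat {X : Module.End ℚ A.H1} : InDerived A (mat A X) ↔ X ∈ der A.NA := by
  have h1 : Submodule.span ℚ {Z : Mat g | ∃ X Y, InLie A X ∧ InLie A Y ∧ Z = X * Y - Y * X} =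
      (der A.NA).map (LinearMap.toMatrix' : _ ≃ₗ[ℚ] Mat g).toLinearMap := by
    unfold der
    rw [Submodule.map_span]
    congr 1
    ext Z
    constructor
    · rintro ⟨X, Y, hX, hY, rfl⟩
      obtain ⟨X, rfl⟩ := mat_surj A X
      obtain ⟨Y, rfl⟩ := mat_surj A Y
      exact ⟨X * Y - Y * X, ⟨X, (inLie_mat A).1 hX, Y, (inLie_mat A).1 hY, rfl⟩, mat_br A X Y⟩
    · rintro ⟨_, ⟨X, hX, Y, hY, rfl⟩, rfl⟩
      exact ⟨mat A X, mat A Y, (inLie_mat A).2 hX, (inLie_mat A).2 hY, mat_br A X Y⟩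
  unfold InDerived
  rw [h1]
  constructor
  · rintro ⟨Y, hY, hYX⟩
    rw [← mat_inj A hYX]
    exact hY
  · intro hX
    exact ⟨X, hX, rfl⟩

theorem mat_zero {X : Module.End ℚ A.H1} (h : mat A X = 0) : X = 0 :=
  mat_inj A (h.trans (map_zero (LinearMap.toMatrix' : _ ≃ₗ[ℚ] Mat g)).symm)

/-- the data of an abelian variety of spin type -/
theorem exists_spT {r : ℕ} (h6 : 6 ≤ r) (h : IsSpinType A r) :
    ∃ (N k : ℕ) (E : Fin N → Matrix (Fin (2 * g)) (Fin (2 * g)) ℂ) (c : Fin N → Fin k),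
      SpT A E c ∧ ∀ i, nc c (c i) = r := by
  obtain ⟨N, k, E, c, e1, e2, e3, e4⟩ := h
  rw [lieC_eq] at e4
  exact ⟨N, k, E, c, ⟨e1, e2, fun i => by
    have h1 : nc c (c i) = r := e3 (c i)
    omega, e4⟩, fun i => e3 (c i)⟩

theorem ne_of_simple (h : IsSimpleLie A) {N k : ℕ}
    {E : Fin N → Matrix (Fin (2 * g)) (Fin (2 * g)) ℂ} {c : Fin N → Fin k} (hs : SpT A E c) :
    der A.NA ≠ ⊥ := by
  obtain ⟨⟨X, hX, hX0⟩, -⟩ := h
  obtain ⟨X, rfl⟩ := mat_surj A X
  rw [hs.der_eq]
  intro h0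
  have h1 := (inLie_mat A).1 hX
  rw [h0, Submodule.mem_bot] at h1
  apply hX0
  rw [h1]
  exact map_zero (LinearMap.toMatrix' : _ ≃ₗ[ℚ] Mat g)

theorem simp_of_simple (h : IsSimpleLie A) {N k : ℕ}
    {E : Fin N → Matrix (Fin (2 * g)) (Fin (2 * g)) ℂ} {c : Fin N → Fin k} (hs : SpT A E c) :
    ∀ I : Submodule ℚ (Module.End ℚ A.H1), I ≤ der A.NA →
      (∀ x ∈ der A.NA, ∀ y ∈ I, x * y - y * x ∈ I) → I = ⊥ ∨ I = der A.NA := by
  intro I hI hid
  rw [hs.der_eq] at hI hid ⊢
  let I' : Submodule ℚ (Mat g) := I.map (LinearMap.toMatrix' : _ ≃ₗ[ℚ] Mat g).toLinearMap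
  have hmem : ∀ X : Module.End ℚ A.H1, mat A X ∈ I' ↔ X ∈ I := by
    intro X
    constructor
    · rintro ⟨Y, hY, hYX⟩
      rw [← mat_inj A hYX]
      exact hY
    · intro hX
      exact ⟨X, hX, rfl⟩
  rcases h.2 I' (by
    rintro _ ⟨X, hX, rfl⟩
    exact (inLie_mat A).2 (hI hX)) (by
    rintro Y hY _ ⟨X, hX, rfl⟩
    obtain ⟨Y, rfl⟩ := mat_surj A Y
    exact ⟨Y * X - X * Y, hid Y ((inLie_mat A).1 hY) X hX, mat_br A Y X⟩) with h1 | h1
  · left
    rw [eq_bot_iff]
    intro X hX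
    have h2 := (hmem X).2 hX
    rw [h1, Submodule.mem_bot] at h2
    rw [Submodule.mem_bot]
    exact mat_zero A h2
  · right
    exact le_antisymm hI fun X hX => (hmem X).1 (h1 _ ((inLie_mat A).2 hX))

/-- quotients -/
theorem isQuotient_of {g' : ℕ} (S : AbVar g') (hS : der S.NA = S.NA)
    (h : ∃ ψ : Module.End ℚ A.H1 →ₗ[ℚ] Module.End ℚ S.H1,
      (∀ x ∈ der A.NA, ∀ y ∈ der A.NA, ψ (x * y - y * x) = ψ x * ψ y - ψ y * ψ x) ∧
      (∀ x ∈ der A.NA, ψ x ∈ der S.NA) ∧ ∀ y ∈ der S.NA, ∃ x ∈ der A.NA, ψ x = y) :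
    IsQuotient A S := by
  obtain ⟨ψ, h1, h2, h3⟩ := h
  rw [hS] at h2 h3
  let ψ' : Mat g →ₗ[ℚ] Mat g' := (LinearMap.toMatrix' : _ ≃ₗ[ℚ] Mat g').toLinearMap ∘ₗ ψ ∘ₗ
    (LinearMap.toMatrix' : _ ≃ₗ[ℚ] Mat g).symm.toLinearMap
  have hψ : ∀ X : Module.End ℚ A.H1, ψ' (mat A X) = mat S (ψ X) := by
    intro X
    change mat S (ψ ((LinearMap.toMatrix' : _ ≃ₗ[ℚ] Mat g).symm
      ((LinearMap.toMatrix' : _ ≃ₗ[ℚ] Mat g) X))) = _
    rw [LinearEquiv.symm_apply_apply]
  refine ⟨ψ', fun X Y hX hY => ?_, fun X hX => ?_, fun Y hY => ?_⟩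
  · obtain ⟨X, rfl⟩ := mat_surj A X
    obtain ⟨Y, rfl⟩ := mat_surj A Y
    rw [inDerived_mat] at hX hY
    rw [← mat_br, hψ, hψ, hψ, h1 X hX Y hY, mat_br]
  · obtain ⟨X, rfl⟩ := mat_surj A X
    rw [inDerived_mat] at hX
    rw [hψ]
    exact (inLie_mat S).2 (h2 X hX)
  · obtain ⟨Y, rfl⟩ := mat_surj S Y
    obtain ⟨X, hX, rfl⟩ := h3 Y ((inLie_mat S).1 hY)
    exact ⟨mat A X, (inDerived_mat A).2 hX, hψ X⟩

theorem of_isQuotient {g' : ℕ} (S : AbVar g') (hS : der S.NA = S.NA) (h : IsQuotient A S) :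
    ∃ ψ : Module.End ℚ A.H1 →ₗ[ℚ] Module.End ℚ S.H1,
      (∀ x ∈ der A.NA, ∀ y ∈ der A.NA, ψ (x * y - y * x) = ψ x * ψ y - ψ y * ψ x) ∧
      (∀ x ∈ der A.NA, ψ x ∈ der S.NA) ∧ ∀ y ∈ der S.NA, ∃ x ∈ der A.NA, ψ x = y := by
  obtain ⟨ψ, h1, h2, h3⟩ := h
  rw [hS]
  let ψ' : Module.End ℚ A.H1 →ₗ[ℚ] Module.End ℚ S.H1 :=
    (LinearMap.toMatrix' : _ ≃ₗ[ℚ] Mat g').symm.toLinearMap ∘ₗ ψ ∘ₗ
      (LinearMap.toMatrix' : _ ≃ₗ[ℚ] Mat g).toLinearMap
  have hψ : ∀ X : Module.End ℚ A.H1, mat S (ψ' X) = ψ (mat A X) := by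
    intro X
    change (LinearMap.toMatrix' : _ ≃ₗ[ℚ] Mat g') ((LinearMap.toMatrix' : _ ≃ₗ[ℚ] Mat g').symm
      (ψ (mat A X))) = _
    rw [LinearEquiv.apply_symm_apply]
  refine ⟨ψ', fun X hX Y hY => ?_, fun X hX => ?_, fun Y hY => ?_⟩
  · apply mat_inj S
    rw [mat_br, hψ, hψ, hψ, mat_br, h1 _ _ ((inDerived_mat A).2 hX) ((inDerived_mat A).2 hY)]
  · rw [← inLie_mat S, hψ]
    exact h2 _ ((inDerived_mat A).2 hX)
  · obtain ⟨X, hX, hXY⟩ := h3 _ ((inLie_mat S).2 hY)
    obtain ⟨X, rfl⟩ := mat_surj A X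
    refine ⟨X, (inDerived_mat A).1 hX, mat_inj S ?_⟩
    rw [hψ, hXY]

end Prf

/-- The Lie algebra of the Hodge group of `B` has no proper algebraic subalgebras which contain the
logarithmic derivatives of the periods. -/
theorem dx_of {g₀ g₂ g' : ℕ} {B : AbVar g'} {B₀ : AbVar g₀} {C : AbVar g₂} {κ : Type} [Fintype κ]
    {γ : κ → ℕ} {S : ∀ i, AbVar (γ i)} {f₀ : B₀.H1 →ₗ[ℚ] B.H1} {p₀ : B.H1 →ₗ[ℚ] B₀.H1}
    {f : ∀ i, (S i).H1 →ₗ[ℚ] B.H1} {p : ∀ i, B.H1 →ₗ[ℚ] (S i).H1} {f₂ : C.H1 →ₗ[ℚ] B.H1}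
    {q : B.H1 →ₗ[ℚ] C.H1} (h₀ : DerivedDetermined B₀) (r : κ → ℕ) (h6 : ∀ i, 6 ≤ r i)
    (h8 : ∀ i j, r i = 8 → r j = 8 → i = j) (hS : ∀ i, IsSpinType (S i) (r i))
    (hsim : ∀ i, IsSimpleLie (S i)) (hq : ∀ i, ¬ IsQuotient B₀ (S i)) (hC : DeterminedCM C)
    (i₀ : IsFactorBy B₀ B f₀ p₀) (iS : ∀ i, IsFactorBy (S i) B (f i) (p i))
    (iC : IsFactorBy C B f₂ q) (h₃ : ActsFaithfully B p₀ p q) (h₄ : CentreActsFaithfully B q) :
    DX B := by
  have F₀ : Fac B₀ B f₀ p₀ := ⟨⟨i₀.hf.1, i₀.hf.2⟩, ⟨i₀.hp.1, i₀.hp.2⟩, i₀.pf⟩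
  have F : ∀ i, Fac (S i) B (f i) (p i) := fun i =>
    ⟨⟨(iS i).hf.1, (iS i).hf.2⟩, ⟨(iS i).hp.1, (iS i).hp.2⟩, (iS i).pf⟩
  have F₂ : Fac C B f₂ q := ⟨⟨iC.hf.1, iC.hf.2⟩, ⟨iC.hp.1, iC.hp.2⟩, iC.pf⟩
  have key : ∀ {g₁ : ℕ} {A : AbVar g₁} {f : A.H1 →ₗ[ℚ] B.H1} {p : B.H1 →ₗ[ℚ] A.H1},
      Fac A B f p → ∀ Z ∈ B.NA, rs f p Z = 0 → ∀ w, p (mat B Z *ᵥ w) = 0 := by
    intro g₁ A f p hF Z hZ hZ0 w
    have hw : mat B Z *ᵥ w = Z w := mat_mulVec B Z w
    rw [hw]
    have h5 := congrArg (fun T : Module.End ℚ B.H1 => p (T w)) (B.NA_comm hZ hF.mem_EA)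
    change p (Z (f (p w))) = p (f (p (Z w))) at h5
    rw [hF.pf] at h5
    rw [← h5]
    exact LinearMap.congr_fun hZ0 (p w)
  choose N k E c hT hn using fun i => exists_spT (S i) (h6 i) (hS i)
  have hne := fun i => ne_of_simple (S i) (hsim i) (hT i)
  refine DX_fam F₀ F F₂ (fun Y hY e₀ e₁ e₂ => mat_zero B (h₃ _ ((inLie_mat B).2 hY)
    (key F₀ Y hY e₀) (fun i => key (F i) Y hY (e₁ i)) (key F₂ Y hY e₂)))
    (of_derivedDetermined B₀ h₀) (fun i => (hT i).det)
    (fun i => simp_of_simple (S i) (hsim i) (hT i)) hne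
    (fun i h => hq i (isQuotient_of B₀ (S i) (hT i).der_eq h)) (fun i j hij => ?_)
    (det_of_determined C hC.2) (fun X hX Y hY => ?_) (fun Z hZ hZc hZ0 => ?_)
  · by_cases h : r i = 8
    · right
      refine linkP_spin (hT j) (hT i) (fun l h' => hij (h8 i j h ?_)) (hne j) (hne i)
      rw [← hn j l]
      exact h'
    · left
      exact linkP_spin (hT i) (hT j) (fun l h' => h (by rw [← hn i l]; exact h')) (hne i) (hne j)
  · refine mat_inj C ?_
    rw [mat_mul, mat_mul]
    exact hC.1 _ _ ((inLie_mat C).2 hX) ((inLie_mat C).2 hY)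
  · refine mat_zero B (h₄ (mat B Z) ((inLie_mat B).2 hZ) (fun Y hY => ?_) (key F₂ Z hZ hZ0))
    obtain ⟨Y, rfl⟩ := mat_surj B Y
    rw [← mat_mul, ← mat_mul, hZc Y ((inLie_mat B).1 hY)]

/-- **Theorem.** Let `S_i` be a finite family of abelian varieties with simple Lie algebras `𝔤(S_i)`
of spin type, of rank `r_i ≥ 6`, equal to eight for at most one `i`. Let `B₀` be an abelian variety
such that the derived group of the Hodge group is determined by the endomorphisms, and `𝔤(S_i)` is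
not a quotient of `[𝔤(B₀), 𝔤(B₀)]`, for all `i`. Let `C` be an abelian variety such that the Hodge
group is commutative and determined by the endomorphisms. Let `B` be an abelian variety with the
factors `B₀`, `S_i` and `C` such that the Lie algebra of the Hodge group of `B` acts faithfully on
`H_1(B₀) ⊕ ⨁ H_1(S_i) ⊕ H_1(C)` and its centre acts faithfully on `H_1(C)`. Then every algebraic
group over `ℚ` with a torsor over `ℚ̄` which contains the comparison isomorphism of a 1-motive over a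
factor of `B` contains the Mumford-Tate group of the 1-motive. -/
theorem result (g₀ g₂ g' : ℕ) (κ : Type) [Fintype κ] (γ : κ → ℕ)
    (B₀ : AbVar g₀) (h₀ : DerivedDetermined B₀)
    (S : ∀ i, AbVar (γ i)) (r : κ → ℕ) (h6 : ∀ i, 6 ≤ r i)
    (h8 : ∀ i j, r i = 8 → r j = 8 → i = j) (hS : ∀ i, IsSpinType (S i) (r i))
    (hsim : ∀ i, IsSimpleLie (S i)) (hq : ∀ i, ¬ IsQuotient B₀ (S i))
    (C : AbVar g₂) (hC : DeterminedCM C)
    (B : AbVar g') (f₀ : B₀.H1 →ₗ[ℚ] B.H1) (p₀ : B.H1 →ₗ[ℚ] B₀.H1)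
    (f : ∀ i, (S i).H1 →ₗ[ℚ] B.H1) (p : ∀ i, B.H1 →ₗ[ℚ] (S i).H1)
    (f₂ : C.H1 →ₗ[ℚ] B.H1) (q : B.H1 →ₗ[ℚ] C.H1)
    (i₀ : IsFactorBy B₀ B f₀ p₀) (iS : ∀ i, IsFactorBy (S i) B (f i) (p i))
    (iC : IsFactorBy C B f₂ q) (h₃ : ActsFaithfully B p₀ p q) (h₄ : CentreActsFaithfully B q)
    (g n s : ℕ) (A : AbVarG g) (hA : IsFactor A.toAbVar B) (u : Fin n → Fin g → ℂ)
    (v : Fin s → Fin g → ℂ) (ℓ : Fin n → Fin s → ℂ) (hM : IsOneMotive A u v ℓ)
    (G : Subgroup (GL (Betti g n s) ℂ)) (hG : IsAlgebraicSubgroup G)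
    (hP : ContainsPeriods A u v ℓ G) : mumfordTate A u v ℓ ≤ G := by
  obtain ⟨T, hT, x, hx, hxT⟩ := hP
  rw [periodMatrix_eq] at hxT
  have hpt := ptM_of hG hT hx hxT
  obtain ⟨K₁, hK₁, hrat⟩ := exists_rat_mult A (pt (dat A u v ℓ)) (by
    rintro (i | l)
    · exact Or.inl (hM.point i)
    · exact Or.inl (hM.dual l))
  obtain ⟨f, p, hf, hp, hpf⟩ := hA
  obtain ⟨h1, h2⟩ := hodge_stab6 hpt ⟨hM.point, hM.neg, hM.sub, hM.log⟩ hrat
    (detJ_of_DX (f := f) (p := p) ⟨⟨hf.1, hf.2⟩, ⟨hp.1, hp.2⟩, hpf⟩ (dx_of h₀ r h6 h8 hS hsim hq hC i₀ iS iC h₃ h₄))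
  refine sInf_le ⟨hG, fun z hz => ?_⟩
  obtain ⟨M, ⟨y, hy, hyM⟩, hM⟩ := hodge_exp hpt.grp h1 h2 z
  have hlog : ((Complex.log z).re : ℂ) + (Complex.log z).im * Complex.I = Complex.log z :=
    Complex.re_add_im _
  have hexp := Complex.exp_log hz
  have hconj : Complex.exp ((starRingEnd ℂ) (Complex.log z)) = (starRingEnd ℂ) z := by
    rw [Complex.exp_conj, hexp]
  have hlog' : ((Complex.log z).re : ℂ) - (Complex.log z).im * Complex.I =
      (starRingEnd ℂ) (Complex.log z) := by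
    apply Complex.ext <;> simp
  rw [← hyM] at hM
  have hF : ∀ a, F0 A u v ℓ a → (∀ k, i1 A.toAbVar (dat A u v ℓ) a k = 0) ∧
      ∀ l, i3 A.toAbVar (dat A u v ℓ) a l = 0 := by
    rintro a ⟨ha1, ha2⟩
    rw [periodMatrix_eq] at ha1 ha2
    exact ⟨ha1, ha2⟩
  refine ⟨y, hy, ⟨fun a b w ha hb hw hab => ?_, fun a ha ha1 => ?_, fun a ha ha1 => ?_,
    fun a ha => ?_⟩⟩
  · obtain ⟨e1, e2⟩ := eig_0 (A := A.toAbVar) (d := dat A u v ℓ) (v := a) (f := b)
      (fun j => by rw [hab, Pi.add_apply, hw.1, add_zero]; rfl)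
      (fun i => by rw [hab, Pi.add_apply, hw.2, add_zero]; rfl) (hF a ha).1 (hF a ha).2 (hF b hb).1
    have h3 := hM a 0 0 e1 e2
    rwa [mul_zero, mul_zero, add_zero, Complex.exp_zero, one_smul] at h3
  · obtain ⟨e1, e2⟩ := eig_m (A := A.toAbVar) (d := dat A u v ℓ) (v := a) ha1 (hF a ha).1
      (hF a ha).2
    have h3 := hM a 1 (-Complex.I) (by rw [one_smul]; exact e1) e2
    rw [h3, ← hconj, ← hlog']
    congr 2
    ring
  · obtain ⟨e1, e2⟩ := eig_p (A := A.toAbVar) (d := dat A u v ℓ) (v := bar a) (w := a)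
      (fun r => rfl) ha1 (hF a ha).1 (hF a ha).2
    have h3 := hM (bar a) 1 Complex.I (by rw [one_smul]; exact e1) e2
    rw [h3, mul_one, hlog, hexp]
  · obtain ⟨e1, e2⟩ := eig_t (A := A.toAbVar) (d := dat A u v ℓ) (v := a) ha.1 ha.2
    have h3 := hM a 2 0 e1 e2
    rw [h3]
    congr 1
    rw [mul_zero, add_zero]
    have h4 : z * (starRingEnd ℂ) z =
        Complex.exp (Complex.log z) * Complex.exp ((starRingEnd ℂ) (Complex.log z)) := by
      rw [hexp, hconj]
    rw [h4, ← Complex.exp_add]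
    congr 1
    linear_combination hlog + hlog'

/-! ### Examples -/

section Examples

variable {g : ℕ} (A : AbVar g)

/-- The centre of the Lie algebra `𝔤` has no proper nonzero algebraic subalgebras. -/
def SimpleCentre : Prop := ∀ 𝔷 : Submodule ℚ (Mat g),
  (∀ X ∈ 𝔷, InLie A X ∧ ∀ Y : Mat g, InLie A Y → X * Y = Y * X) → IsReplicaClosed 𝔷 →
    𝔷 = ⊥ ∨ ∀ X : Mat g, InLie A X → (∀ Y : Mat g, InLie A Y → X * Y = Y * X) → X ∈ 𝔷

theorem simpleCentre_CN (h : SimpleCentre A) (𝔷 : Submodule ℚ (Module.End ℚ A.H1))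
    (hz : 𝔷 ≤ A.CN) (hRC : RC 𝔷) : 𝔷 = ⊥ ∨ A.CN ≤ 𝔷 := by
  let 𝔷' : Submodule ℚ (Mat g) := 𝔷.map (LinearMap.toMatrix' : _ ≃ₗ[ℚ] Mat g).toLinearMap
  have hmem : ∀ X : Module.End ℚ A.H1, mat A X ∈ 𝔷' ↔ X ∈ 𝔷 := by
    intro X
    constructor
    · rintro ⟨Y, hY, hYX⟩
      rw [← mat_inj A hYX]
      exact hY
    · intro hX
      exact ⟨X, hX, rfl⟩
  have h1 : ∀ X ∈ 𝔷', InLie A X ∧ ∀ Y : Mat g, InLie A Y → X * Y = Y * X := by
    rintro _ ⟨X, hX, rfl⟩
    have h2 := hz hX
    refine ⟨(inLie_mat A).2 h2.1, fun Y hY => ?_⟩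
    obtain ⟨Y, rfl⟩ := mat_surj A Y
    have h3 := congrArg (mat A) (h2.2 Y ((inLie_mat A).1 hY))
    rw [mat_mul, mat_mul] at h3
    exact h3.symm
  have h2 : IsReplicaClosed 𝔷' := by
    rintro _ ⟨Y, hY, rfl⟩ S σ Q hS hQ
    rw [span_mat A 𝔷 𝔷' hmem]
    change Polynomial.aeval (cplx (mat A Y)) _ = 0 at hS
    change Polynomial.aeval (cplx (mat A Y)) Q ∈ _
    rw [cplx_mat] at hS ⊢
    exact rc_iff.1 hRC Y hY S σ Q hS hQ
  rcases h 𝔷' h1 h2 with h0 | h0
  · left
    rw [eq_bot_iff]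
    intro X hX
    have h3 := (hmem X).2 hX
    rw [h0, Submodule.mem_bot] at h3
    rw [Submodule.mem_bot]
    exact mat_inj A (h3.trans (map_zero (LinearMap.toMatrix' : _ ≃ₗ[ℚ] Mat g)).symm)
  · right
    intro X hX
    rw [← hmem]
    refine h0 _ ((inLie_mat A).2 hX.1) fun Y hY => ?_
    obtain ⟨Y, rfl⟩ := mat_surj A Y
    rw [← mat_mul, ← mat_mul, hX.2 Y ((inLie_mat A).1 hY)]

/-- The Lie algebra `𝔤` is commutative and has no proper nonzero algebraic subalgebras: the Hodge
group is a simple torus. -/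
def TypeTorus : Prop :=
  (∀ X Y : Mat g, InLie A X → InLie A Y → X * Y = Y * X) ∧ SimpleCentre A

/-- The abelian varieties with complex multiplication whose Hodge group is a simple torus are
determined. -/
theorem determined_of_typeTorus (h : TypeTorus A) : DeterminedCM A := by
  refine ⟨h.1, ?_⟩
  refine determined_of_det A (det_torus (fun X hX Y hY => ?_) (simpleCentre_CN A h.2))
  have h1 := h.1 (mat A X) (mat A Y) ((inLie_mat A).2 hX) ((inLie_mat A).2 hY)
  rw [← mat_mul, ← mat_mul] at h1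
  exact mat_inj A h1

/-- The Lie algebra `𝔤 ⊗ ℂ` is a sum of `k` algebras `gl(W_σ)` with `W_σ` of even dimension, acting on
`H_1(A, ℂ)` by a multiple of the tensor product of the exterior algebras of the `W_σ`, twisted by the
inverses of the square roots of the determinants: the `a i` and `b i` are creation and annihilation
operators, each of them has one of `k` colours, each colour is used an even number of times, and
`𝔤 ⊗ ℂ` is spanned by the matrices `a i * b j - δ i j / 2`, `i` and `j` of the same colour. There is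
no condition on the centre. -/
def TypeUnitary : Prop :=
  ∃ (n k : ℕ) (a b : Fin n → Matrix (Fin (2 * g)) (Fin (2 * g)) ℂ) (c : Fin n → Fin k),
    (∀ σ, Even (Finset.univ.filter fun j => c j = σ).card) ∧
    (∀ i j, a i * a j = -(a j * a i)) ∧ (∀ i j, b i * b j = -(b j * b i)) ∧
    (∀ i j, a i * b j + b j * a i = if i = j then 1 else 0) ∧
    lieC A = Submodule.span ℂ {Y | ∃ i j, c i = c j ∧
      Y = a i * b j - if i = j then (2⁻¹ : ℂ) • 1 else 0}

theorem derivedDetermined_of (hA : ∀ 𝔥 : Submodule ℚ (Module.End ℚ A.H1), A.Full 𝔥 →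
    ∀ X ∈ A.NA, ∀ Y ∈ A.NA, X * Y - Y * X ∈ 𝔥) : DerivedDetermined A := by
  intro 𝔥 hsub hsemi hcomm X Y hX hY
  obtain ⟨X, rfl⟩ := mat_surj A X
  obtain ⟨Y, rfl⟩ := mat_surj A Y
  let 𝔥' : Submodule ℚ (Module.End ℚ A.H1) :=
    𝔥.comap (LinearMap.toMatrix' : _ ≃ₗ[ℚ] Mat g).toLinearMap
  have hmem : ∀ X : Module.End ℚ A.H1, mat A X ∈ 𝔥 ↔ X ∈ 𝔥' := fun _ => Iff.rfl
  rw [← mat_br, hmem]
  refine hA 𝔥' ⟨fun Y hY => (inLie_mat A).1 (hsub.1 _ hY), fun Y hY Z hZ => ?_, fun U hU => ?_,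
    fun P hP Y hY => ?_⟩ X ((inLie_mat A).1 hX) Y ((inLie_mat A).1 hY)
  · change mat A (Y * Z - Z * Y) ∈ 𝔥
    rw [mat_br]
    exact hsub.2 _ hY _ hZ
  · obtain ⟨U', h1, h2⟩ := hsemi U (fun Y hY u hu => by
      obtain ⟨Y, rfl⟩ := mat_surj A Y
      rw [mat_mulVec]
      exact hU Y hY u hu)
    refine ⟨U', fun Y hY u hu => ?_, h2⟩
    have h3 := h1 _ hY u hu
    rwa [show (LinearMap.toMatrix' : _ ≃ₗ[ℚ] Mat g).toLinearMap Y = mat A Y from rfl,
      mat_mulVec] at h3
  · refine mat_inj A ?_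
    rw [mat_mul, mat_mul]
    refine hcomm _ (fun Z hZ => ?_) _ ((inLie_mat A).2 hY)
    obtain ⟨Z, rfl⟩ := mat_surj A Z
    rw [← mat_mul, ← mat_mul]
    exact congrArg (mat A) (hP Z hZ)

/-- The derived groups of the Hodge groups of the abelian varieties of unitary type are
determined. -/
theorem derivedDetermined_of_typeUnitary (h : TypeUnitary A) : DerivedDetermined A := by
  obtain ⟨n, k, a, b, c, hn, aa, bb, hab, hl⟩ := h
  have hev : ∀ i : Fin n, Even (Finset.univ.filter fun j => c j = c i).card := fun i => hn (c i)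
  have hl' : Submodule.span ℂ {Y | ∃ X ∈ A.NA, Y = toC X} =
      Submodule.span ℂ {Y | ∃ i j, c i = c j ∧ Y = Pool.Agent.R912.gM a b i j} := by
    rw [← lieC_eq, hl]
    rfl
  exact derivedDetermined_of A fun 𝔥 hF X hX Y hY =>
    Pool.Agent.R912.full_unitary hF (Pool.Agent.R912.car_mat aa bb hab)
      (Pool.Agent.R912.cx_NA_eq aa bb hab hev hl') hev hX hY

/-- The derived groups are trivial for abelian varieties with complex multiplication. -/
theorem derivedDetermined_of_comm (h : ∀ X Y : Mat g, InLie A X → InLie A Y → X * Y = Y * X) :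
    DerivedDetermined A := by
  intro 𝔥 _ _ _ X Y hX hY
  rw [h X Y hX hY, sub_self]
  exact 𝔥.zero_mem

/-! ### Sums of planes -/

namespace Planes

/-- The endomorphisms of the rational homology `H_1(A, ℚ) = ℚ^(2g)` (the basis is the basis of the
lattice). -/
abbrev EndH (g : ℕ) : Type := Module.End ℚ (Fin (2 * g) → ℚ)

/-- The endomorphisms of the complex homology `H_1(A, ℂ) = ℂ^(2g)`. -/
abbrev MatC (g : ℕ) : Type := Matrix (Fin (2 * g)) (Fin (2 * g)) ℂ

/-- The complex matrix of a rational endomorphism. -/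
def mat (T : EndH g) : MatC g := (LinearMap.toMatrix' T).map (algebraMap ℚ ℂ)

/-- `T` is an endomorphism of `A` over `ℂ`, up to isogeny (an element of `End(A_ℂ) ⊗ ℚ`): it extends
to a complex linear endomorphism of the tangent space `ℂ ^ g`. -/
def IsComplexEnd (T : EndH g) : Prop := IsHodgeEnd (A.per : A.H1 →+ (Fin g → ℂ)) T

/-- `T` is an endomorphism of `A` over `ℚ̄`, up to isogeny, in terms of its action on
`H^1_dR(A / ℚ̄)`: the periods and quasi-periods of `T(w)` are linear combinations with algebraic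
coefficients of those of `w`. -/
def IsAlgebraicEnd (T : EndH g) : Prop := IsDeRhamBettiEnd QBar A.dR T

/-- The matrix of the Riemann form of the polarization in the basis of the lattice. -/
def riemannMatrix : MatC g := Matrix.of fun i j =>
  (∑ k, (A.η i k * A.lam j k - A.η j k * A.lam i k)) / (2 * Real.pi * Complex.I)

/-- The projector `P` is symmetric with respect to the polarization. -/
def IsSymmetric (P : MatC g) : Prop := Pᵀ * riemannMatrix A = riemannMatrix A * P

/-- The homology `H_1(A, ℂ)` is the sum of the planes `V_i = P_i H_1(A, ℂ)`, `i = 1, ..., g`, given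
by projectors `P_i` of rank two in `End(A) ⊗ ℂ`. Each of them is the homology of an elliptic curve
(`P_i` is rational), or `P_i` is symmetric and `P_i End(A) P_i = ℂ P_i`. Two of the elliptic curves
are isogenous over `ℚ̄` or not isogenous over `ℂ` (this is always the case for elliptic curves over
`ℚ̄`). -/
structure IsPlaneDecomposition (P : Fin g → MatC g) : Prop where
  algebraic : ∀ i, P i ∈ Submodule.span ℂ {M | ∃ T, IsAlgebraicEnd A T ∧ M = mat T}
  projector : ∀ i, P i * P i = P i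
  sum : ∑ i, P i = 1
  plane : ∀ i, (P i).trace = 2
  type : ∀ i, (∃ E : EndH g, P i = mat E) ∨
    (IsSymmetric A (P i) ∧ ∀ T, IsAlgebraicEnd A T → ∃ z : ℂ, P i * mat T * P i = z • P i)
  isogeny : ∀ i j (E E' : EndH g), i ≠ j → P i = mat E → P j = mat E' →
    (∃ T, IsAlgebraicEnd A T ∧ E' * T * E ≠ 0) ∨ ∀ T, IsComplexEnd A T → E' * T * E = 0

/-- The homology of `A` is a sum of planes as above. -/
def IsSumOfPlanes : Prop := ∃ P : Fin g → MatC g, IsPlaneDecomposition A P

theorem mat_eq (T : EndH g) : mat T = toC T := (toC_eq T).symm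

theorem matE_mat (T : EndH g) : matE (2 * g) (mat T) = T.baseChange ℂ := by
  rw [mat_eq, matE_toC]

theorem riemannMatrix_eq : riemannMatrix A = Pool.Agent.R917.GL.omM A := by
  have hl : ∀ j, A.per (Pi.single j 1) = A.lam j := by
    intro j
    unfold AbVar.per
    rw [Fintype.linearCombination_apply_single, one_smul]
  ext i j
  have h1 : ((A.om (Pi.single i 1) (Pi.single j 1) : ℚ) : ℂ) =
      ((A.E (A.lam i) (A.lam j) : ℝ) : ℂ) := by
    rw [← hl i, ← hl j, ← A.om_coe]
    exact (Complex.ofReal_ratCast _).symm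
  change _ = ((A.om (Pi.single i 1) (Pi.single j 1) : ℚ) : ℂ)
  rw [h1, A.E_coe]
  unfold riemannForm
  have h2 : ∀ i k, (∑ j, (A.lam.repr (A.lam i) j : ℂ) * A.η j k) = A.η i k := by
    intro i k
    rw [Finset.sum_eq_single i]
    · rw [Basis.repr_self, Finsupp.single_eq_same]
      push_cast
      ring
    · intro j _ hj
      rw [Basis.repr_self, Finsupp.single_eq_of_ne hj]
      push_cast
      ring
    · intro h
      exact absurd (Finset.mem_univ _) h
  simp only [h2]
  rfl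

/-- The data of the isogeny classes. -/
theorem exists_classes (hA : IsSumOfPlanes A) :
    ∃ (C : Type) (_ : Finite C), Nonempty (Pool.Agent.R917.EC.CMS A C) := by
  obtain ⟨P, hP⟩ := hA
  have hcx : ∀ i, matE (2 * g) (P i) ∈ cx A.EA := by
    intro i
    have h1 : P i ∈ Submodule.span ℂ {Y | ∃ X ∈ A.EA, Y = toC X} := by
      refine Submodule.span_mono ?_ (hP.algebraic i)
      rintro _ ⟨T, hT, rfl⟩
      exact ⟨T, A.mem_EA.2 hT, mat_eq T⟩
    have h2 := Submodule.mem_map_of_mem (f := (matE (2 * g)).toLinearMap) h1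
    rw [map_lie] at h2
    exact h2
  have hrat : ∀ i (T : EndH g), matE (2 * g) (P i) = T.baseChange ℂ → P i = mat T := by
    intro i T h
    rw [← matE_mat] at h
    exact (matE (2 * g)).injective h
  refine Pool.Agent.R917.GL.exists_CMS_of (P := fun i => matE (2 * g) (P i)) hcx (fun i => ?_) ?_ (fun i => ?_)
    (fun i => ?_) ?_
  · rw [← map_mul, hP.projector]
  · rw [← map_sum, hP.sum, map_one]
  · rw [Pool.Agent.R917.GL.trace_matE, hP.plane]
  · rcases hP.type i with ⟨T, hT⟩ | ⟨h1, h2⟩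
    · exact Or.inl ⟨T, by rw [hT, matE_mat]⟩
    · refine Or.inr ⟨fun X hX => ?_, fun T hT => ?_⟩
      · have hc : toC X * P i = P i * toC X := by
          have h3 := Pool.Agent.R917.GL.CC_of_cx (bc_mem hX) _ (hcx i)
          rw [← matE_toC, ← map_mul, ← map_mul] at h3
          exact (matE (2 * g)).injective h3
        rw [← matE_toC, ← map_mul, Pool.Agent.R917.GL.trace_matE]
        refine Pool.Agent.R917.GL.trace_sym ?_ hX hc
        rw [← riemannMatrix_eq]
        exact h1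
      · obtain ⟨z, hz⟩ := h2 T (A.mem_EA.1 hT)
        refine ⟨z, ?_⟩
        rw [← matE_mat, ← map_mul, ← map_mul, hz, map_smul]
  · intro i j E E' hij hi hj
    rcases hP.isogeny i j E E' hij (hrat i E hi) (hrat j E' hj) with ⟨T, hT, hT0⟩ | h
    · exact Or.inl ⟨T, A.mem_EA.2 hT, hT0⟩
    · exact Or.inr fun T hT => h T hT

end Planes

/-- The derived groups of the Hodge groups of the abelian varieties whose homology is a sum of planes
(products of elliptic curves and of abelian varieties with real or quaternion multiplication) are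
determined. -/
theorem derivedDetermined_of_planes (h : Planes.IsSumOfPlanes A) : DerivedDetermined A := by
  obtain ⟨C, hC, ⟨S⟩⟩ := Planes.exists_classes A h
  exact derivedDetermined_of A S.rig

/-- The homology `H_1(A, ℂ)` is a sum of planes which are stable under the Lie algebra `𝔤`, given by
the projectors `P i`. -/
def IsSumOfStablePlanes : Prop := ∃ (n : ℕ) (P : Fin n → Matrix (Fin (2 * g)) (Fin (2 * g)) ℂ),
  (∀ i X, InLie A X → P i * X.map (algebraMap ℚ ℂ) = X.map (algebraMap ℚ ℂ) * P i) ∧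
  (∀ i, P i * P i = P i) ∧ (∀ i, (P i).trace = 2) ∧ ∑ i, P i = 1

theorem stable_of_planes (h : Planes.IsSumOfPlanes A) : IsSumOfStablePlanes A := by
  obtain ⟨P, hP⟩ := h
  refine ⟨g, P, fun i X hX => ?_, hP.projector, hP.plane, hP.sum⟩
  obtain ⟨X, rfl⟩ := mat_surj A X
  have hX' := (inLie_mat A).1 hX
  have hcx : matE (2 * g) (P i) ∈ cx A.EA := by
    have h1 : P i ∈ Submodule.span ℂ {Y | ∃ X ∈ A.EA, Y = toC X} := by
      refine Submodule.span_mono ?_ (hP.algebraic i)
      rintro _ ⟨T, hT, rfl⟩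
      exact ⟨T, A.mem_EA.2 hT, Planes.mat_eq T⟩
    have h2 := Submodule.mem_map_of_mem (f := (matE (2 * g)).toLinearMap) h1
    rw [map_lie] at h2
    exact h2
  have h3 := Pool.Agent.R917.GL.CC_of_cx (bc_mem hX') _ hcx
  rw [← matE_toC, ← map_mul, ← map_mul] at h3
  have h4 : (mat A X).map (algebraMap ℚ ℂ) = toC X := (toC_eq X).symm
  rw [h4]
  exact ((matE (2 * g)).injective h3).symm

/-- Lie algebras of spin type are not quotients of Lie algebras which act on sums of planes. -/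
theorem notQuotient_of_planes (h : IsSumOfStablePlanes A) {g' : ℕ} (S : AbVar g') {r : ℕ}
    (h6 : 6 ≤ r) (hS : IsSpinType S r) (hsim : IsSimpleLie S) : ¬ IsQuotient A S := by
  obtain ⟨n, P, h1, h2, h3, h4⟩ := h
  obtain ⟨N, k, E, c, hT, -⟩ := exists_spT S h6 hS
  intro hq
  refine noQuot hT (ne_of_simple S hsim hT) ?_ (of_isQuotient A S hT.der_eq hq)
  refine RazOn.planes (P := fun i => matE (2 * g) (P i)) (fun i X hX => ?_) (fun i => ?_)
    (fun i => ?_) ?_
  · have h5 : ∀ X ∈ cx A.NA, matE (2 * g) (P i) * X = X * matE (2 * g) (P i) := by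
      refine cx_comm fun X hX => ?_
      rw [← matE_toC, ← map_mul, ← map_mul]
      have h6 := h1 i (mat A X) ((inLie_mat A).2 hX)
      have h7 : (mat A X).map (algebraMap ℚ ℂ) = toC X := (toC_eq X).symm
      rw [h7] at h6
      rw [h6]
    exact h5 X hX
  · rw [← map_mul, h2]
  · rw [Pool.Agent.R917.GL.trace_matE, h3]
  · rw [← map_sum, h4, map_one]

/-- Lie algebras of spin type are not quotients of commutative Lie algebras. -/
theorem notQuotient_of_comm (h : ∀ X Y : Mat g, InLie A X → InLie A Y → X * Y = Y * X) {g' : ℕ}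
    (S : AbVar g') (hsim : IsSimpleLie S) : ¬ IsQuotient A S := by
  rintro ⟨ψ, -, -, h3⟩
  obtain ⟨⟨Y, hY, hY0⟩, -⟩ := hsim
  obtain ⟨X, hX, rfl⟩ := h3 Y hY
  apply hY0
  have h4 : Submodule.span ℚ {Z : Mat g | ∃ X Y, InLie A X ∧ InLie A Y ∧ Z = X * Y - Y * X} ≤ ⊥ := by
    rw [Submodule.span_le]
    rintro _ ⟨X, Y, hX, hY, rfl⟩
    rw [h X Y hX hY, sub_self]
    exact Submodule.zero_mem _
  rw [(Submodule.mem_bot ℚ).1 (h4 hX), map_zero]

end Examples

end Pool.Agent.Results.MP_5d33ca_ag.OneMotivesProducts
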