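import Pool.Agent.T6.H14.RD.Cen
import Pool.Agent.T6.H14.RD.Grp
import Pool.Agent.R917.DT.Mat
import Pool.Agent.R917.DT.Rig

set_option autoImplicit false

/-!
# The period conjecture for the radical of the motivic Galois group of 1-motives

Let `A` be an abelian variety over the field `ℚ̄` of algebraic numbers, with a polarization `φ`. Let
`P_i = exp(u_i)` and `Q_l = φ(exp(v_l))` be algebraic points of `A` and of the dual abelian variety,
`E` the extension of `A` by `G_m^s` given by the `Q_l`, and `M = [ℤ^n → E]` a 1-motive over `ℚ̄` with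
the images `e_i ↦ R_i` above `P_i`. The periods of `M` are `2 π i`, the periods and quasi-periods of
`A`, the abelian integrals `u_i` and the integrals of the second kind `h_k(u_i)`, the periods of the
third kind `∑ k, (h_k(v_l) λ_k - v_lk η_k)`, and the integrals of the third kind `ℓ_il`. The points
`R_i` are algebraic, and this means for the logarithms `ℓ_il` that

  `exp(ℓ_il) = q_il · θ(u_i - v_l) / (θ(u_i) θ(-v_l)) · exp(∑ k, h_k(v_l) u_ik)`, `q_il` algebraic:

the function `z ↦ θ(z - v) / (θ(z) θ(-v)) · exp(∑ k, h_k(v) z_k)` is the pullback of a rational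
section, over `ℚ̄`, of the extension of `A` by `G_m` given by `v`. We assume that the arguments of
the theta functions are not in the divisor of `θ`. So we get all 1-motives over `A`, up to isogeny.

The motivic Galois group of `M` is the Mumford-Tate group `MT(M)` of the mixed Hodge structure
`H_1(M)` (Brylinski, André): the smallest algebraic group over `ℚ` which contains the image of the
Deligne torus, which acts on the subspaces `I^{p,q}` of `H_1(M, ℂ)` given by Deligne's splitting.

The period conjecture says that the comparison isomorphism is a generic point, over `ℚ̄`, of its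
torsor under the motivic Galois group of `M`. A consequence is that this torsor is the smallest
torsor, among the torsors over `ℚ̄` of all algebraic groups `G ⊆ GL(H_B(M))` over `ℚ`, which
contains the comparison isomorphism (in the terminology of André: `Ω^And = Ω^dRB`).

**Theorem.** Let `A` be an abelian variety over `ℚ̄`, and `B` an abelian variety with the direct
factors `A` and `C` (up to isogeny), such that `C` has complex multiplication, the Hodge group of
`C` is determined by the endomorphisms of `C`, and the centre of the Lie algebra `𝔤` of the Hodge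
group of `B` acts faithfully on `H_1(C)`. Let `M` be any 1-motive over `A`, and let `G` be an
algebraic group over `ℚ` with a torsor over `ℚ̄` which contains the comparison isomorphism of `M`.
Let `x` and `y` be elements of `MT(M)` with the same action on the graded pieces of the weight
filtration, up to `(c ^ 2, c exp(Z), 1)`: here `c` is a homothety, and `Z` is an element of the centre
of `𝔤 ⊗ ℂ`, acting on `W_{-1} / W_{-2} = H_1(A, ℂ)`. If `y` is in `G` then `x` is in `G`.

So `G` contains the radical of the Mumford-Tate group of `M`: it contains the unipotent radical, and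
all elements of `MT(M)` which act on `H_1(A)` by the connected centre of the Mumford-Tate group of
`A` (the centre of the Lie algebra of the Hodge group of `A` is the image of the centre of `𝔤`). The
theorem says that for these 1-motives the group `Ω^dRB` of `M`, which is contained in `MT(M)` by the
theorem of Deligne on absolute Hodge cycles, extended to 1-motives by Brylinski, is the inverse image
of a subgroup of the semisimple quotient of `MT(M)`. There is no condition on the points and on the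
semisimple part of the Hodge group of `A`.

## The hypothesis on `C`

The Hodge group of `C` is determined if its Lie algebra has no proper algebraic subalgebras which
act semisimply on `H_1(C, ℚ)` with the same commutant (`Determined`). This is proved below for

* the abelian varieties of Serre type (`determined_of_serreType`): products of abelian varieties with
  complex multiplication by a finite abelian extension `K` of `ℚ`, where all CM types occur;
* the abelian varieties with complex multiplication whose Hodge group is a simple torus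
  (`determined_of_typeTorus`), for instance the simple abelian varieties with complex multiplication
  by a field `K` of degree `2 g` such that the odd part of `ℚ ^ Hom(K, ℂ)` is an irreducible
  representation of the Galois group.

Let `A` be any abelian variety such that the centres of the endomorphism algebras of the simple
factors of `A` of type IV are abelian extensions of `ℚ`, and let `K` be an abelian CM field which
contains them. Then `A` satisfies the hypothesis of the theorem with `C` of Serre type for `K` and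
`B = A × C`. In fact the maximal torus quotient of the Mumford-Tate group of `B` is a quotient of the
Serre group of `K`, which is the Mumford-Tate group of `C`, and so it is equal to the Mumford-Tate
group of `C`. Examples are

* all abelian varieties `A` such that the centres of the endomorphism algebras of the simple factors
  are totally real fields or imaginary quadratic fields: for instance the abelian varieties with
  `End(A) ⊗ ℚ` an imaginary quadratic field, of any signature (like the general abelian varieties of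
  Weil type, or the Jacobians of general curves `y ^ 3 = f(x)`), and all their products with
  arbitrary abelian varieties without factors of type IV;
* the Jacobians of the curves `y ^ m = f(x)`, if the centres of the endomorphism algebras of the
  simple factors are contained in cyclotomic fields.

The Lie algebra of the Hodge group is in general not determined by the endomorphisms for these
abelian varieties, and the derived groups of their Hodge groups can be arbitrarily complicated. The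
theorem separates the radical from the part of the problem which remains open: for these `A` the
conjecture (`Ω^And = Ω^dRB`) for all 1-motives over `A` follows if `Ω^dRB` of `A` maps onto the
adjoint group of the Mumford-Tate group of `A`.

In the earlier file `OneMotivesUnipotent` the case `Z = 0` is proved, for all `A`, and in the file
`OneMotivesAbelianCM` the abelian variety `A` is a factor of an abelian variety whose derived group
is determined by the endomorphisms; here the derived group is arbitrary.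

## Proof

Let `𝔥` be the set of the elements of the Lie algebra `𝔤` of the Hodge group of `B` whose restriction
to `H_1(A)` is in the image of the Lie algebra of `G`. It is algebraic, and it contains the
logarithmic derivatives of the periods of `B`. So it acts semisimply on `H_1(B)`, with the same
commutant as `𝔤` (Wüstholz). Therefore `𝔥 = 𝔷 + [𝔥, 𝔥]` with the centre `𝔷` of `𝔥`, and `𝔷` is
contained in the centre of `𝔤`, since everything which commutes with `𝔥` commutes with `𝔤`. The Lie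
algebra of the Hodge group of `C` is commutative, so that the image of `𝔥` in it is the image of
`𝔷`, and all its elements have lifts which are in the centre of `𝔤`. The elements of the centre are
diagonalizable (`imag_roots`), so that the image of `𝔥` is algebraic. It contains the logarithmic
derivatives of the periods of `C`, and so it is everything, and `𝔥` contains the centre of `𝔤`
(`centre_le`). Let `Z` be in the centre of `𝔤`. Then there is an element `(Z, 0, z, t)` of the Lie
algebra of `G`, and in a suitable rational frame of the homology `z` is in the part of weight `-1` of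
the Lie algebra of `G`, so that the block diagonal matrix `(Z, 0, 0, 0)` is in the Lie algebra of `G`
(`aa_mem`). So the block diagonal matrices `(exp(Z), 1, 0, 0)` are in `G`, for all `Z` in the centre
of `𝔤 ⊗ ℂ`. The rest of the proof is as in the file `OneMotivesUnipotent`: the set of all products
of a block diagonal matrix, given by a similitude of the polarization which commutes with the
endomorphisms of `A` in the relations between the points, and of an element of the unipotent part of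
`G` is an algebraic group over `ℚ` (`GU_alg`), which contains the Deligne torus, and so it contains
the Mumford-Tate group.
-/

open Module Matrix Pool.Agent.Y102 Pool.Agent.R917.OM Pool.Agent.R917.BX Pool.Agent.W516.DR
  Pool.Agent.H204R3.GP Pool.Agent.R917.DT Pool.Agent.T6.H14.CM Pool.Agent.T6.H14.UG
  Pool.Agent.T6.H14.RD

noncomputable section

namespace Pool.Agent.Results.MP_5d33ca_ag.OneMotivesRadical

section Hyp

variable {g : ℕ} (A : AbVar g)

/-! ### The hypothesis on the Lie algebra of the Hodge group of the abelian variety -/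

/-- The rational matrices which act on `H_1(A, ℚ) = ℚ^(2g)` (the basis is the basis of the
lattice). -/
abbrev Mat (g : ℕ) : Type := Matrix (Fin (2 * g)) (Fin (2 * g)) ℚ

/-- The multilinear forms in `2m` variables in the rational homology. -/
abbrev Form (m : ℕ) : Type := MultilinearMap ℚ (fun _ : Fin m × Fin 2 => A.H1) ℚ

/-- `φ` is a de Rham-Betti class in `H^1(A) ^ {⊗ 2m} (m)`. -/
def IsDRB {m : ℕ} (φ : Form A m) : Prop :=
  IsDeRhamBettiForm QBar A.dR (2 * Real.pi * Complex.I) m φ

/-- `φ` is a Hodge class in `H^1(A) ^ {⊗ 2m} (m)`. -/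
def IsHodge {m : ℕ} (φ : Form A m) : Prop := IsHodgeTensor (A.per : A.H1 →+ (Fin g → ℂ)) φ

/-- The matrix `X` annihilates the form `φ` (as a derivation). -/
def Annihilates {m : ℕ} (X : Mat g) (φ : Form A m) : Prop :=
  ∀ v : Fin m × Fin 2 → Fin (2 * g) → ℚ, ∑ k, φ (Function.update v k (X *ᵥ v k)) = 0

/-- `X` is in the Lie algebra `𝔤` of the Hodge group: it annihilates all classes that are Hodge
classes and de Rham-Betti classes (by the theorem of Deligne all Hodge classes are de Rham-Betti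
classes). -/
def InLie (X : Mat g) : Prop :=
  ∀ (m : ℕ) (φ : Form A m), IsHodge A φ → IsDRB A φ → Annihilates A X φ

/-- The subspace `𝔥` is a Lie algebra contained in `𝔤`. -/
def IsSubalgebra (𝔥 : Submodule ℚ (Mat g)) : Prop :=
  (∀ X ∈ 𝔥, InLie A X) ∧ ∀ X ∈ 𝔥, ∀ Y ∈ 𝔥, X * Y - Y * X ∈ 𝔥

/-- The subspace `U` of the homology is stable under the elements of `𝔥`. -/
def Stable (𝔥 : Submodule ℚ (Mat g)) (U : Submodule ℚ (Fin (2 * g) → ℚ)) : Prop :=
  ∀ X ∈ 𝔥, ∀ u ∈ U, X *ᵥ u ∈ U

/-- The action of `𝔥` on the homology is semisimple. -/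
def IsSemisimple (𝔥 : Submodule ℚ (Mat g)) : Prop :=
  ∀ U, Stable 𝔥 U → ∃ U', Stable 𝔥 U' ∧ IsCompl U U'

/-- Every matrix which commutes with `𝔥` commutes with `𝔤`. -/
def SameCommutant (𝔥 : Submodule ℚ (Mat g)) : Prop :=
  ∀ P : Mat g, (∀ X ∈ 𝔥, X * P = P * X) → ∀ X : Mat g, InLie A X → X * P = P * X

/-- The complex matrix of a rational matrix. -/
def cplx (X : Mat g) : Matrix (Fin (2 * g)) (Fin (2 * g)) ℂ := X.map (algebraMap ℚ ℂ)

/-- `𝔥` is closed under the replicas of its diagonalizable elements. Let `X ∈ 𝔥` be diagonalizable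
over `ℂ`, with eigenvalues in the finite set `S`, let `σ : ℂ → ℂ` be additive, and let `Q` be a
polynomial with `Q(a) = σ(a)` for all `a ∈ S`. Then the matrix `Q(X)` is in the complex span of
`𝔥`. -/
def IsReplicaClosed (𝔥 : Submodule ℚ (Mat g)) : Prop :=
  ∀ X ∈ 𝔥, ∀ (S : Finset ℂ) (σ : ℂ →+ ℂ) (Q : Polynomial ℂ),
    Polynomial.aeval (cplx X) (∏ a ∈ S, (Polynomial.X - Polynomial.C a)) = 0 →
    (∀ a ∈ S, Q.eval a = σ a) →
      Polynomial.aeval (cplx X) Q ∈ Submodule.span ℂ {Y | ∃ Z ∈ 𝔥, Y = cplx Z}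

/-- The Hodge group of `A` is determined by the endomorphisms of `A`: its Lie algebra `𝔤` has no
proper algebraic subalgebra `𝔥` which acts semisimply on the homology and has the same
commutant. -/
def Determined : Prop := ∀ 𝔥 : Submodule ℚ (Mat g), IsSubalgebra A 𝔥 → IsReplicaClosed 𝔥 →
  IsSemisimple 𝔥 → SameCommutant A 𝔥 → ∀ X, InLie A X → X ∈ 𝔥

/-- The Hodge group of `A` is commutative (`A` has complex multiplication) and determined by the
endomorphisms of `A`. -/
def DeterminedCM : Prop :=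
  (∀ X Y : Mat g, InLie A X → InLie A Y → X * Y = Y * X) ∧ Determined A

/-- The matrix `Z` is in the centre of the Lie algebra `𝔤` of the Hodge group. -/
def InCentre (Z : Mat g) : Prop := InLie A Z ∧ ∀ Y : Mat g, InLie A Y → Z * Y = Y * Z

/-! ### Factors -/

/-- `f` is a homomorphism (up to isogeny) from `A` to `B`: it is given by a linear map of the tangent
spaces, and the pull backs of the algebraic differential forms are algebraic. -/
def IsHomomorphism {g' : ℕ} (B : AbVar g') (f : A.H1 →ₗ[ℚ] B.H1) : Prop :=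
  (∃ F : (Fin g → ℂ) →ₗ[ℂ] (Fin g' → ℂ), ∀ w, F (A.per w) = B.per (f w)) ∧
    ∃ e : Fin g' ⊕ Fin g' → Fin g ⊕ Fin g → QBar,
      ∀ i w, B.dR i (f w) = ∑ j, algebraMap QBar ℂ (e i j) * A.dR j w

/-- `A` is the direct factor of `B` given by the homomorphisms `f` and `p`. -/
structure IsFactorBy {g' : ℕ} (B : AbVar g') (f : A.H1 →ₗ[ℚ] B.H1) (p : B.H1 →ₗ[ℚ] A.H1) :
    Prop where
  hf : IsHomomorphism A B f
  hp : IsHomomorphism B A p
  pf : ∀ w, p (f w) = w

/-- The centre of the Lie algebra of the Hodge group of `A` acts faithfully on `H_1(C)`, for the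
factor `C` of `A` given by the projection `p`. -/
def CentreActsFaithfully {g' : ℕ} {C : AbVar g'} (p : A.H1 →ₗ[ℚ] C.H1) : Prop :=
  ∀ Z : Mat g, InCentre A Z → (∀ w, p (Z *ᵥ w) = 0) → Z = 0

/-- The centre of `𝔤 ⊗ ℂ`, for the Lie algebra `𝔤` of the Hodge group of `B`, acting on the
homology `H_1(A, ℂ)` of the factor `A` of `B` given by `f` and `p`. The matrices act on rows: the
rows of `Y` are the images of the vectors of the basis. -/
def centreOn {g' : ℕ} (B : AbVar g') (f : A.H1 →ₗ[ℚ] B.H1) (p : B.H1 →ₗ[ℚ] A.H1) :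
    Submodule ℂ (Matrix (Fin (2 * g)) (Fin (2 * g)) ℂ) :=
  Submodule.span ℂ {Y | ∃ Z : Mat g', InCentre B Z ∧
    ∀ j j', Y j j' = ((p (Z *ᵥ f (Pi.single j 1)) j' : ℚ) : ℂ)}

end Hyp

section Motives

variable {g n s : ℕ} (A : AbVarG g)

/-! ### 1-motives and their periods -/

/-- The basis of the Betti realization of the 1-motive: the basis `λ_j` of the lattice of `A`, the
basis `γ_l` of `H_1(G_m^s)`, the basis `e_i` of `ℤ^n`. -/
abbrev Betti (g n s : ℕ) : Type := Fin (2 * g) ⊕ (Fin s ⊕ Fin n)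

/-- The basis of the de Rham cohomology of the 1-motive: the invariant differentials `d z_k` and the
differentials of the second kind `d h_k` on `A`, the invariant differentials of the third kind `ω_l`
on the semiabelian variety, and a basis for `ℤ^n`. -/
abbrev DeRham (g n s : ℕ) : Type := (Fin g ⊕ Fin g) ⊕ (Fin s ⊕ Fin n)

/-- The integral of the second kind `h_k = ∂ k (log θ 0)`, with the value zero at the origin. -/
def second (k : Fin g) (z : Fin g → ℂ) : ℂ := pd k (A.θ 0) z / A.θ 0 z - pd k (A.θ 0) 0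

/-- The comparison isomorphism of the 1-motive. The rows are the Betti side. -/
def periodMatrix (u : Fin n → Fin g → ℂ) (v : Fin s → Fin g → ℂ) (ℓ : Fin n → Fin s → ℂ) :
    Matrix (Betti g n s) (DeRham g n s) ℂ := Matrix.of fun r c =>
  match r, c with
  | Sum.inl j, Sum.inl (Sum.inl k) => A.lam j k
  | Sum.inl j, Sum.inl (Sum.inr k) => A.η j k
  | Sum.inl j, Sum.inr (Sum.inl l) => ∑ k, (second A k (v l) * A.lam j k - v l k * A.η j k)
  | Sum.inr (Sum.inl l), Sum.inr (Sum.inl l') => if l = l' then 2 * Real.pi * Complex.I else 0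
  | Sum.inr (Sum.inr i), Sum.inl (Sum.inl k) => u i k
  | Sum.inr (Sum.inr i), Sum.inl (Sum.inr k) => second A k (u i)
  | Sum.inr (Sum.inr i), Sum.inr (Sum.inl l) => ℓ i l
  | Sum.inr (Sum.inr i), Sum.inr (Sum.inr i') => if i = i' then 1 else 0
  | _, _ => 0

/-- The data `u_i, v_l, ℓ_il` of a 1-motive over the algebraic numbers: the points of `A` and of the
dual abelian variety are algebraic, and so are the points of the extension, in terms of the
trivialization by the function `θ(z - v) / (θ(z) θ(-v)) · exp(∑ k, h_k(v) z_k)`. The vectors are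
chosen outside of the divisor of the theta function. -/
structure IsOneMotive (u : Fin n → Fin g → ℂ) (v : Fin s → Fin g → ℂ) (ℓ : Fin n → Fin s → ℂ) :
    Prop where
  point : ∀ i, IsPoint A.toAbVar (u i)
  dual : ∀ l, IsPoint A.toAbVar (v l)
  neg : ∀ l, IsPoint A.toAbVar (-v l)
  sub : ∀ i l, IsPoint A.toAbVar (u i - v l)
  log : ∀ i l, ∃ q : ℂ, IsAlgebraic ℚ q ∧ Complex.exp (ℓ i l) =
    q * (A.θ 0 (u i - v l) / (A.θ 0 (u i) * A.θ 0 (-v l))) *
      Complex.exp (∑ k, second A k (v l) * u i k)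

/-! ### Algebraic groups which contain the periods -/

/-- A subgroup of `GL_R(ℂ)` defined by polynomials with rational coefficients. -/
def IsAlgebraicSubgroup {R : Type} [Fintype R] [DecidableEq R] (G : Subgroup (GL R ℂ)) : Prop :=
  ∃ I : Set (MvPolynomial (R × R) ℚ), ∀ x : GL R ℂ, x ∈ G ↔
    ∀ p ∈ I, MvPolynomial.aeval (fun b : R × R => (x : Matrix R R ℂ) b.1 b.2) p = 0

/-- The comparison isomorphism `c` is an element of a torsor `G · T⁻¹` of `G`, defined over the
algebraic numbers: `T` is a matrix with algebraic entries (an isomorphism between the Betti side and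
the de Rham side) such that `c T ∈ G`. -/
def ContainsPeriods (u : Fin n → Fin g → ℂ) (v : Fin s → Fin g → ℂ) (ℓ : Fin n → Fin s → ℂ)
    (G : Subgroup (GL (Betti g n s) ℂ)) : Prop :=
  ∃ T : Matrix (DeRham g n s) (Betti g n s) ℂ, (∀ i j, IsAlgebraic ℚ (T i j)) ∧
    ∃ x ∈ G, (x : Matrix (Betti g n s) (Betti g n s) ℂ) = periodMatrix A u v ℓ * T

/-! ### The mixed Hodge structure and the Mumford-Tate group -/

/-- The Hodge filtration: the vectors of `H_1(M, ℂ)` (in terms of their coordinates) on which the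
invariant differentials of the semiabelian variety vanish. -/
def F0 (u : Fin n → Fin g → ℂ) (v : Fin s → Fin g → ℂ) (ℓ : Fin n → Fin s → ℂ)
    (x : Betti g n s → ℂ) : Prop :=
  (∀ k, ∑ r, x r * periodMatrix A u v ℓ r (Sum.inl (Sum.inl k)) = 0) ∧
    ∀ l, ∑ r, x r * periodMatrix A u v ℓ r (Sum.inr (Sum.inl l)) = 0

/-- The part of weight `≤ -1` of the homology, the homology of the semiabelian variety. -/
def W1 (x : Betti g n s → ℂ) : Prop := ∀ i, x (Sum.inr (Sum.inr i)) = 0

/-- The part of weight `≤ -2` of the homology, the homology of the torus. -/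
def W2 (x : Betti g n s → ℂ) : Prop :=
  (∀ j, x (Sum.inl j) = 0) ∧ ∀ i, x (Sum.inr (Sum.inr i)) = 0

/-- The complex conjugate vector. -/
def bar (x : Betti g n s → ℂ) : Betti g n s → ℂ := fun r => (starRingEnd ℂ) (x r)

/-- The matrix `M` gives the action of the element `z` of the Deligne torus on the homology of the
1-motive (vectors are rows): it acts by `1` on `I^{0,0} = F^0 ∩ (F̄^0 + W_{-2})`, by `z̄` on
`I^{0,-1} = F^0 ∩ W_{-1}`, by `z` on its complex conjugate `I^{-1,0}` and by `z z̄` on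
`I^{-1,-1} = W_{-2}`. -/
structure IsDeligne (u : Fin n → Fin g → ℂ) (v : Fin s → Fin g → ℂ) (ℓ : Fin n → Fin s → ℂ)
    (z : ℂ) (M : Matrix (Betti g n s) (Betti g n s) ℂ) : Prop where
  zero_zero : ∀ x y w, F0 A u v ℓ x → F0 A u v ℓ y → W2 w → x = bar y + w → x ᵥ* M = x
  zero_neg : ∀ x, F0 A u v ℓ x → W1 x → x ᵥ* M = (starRingEnd ℂ) z • x
  neg_zero : ∀ x, F0 A u v ℓ x → W1 x → bar x ᵥ* M = z • bar x
  neg_neg : ∀ x, W2 x → x ᵥ* M = (z * (starRingEnd ℂ) z) • x

/-- The Mumford-Tate group of the 1-motive: the smallest algebraic group over `ℚ` which contains the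
image of the Deligne torus. -/
def mumfordTate (u : Fin n → Fin g → ℂ) (v : Fin s → Fin g → ℂ) (ℓ : Fin n → Fin s → ℂ) :
    Subgroup (GL (Betti g n s) ℂ) :=
  sInf {G | IsAlgebraicSubgroup G ∧ ∀ z : ℂ, z ≠ 0 → ∃ x ∈ G,
    IsDeligne A u v ℓ z (x : Matrix (Betti g n s) (Betti g n s) ℂ)}

/-- The matrices `x` and `y` (which act on rows) have the same action on the graded pieces of the
weight filtration, up to `(c ^ 2, c R, 1)`: `x = c ^ 2 y` on `W_{-2}`, `x = c R y` on
`W_{-1} / W_{-2} = H_1(A, ℂ)` (first `c R`, then `y`), and `x = y` on `W_0 / W_{-1}`. -/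
structure SameGraded (c : ℂ) (R : Matrix (Fin (2 * g)) (Fin (2 * g)) ℂ)
    (x y : Matrix (Betti g n s) (Betti g n s) ℂ) : Prop where
  two : ∀ a, W2 a → a ᵥ* x = c ^ 2 • (a ᵥ* y)
  one : ∀ a b, W1 a → W1 b → (∀ j, b (Sum.inl j) = c * ∑ k, a (Sum.inl k) * R k j) →
    W2 (a ᵥ* x - b ᵥ* y)
  zero : ∀ a, W1 (a ᵥ* x - a ᵥ* y)

/-! ### Proofs -/

/-- the data of the 1-motive -/
def dat (u : Fin n → Fin g → ℂ) (v : Fin s → Fin g → ℂ) (ℓ : Fin n → Fin s → ℂ) : Dt g n s where
  P := Sum.elim (fun i => Sum.elim (u i) (fun k => second A k (u i)))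
    (fun l => Sum.elim (v l) (fun k => second A k (v l)))
  ℓ := ℓ

theorem per_eb (j : Fin (2 * g)) (k : Fin g) : A.dR (Sum.inl k) (eb A.toAbVar j) = A.lam j k := by
  change A.per (Pi.single j 1) k = _
  unfold AbVar.per
  rw [Fintype.linearCombination_apply_single, one_smul]

theorem eta_eb (j : Fin (2 * g)) (k : Fin g) : A.dR (Sum.inr k) (eb A.toAbVar j) = A.η j k := by
  change A.eta (Pi.single j 1) k = _
  unfold AbVar.eta
  rw [Fintype.linearCombination_apply_single, one_smul]

theorem periodMatrix_eq (u : Fin n → Fin g → ℂ) (v : Fin s → Fin g → ℂ)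
    (ℓ : Fin n → Fin s → ℂ) : periodMatrix A u v ℓ = pmat A.toAbVar (dat A u v ℓ) := by
  ext r c
  rcases r with j | l | i <;> rcases c with (k | k) | l' | i' <;>
    simp [periodMatrix, pmat, dat, per_eb, eta_eb, thd, tau]

variable {A}

/-- A matrix with the eigenvectors of the Hodge structure. -/
theorem isDeligne_of {u : Fin n → Fin g → ℂ} {v : Fin s → Fin g → ℂ} {ℓ : Fin n → Fin s → ℂ}
    {z : ℂ} {M : Matrix (Betti g n s) (Betti g n s) ℂ}
    (hM : ∀ (v' : RI g n s → ℂ) (a b : ℂ), v' ᵥ* XW A.toAbVar (dat A u v ℓ) = a • v' →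
      v' ᵥ* XJ A.toAbVar (dat A u v ℓ) = b • v' → (a = 0 → v' ᵥ* M = v') ∧
        (a = 1 → v' ᵥ* M = ((z.re : ℂ) + z.im * b) • v') ∧
        (a = 2 → v' ᵥ* M = (z * (starRingEnd ℂ) z) • v')) : IsDeligne A u v ℓ z M := by
  have hF : ∀ a, F0 A u v ℓ a → (∀ k, i1 A.toAbVar (dat A u v ℓ) a k = 0) ∧
      ∀ l, i3 A.toAbVar (dat A u v ℓ) a l = 0 := by
    rintro a ⟨ha1, ha2⟩
    rw [periodMatrix_eq] at ha1 ha2
    exact ⟨ha1, ha2⟩
  have hz : (z.re : ℂ) + z.im * Complex.I = z := Complex.re_add_im z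
  refine ⟨fun a b w ha hb hw hab => ?_, fun a ha ha1 => ?_, fun a ha ha1 => ?_, fun a ha => ?_⟩
  · obtain ⟨e1, e2⟩ := eig_0 (A := A.toAbVar) (d := dat A u v ℓ) (v := a) (f := b)
      (fun j => by rw [hab, Pi.add_apply, hw.1, add_zero]; rfl)
      (fun i => by rw [hab, Pi.add_apply, hw.2, add_zero]; rfl) (hF a ha).1 (hF a ha).2 (hF b hb).1
    exact (hM a 0 0 e1 e2).1 rfl
  · obtain ⟨e1, e2⟩ := eig_m (A := A.toAbVar) (d := dat A u v ℓ) (v := a) ha1 (hF a ha).1
      (hF a ha).2
    rw [(hM a 1 (-Complex.I) (by rw [one_smul]; exact e1) e2).2.1 rfl]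
    congr 1
    apply Complex.ext <;> simp
  · obtain ⟨e1, e2⟩ := eig_p (A := A.toAbVar) (d := dat A u v ℓ) (v := bar a) (w := a)
      (fun r => rfl) ha1 (hF a ha).1 (hF a ha).2
    rw [(hM (bar a) 1 Complex.I (by rw [one_smul]; exact e1) e2).2.1 rfl, hz]
  · obtain ⟨e1, e2⟩ := eig_t (A := A.toAbVar) (d := dat A u v ℓ) (v := a) ha.1 ha.2
    exact (hM a 2 0 e1 e2).2.2 rfl

end Motives

section Prf

variable {g : ℕ} (A : AbVar g)

/-- The matrix of an endomorphism of the homology. -/
def mat (X : Module.End ℚ A.H1) : Mat g := LinearMap.toMatrix' X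

theorem mat_mulVec (X : Module.End ℚ A.H1) (v : Fin (2 * g) → ℚ) : mat A X *ᵥ v = X v :=
  LinearMap.toMatrix'_mulVec X v

theorem mat_mul (X Y : Module.End ℚ A.H1) : mat A (X * Y) = mat A X * mat A Y :=
  LinearMap.toMatrix'_mul X Y

theorem mat_br (X Y : Module.End ℚ A.H1) :
    mat A (X * Y - Y * X) = mat A X * mat A Y - mat A Y * mat A X := by
  rw [← mat_mul, ← mat_mul]
  exact map_sub (LinearMap.toMatrix' : _ ≃ₗ[ℚ] Mat g) _ _

theorem mat_inj {X Y : Module.End ℚ A.H1} (h : mat A X = mat A Y) : X = Y :=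
  (LinearMap.toMatrix' : _ ≃ₗ[ℚ] Mat g).injective h

theorem mat_surj (X : Mat g) : ∃ Y : Module.End ℚ A.H1, mat A Y = X :=
  (LinearMap.toMatrix' : _ ≃ₗ[ℚ] Mat g).surjective X

theorem inLie_mat {X : Module.End ℚ A.H1} : InLie A (mat A X) ↔ X ∈ A.NA := by
  constructor
  · intro h m φ h1 h2 v
    have h3 := h m φ h1 h2 v
    simp only [mat_mulVec] at h3
    exact h3
  · intro h m φ h1 h2 v
    simp only [mat_mulVec]
    exact h m φ h1 h2 v

theorem cplx_mat (X : Module.End ℚ A.H1) : cplx (mat A X) = toC X := (toC_eq X).symm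

theorem span_mat (𝔥 : Submodule ℚ (Module.End ℚ A.H1)) (𝔥' : Submodule ℚ (Mat g))
    (h : ∀ X : Module.End ℚ A.H1, mat A X ∈ 𝔥' ↔ X ∈ 𝔥) :
    Submodule.span ℂ {Y | ∃ Z ∈ 𝔥', Y = cplx Z} = Submodule.span ℂ {Y | ∃ Z ∈ 𝔥, Y = toC Z} := by
  congr 1
  ext Y
  constructor
  · rintro ⟨Z, hZ, rfl⟩
    obtain ⟨Z, rfl⟩ := mat_surj A Z
    exact ⟨Z, (h Z).1 hZ, cplx_mat A Z⟩
  · rintro ⟨Z, hZ, rfl⟩
    exact ⟨mat A Z, (h Z).2 hZ, (cplx_mat A Z).symm⟩

theorem det_of_determined (hA : Determined A) : Det A := by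
  intro 𝔥 h hRC
  let 𝔥' : Submodule ℚ (Mat g) := 𝔥.map (LinearMap.toMatrix' : _ ≃ₗ[ℚ] Mat g).toLinearMap
  have hmem : ∀ X : Module.End ℚ A.H1, mat A X ∈ 𝔥' ↔ X ∈ 𝔥 := by
    intro X
    constructor
    · rintro ⟨Y, hY, hYX⟩
      rw [← mat_inj A hYX]
      exact hY
    · intro hX
      exact ⟨X, hX, rfl⟩
  intro X hX
  rw [← hmem]
  refine hA 𝔥' ⟨?_, ?_⟩ ?_ ?_ ?_ _ ((inLie_mat A).2 hX)
  · rintro _ ⟨Y, hY, rfl⟩
    exact (inLie_mat A).2 (h.le hY)
  · rintro _ ⟨Y, hY, rfl⟩ _ ⟨Z, hZ, rfl⟩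
    have h1 := (hmem (Y * Z - Z * Y)).2 (h.br Y hY Z hZ)
    rw [mat_br] at h1
    exact h1
  · rintro _ ⟨Y, hY, rfl⟩ S σ Q hS hQ
    rw [span_mat A 𝔥 𝔥' hmem]
    change Polynomial.aeval (cplx (mat A Y)) _ = 0 at hS
    change Polynomial.aeval (cplx (mat A Y)) Q ∈ _
    rw [cplx_mat] at hS ⊢
    exact rc_iff.1 hRC Y hY S σ Q hS hQ
  · intro U hU
    obtain ⟨U', h1, h2⟩ := h.semi U (fun Y hY u hu => by
      have h3 := hU _ ((hmem Y).2 hY) u hu
      rwa [mat_mulVec] at h3)
    refine ⟨U', ?_, h2⟩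
    rintro _ ⟨Y, hY, rfl⟩ u hu
    have h3 := h1 Y hY u hu
    rwa [← mat_mulVec] at h3
  · intro P hP Y hY
    obtain ⟨P, rfl⟩ := mat_surj A P
    obtain ⟨Y, rfl⟩ := mat_surj A Y
    rw [← mat_mul, ← mat_mul]
    congr 1
    refine h.comm P (fun Z hZ => mat_inj A ?_) Y ((inLie_mat A).1 hY)
    rw [mat_mul, mat_mul]
    exact hP _ ((hmem Z).2 hZ)

theorem determined_of_det (hA : Det A) : Determined A := by
  intro 𝔥 hsub hrc hsemi hcomm X hX
  obtain ⟨X, rfl⟩ := mat_surj A X
  let 𝔥' : Submodule ℚ (Module.End ℚ A.H1) :=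
    𝔥.comap (LinearMap.toMatrix' : _ ≃ₗ[ℚ] Mat g).toLinearMap
  have hmem : ∀ X : Module.End ℚ A.H1, mat A X ∈ 𝔥 ↔ X ∈ 𝔥' := fun _ => Iff.rfl
  refine hA 𝔥' ⟨fun Y hY => (inLie_mat A).1 (hsub.1 _ hY), fun Y hY Z hZ => ?_, fun U hU => ?_,
    fun P hP Y hY => ?_⟩ (rc_iff.2 fun Y hY S σ Q hS hQ => ?_) ((inLie_mat A).1 hX)
  · change mat A (Y * Z - Z * Y) ∈ 𝔥
    rw [mat_br]
    exact hsub.2 _ hY _ hZ
  · obtain ⟨U', h1, h2⟩ := hsemi U (fun Y hY u hu => by
      obtain ⟨Y, rfl⟩ := mat_surj A Y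
      rw [mat_mulVec]
      exact hU Y hY u hu)
    refine ⟨U', fun Y hY u hu => ?_, h2⟩
    have h3 := h1 _ hY u hu
    rwa [show (LinearMap.toMatrix' : _ ≃ₗ[ℚ] Mat g).toLinearMap Y = mat A Y from rfl,
      mat_mulVec] at h3
  · refine mat_inj A ?_
    rw [mat_mul, mat_mul]
    refine hcomm _ (fun Z hZ => ?_) _ ((inLie_mat A).2 hY)
    obtain ⟨Z, rfl⟩ := mat_surj A Z
    rw [← mat_mul, ← mat_mul]
    exact congrArg (mat A) (hP Z hZ)
  · rw [← span_mat A 𝔥' 𝔥 hmem, ← cplx_mat]
    rw [← cplx_mat] at hS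
    exact hrc _ hY S σ Q hS hQ

end Prf

/-- the centre is in the image of the Lie algebra -/
theorem centreOn_le {g₂ g' : ℕ} (C : AbVar g₂) (hC : DeterminedCM C) (B : AbVar g')
    {f₂ : C.H1 →ₗ[ℚ] B.H1} {p₂ : B.H1 →ₗ[ℚ] C.H1} (i₂ : IsFactorBy C B f₂ p₂)
    (hcen : CentreActsFaithfully B p₂) {g n s : ℕ} (A : AbVarG g) {f : A.H1 →ₗ[ℚ] B.H1}
    {p : B.H1 →ₗ[ℚ] A.H1} (iA : IsFactorBy A.toAbVar B f p) {d : Dt g n s}
    {H : Set (Matrix (RI g n s) (RI g n s) ℂ)} (hpt : PtM A.toAbVar d H)
    {Z : Matrix (Fin (2 * g)) (Fin (2 * g)) ℂ} (hZ : Z ∈ centreOn A.toAbVar B f p) :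
    Z ∈ Submodule.span ℂ {Y | ∃ X ∈ aa (gg A.toAbVar n s H), Y = em X} := by
  have F₂ : Fac C B f₂ p₂ := ⟨⟨i₂.hf.1, i₂.hf.2⟩, ⟨i₂.hp.1, i₂.hp.2⟩, i₂.pf⟩
  have F : Fac A.toAbVar B f p := ⟨⟨iA.hf.1, iA.hf.2⟩, ⟨iA.hp.1, iA.hp.2⟩, iA.pf⟩
  have key₂ : ∀ Z ∈ B.NA, rs f₂ p₂ Z = 0 → ∀ w, p₂ (mat B Z *ᵥ w) = 0 := by
    intro Z hZ hZ0 w
    have hw : mat B Z *ᵥ w = Z w := mat_mulVec B Z w
    rw [hw]
    have h5 := congrArg (fun T : Module.End ℚ B.H1 => p₂ (T w)) (B.NA_comm hZ F₂.mem_EA)
    change p₂ (Z (f₂ (p₂ w))) = p₂ (f₂ (p₂ (Z w))) at h5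
    rw [i₂.pf] at h5
    rw [← h5]
    exact LinearMap.congr_fun hZ0 (p₂ w)
  refine Submodule.span_mono ?_ hZ
  rintro Y ⟨Z, ⟨hZ1, hZ2⟩, hY⟩
  obtain ⟨Z, rfl⟩ := mat_surj B Z
  refine ⟨rs f p Z, centre_aa F F₂ (det_of_determined C hC.2) (fun X hX Y hY => ?_)
    (fun Z hZ hZc hZ0 => ?_) hpt ((inLie_mat B).1 hZ1) (fun Y hY => ?_), ?_⟩
  · refine mat_inj C ?_
    rw [mat_mul, mat_mul]
    exact hC.1 _ _ ((inLie_mat C).2 hX) ((inLie_mat C).2 hY)
  · refine mat_inj B ((hcen (mat B Z) ⟨(inLie_mat B).2 hZ, fun Y hY => ?_⟩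
      (key₂ Z hZ hZ0)).trans (map_zero (LinearMap.toMatrix' : _ ≃ₗ[ℚ] Mat g')).symm)
    obtain ⟨Y, rfl⟩ := mat_surj B Y
    rw [← mat_mul, ← mat_mul, hZc Y ((inLie_mat B).1 hY)]
  · refine mat_inj B ?_
    rw [mat_mul, mat_mul]
    exact hZ2 _ ((inLie_mat B).2 hY)
  · ext j j'
    rw [hY j j']
    have hw : mat B Z *ᵥ f (Pi.single j 1) = Z (f (Pi.single j 1)) := mat_mulVec B Z _
    rw [hw]
    rfl

/-- **Theorem.** Let `B` be an abelian variety with the factors `A` and `C` such that the Hodge group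
of `C` is commutative and determined by the endomorphisms of `C`, and the centre of the Lie algebra
of the Hodge group of `B` acts faithfully on `H_1(C)`. Let `G` be an algebraic group over `ℚ` with a
torsor over `ℚ̄` which contains the comparison isomorphism of a 1-motive over `A`. Let `x` and `y` be
elements of the Mumford-Tate group of the 1-motive with the same action on the graded pieces of the
weight filtration, up to a homothety and `exp(Z)`, for an element `Z` of the centre of the complex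
Lie algebra of the Hodge group of `B`. If `y` is in `G` then `x` is in `G`. -/
theorem result (g₂ g' : ℕ) (C : AbVar g₂) (hC : DeterminedCM C) (B : AbVar g')
    (f₂ : C.H1 →ₗ[ℚ] B.H1) (p₂ : B.H1 →ₗ[ℚ] C.H1) (i₂ : IsFactorBy C B f₂ p₂)
    (hcen : CentreActsFaithfully B p₂)
    (g n s : ℕ) (A : AbVarG g) (f : A.H1 →ₗ[ℚ] B.H1) (p : B.H1 →ₗ[ℚ] A.H1)
    (iA : IsFactorBy A.toAbVar B f p) (u : Fin n → Fin g → ℂ) (v : Fin s → Fin g → ℂ)
    (ℓ : Fin n → Fin s → ℂ) (hM : IsOneMotive A u v ℓ)
    (G : Subgroup (GL (Betti g n s) ℂ)) (hG : IsAlgebraicSubgroup G)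
    (hP : ContainsPeriods A u v ℓ G) (x y : GL (Betti g n s) ℂ)
    (hx : x ∈ mumfordTate A u v ℓ) (hy : y ∈ mumfordTate A u v ℓ) (c : ℂ) (hc : c ≠ 0)
    (Z : Matrix (Fin (2 * g)) (Fin (2 * g)) ℂ) (hZ : Z ∈ centreOn A.toAbVar B f p)
    (hxy : SameGraded c (NormedSpace.exp Z) (x : Matrix (Betti g n s) (Betti g n s) ℂ)
      (y : Matrix (Betti g n s) (Betti g n s) ℂ)) (hyG : y ∈ G) : x ∈ G := by
  obtain ⟨T, hT, x₀, hx₀, hxT⟩ := hP
  rw [periodMatrix_eq] at hxT
  have hpt := ptM_of hG hT hx₀ hxT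
  obtain ⟨K₁, hK₁, hrat⟩ := exists_rat_mult A (pt (dat A u v ℓ)) (by
    rintro (i | l)
    · exact Or.inl (hM.point i)
    · exact Or.inl (hM.dual l))
  obtain ⟨h, U, τ, hDel, hH⟩ := main' hpt ⟨hM.point, hM.neg, hM.sub, hM.log⟩ hrat
  have hZa := centreOn_le C hC B i₂ hcen A iA hpt hZ
  -- the algebraic group
  let G' : Subgroup (GL (Betti g n s) ℂ) :=
    { carrier := {z | (z : Matrix (RI g n s) (RI g n s) ℂ) ∈ GU h U τ}
      one_mem' := GU_one h U τ
      mul_mem' := fun {z z'} hz hz' => by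
        change ((z * z' : GL (Betti g n s) ℂ) : Matrix (RI g n s) (RI g n s) ℂ) ∈ GU h U τ
        rw [Units.val_mul]
        exact GU_mul h U τ hz hz'
      inv_mem' := fun {z} hz => GU_inv h U τ hz z.val_inv }
  have hG' : IsAlgebraicSubgroup G' := by
    obtain ⟨S, ⟨I, hI⟩, hS⟩ := GU_alg h U τ
    refine ⟨I, fun z => ?_⟩
    rw [← hI]
    exact hS _ _ z.val_inv
  have hle : mumfordTate A u v ℓ ≤ G' := by
    refine sInf_le ⟨hG', fun z hz => ?_⟩
    have h1 := hDel z hz
    have h2 := hDel z⁻¹ (inv_ne_zero hz)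
    have hinv : dM A.toAbVar (dat A u v ℓ) U.w τ z * dM A.toAbVar (dat A u v ℓ) U.w τ z⁻¹ = 1 := by
      have h4 : bZ A.toAbVar n s z * bZ A.toAbVar n s z⁻¹ = 1 := by
        unfold bZ
        rw [bm_mul, ← Pool.Agent.R917.hm_mul, mul_inv_cancel₀ hz, Pool.Agent.R917.hm_one, ← bm_one]
        congr 1
        · simp
        · rw [map_inv₀]
          have h5 : (starRingEnd ℂ) z ≠ 0 := by simpa using hz
          field_simp
        · simp
        · simp
        · simp
      have h5 : eI A.toAbVar (dat A u v ℓ) U.w τ * eT A.toAbVar (dat A u v ℓ) U.w τ = 1 :=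
        un_inv' _ _ _
      have h6 : eT A.toAbVar (dat A u v ℓ) U.w τ * eI A.toAbVar (dat A u v ℓ) U.w τ = 1 :=
        un_inv _ _ _
      have h7 := kF_kI A.toAbVar U.w τ
      have h8 := kI_kF A.toAbVar U.w τ
      unfold dM
      calc _ = kF A.toAbVar U.w τ * eT A.toAbVar (dat A u v ℓ) U.w τ * bZ A.toAbVar n s z *
          (eI A.toAbVar (dat A u v ℓ) U.w τ * (kI A.toAbVar U.w τ * kF A.toAbVar U.w τ) *
            eT A.toAbVar (dat A u v ℓ) U.w τ) * bZ A.toAbVar n s z⁻¹ *
            (eI A.toAbVar (dat A u v ℓ) U.w τ * kI A.toAbVar U.w τ) := by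
              simp only [Matrix.mul_assoc]
        _ = kF A.toAbVar U.w τ * eT A.toAbVar (dat A u v ℓ) U.w τ *
            (bZ A.toAbVar n s z * bZ A.toAbVar n s z⁻¹) *
            (eI A.toAbVar (dat A u v ℓ) U.w τ * kI A.toAbVar U.w τ) := by
              rw [h8, Matrix.mul_one, h5, Matrix.mul_one]
              simp only [Matrix.mul_assoc]
        _ = kF A.toAbVar U.w τ * (eT A.toAbVar (dat A u v ℓ) U.w τ *
            eI A.toAbVar (dat A u v ℓ) U.w τ) * kI A.toAbVar U.w τ := by
              rw [h4, Matrix.mul_one]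
              simp only [Matrix.mul_assoc]
        _ = 1 := by rw [h6, Matrix.mul_one, h7]
    refine ⟨⟨dM A.toAbVar (dat A u v ℓ) U.w τ z, dM A.toAbVar (dat A u v ℓ) U.w τ z⁻¹, hinv,
      mul_eq_one_comm.1 hinv⟩, h1, ?_⟩
    exact isDeligne_of fun v' a b ha hb => dM_eig _ _ _ _ _ ha hb
  have hx' := hle hx
  have hy' := hle hy
  have hr' : (x * y⁻¹) ∈ G' := mul_mem hx' (inv_mem hy')
  obtain ⟨X, yx, a, zx, tx, -, ex, -⟩ := GU_bm h U τ hx'
  obtain ⟨Y, yy, b, zy, ty, -, ey, Zi, Zr, T', hmem, -⟩ := GU_bm h U τ hy'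
  obtain ⟨R, yr, e, zr, tr, -, er, -⟩ := GU_bm h U τ hr'
  have hprod : bm R yr e zr tr 1 * bm Y yy b zy ty 1 = bm X yx a zx tx 1 := by
    rw [← er, ← ey, ← ex, ← Units.val_mul, inv_mul_cancel_right]
  rw [bm_mul] at hprod
  have hRX : R * Y = X := by
    have h1 := congrArg Dat.mX hprod
    rwa [Dat.mX_bm, Dat.mX_bm] at h1
  have hea : ∀ _ : Fin s, e * b = a := by
    intro l
    have h1 := congrFun (congrFun hprod (Sum.inr (Sum.inl l))) (Sum.inr (Sum.inl l))
    simpa [bm] using h1
  -- the graded pieces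
  obtain ⟨R₀, hR₀⟩ : ∃ R₀, R₀ = NormedSpace.exp Z := ⟨_, rfl⟩
  rw [← hR₀] at hxy
  have hXY : X = (c • R₀) * Y := by
    ext j j'
    have h1 := (hxy.one (Pi.single (Sum.inl j) 1) (Sum.elim (fun k => c * R₀ j k) 0) (fun i => by
      rw [Pi.single_eq_of_ne (by simp)]) (fun i => rfl) (fun k => by
        simp [Pi.single_apply])).1 j'
    rw [Pi.sub_apply, ex, ey, vecMul_bm_inl, vecMul_bm_inl] at h1
    simp [Pi.single_apply] at h1
    rw [Matrix.mul_apply]
    simp only [Matrix.smul_apply, smul_eq_mul]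
    linear_combination h1
  have hab : ∀ _ : Fin s, a = c ^ 2 * b := by
    intro l
    have h1 := congrFun (hxy.two (Pi.single (Sum.inr (Sum.inl l)) 1) ⟨fun j => by
      rw [Pi.single_eq_of_ne (by simp)], fun i => by rw [Pi.single_eq_of_ne (by simp)]⟩)
        (Sum.inr (Sum.inl l))
    rw [Pi.smul_apply, ex, ey, vecMul_bm_inr, vecMul_bm_inr] at h1
    simpa [Pi.single_apply] using h1
  have hR : R = c • NormedSpace.exp Z := by
    obtain ⟨Y', h1, -⟩ := hmem.ex
    calc R = R * (Y * Y') := by rw [h1, Matrix.mul_one]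
      _ = c • NormedSpace.exp Z := by
        rw [← Matrix.mul_assoc, hRX, hXY, Matrix.mul_assoc, h1, Matrix.mul_one, hR₀]
  have he : ∀ _ : Fin s, e = c ^ 2 := by
    intro l
    have h1 := hea l
    rw [hab l] at h1
    exact mul_right_cancel₀ hmem.a0 h1
  have er2 : ((x * y⁻¹ : GL (Betti g n s) ℂ) : Matrix (RI g n s) (RI g n s) ℂ) =
      bm (c • NormedSpace.exp Z) yr (c ^ 2) zr tr 1 := by
    rw [er, hR]
    exact bm_a he
  have h1 : ((x * y⁻¹ : GL (Betti g n s) ℂ) : Matrix (RI g n s) (RI g n s) ℂ) ∈ GU h U τ := hr'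
  rw [er2] at h1
  obtain ⟨r, hr, hr2⟩ := hH _ hZa _ _ _ _ hc h1
  have h2 : r = x * y⁻¹ := Units.ext (hr2.trans er2.symm)
  rw [h2] at hr
  have h3 := mul_mem hr hyG
  rwa [inv_mul_cancel_right] at h3

/-! ### Examples -/

section Examples

variable {g : ℕ} (A : AbVar g)

/-- The centre of the Lie algebra `𝔤` has no proper nonzero algebraic subalgebras. -/
def SimpleCentre : Prop := ∀ 𝔷 : Submodule ℚ (Mat g),
  (∀ X ∈ 𝔷, InLie A X ∧ ∀ Y : Mat g, InLie A Y → X * Y = Y * X) → IsReplicaClosed 𝔷 →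
    𝔷 = ⊥ ∨ ∀ X : Mat g, InLie A X → (∀ Y : Mat g, InLie A Y → X * Y = Y * X) → X ∈ 𝔷

theorem simpleCentre_CN (h : SimpleCentre A) (𝔷 : Submodule ℚ (Module.End ℚ A.H1))
    (hz : 𝔷 ≤ A.CN) (hRC : RC 𝔷) : 𝔷 = ⊥ ∨ A.CN ≤ 𝔷 := by
  let 𝔷' : Submodule ℚ (Mat g) := 𝔷.map (LinearMap.toMatrix' : _ ≃ₗ[ℚ] Mat g).toLinearMap
  have hmem : ∀ X : Module.End ℚ A.H1, mat A X ∈ 𝔷' ↔ X ∈ 𝔷 := by
    intro X
    constructor
    · rintro ⟨Y, hY, hYX⟩
      rw [← mat_inj A hYX]
      exact hY
    · intro hX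
      exact ⟨X, hX, rfl⟩
  have h1 : ∀ X ∈ 𝔷', InLie A X ∧ ∀ Y : Mat g, InLie A Y → X * Y = Y * X := by
    rintro _ ⟨X, hX, rfl⟩
    have h2 := hz hX
    refine ⟨(inLie_mat A).2 h2.1, fun Y hY => ?_⟩
    obtain ⟨Y, rfl⟩ := mat_surj A Y
    have h3 := congrArg (mat A) (h2.2 Y ((inLie_mat A).1 hY))
    rw [mat_mul, mat_mul] at h3
    exact h3.symm
  have h2 : IsReplicaClosed 𝔷' := by
    rintro _ ⟨Y, hY, rfl⟩ S σ Q hS hQ
    rw [span_mat A 𝔷 𝔷' hmem]
    change Polynomial.aeval (cplx (mat A Y)) _ = 0 at hS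
    change Polynomial.aeval (cplx (mat A Y)) Q ∈ _
    rw [cplx_mat] at hS ⊢
    exact rc_iff.1 hRC Y hY S σ Q hS hQ
  rcases h 𝔷' h1 h2 with h0 | h0
  · left
    rw [eq_bot_iff]
    intro X hX
    have h3 := (hmem X).2 hX
    rw [h0, Submodule.mem_bot] at h3
    rw [Submodule.mem_bot]
    exact mat_inj A (h3.trans (map_zero (LinearMap.toMatrix' : _ ≃ₗ[ℚ] Mat g)).symm)
  · right
    intro X hX
    rw [← hmem]
    refine h0 _ ((inLie_mat A).2 hX.1) fun Y hY => ?_
    obtain ⟨Y, rfl⟩ := mat_surj A Y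
    rw [← mat_mul, ← mat_mul, hX.2 Y ((inLie_mat A).1 hY)]

/-- The Lie algebra `𝔤` is commutative and has no proper nonzero algebraic subalgebras: the Hodge
group is a simple torus. -/
def TypeTorus : Prop :=
  (∀ X Y : Mat g, InLie A X → InLie A Y → X * Y = Y * X) ∧ SimpleCentre A

/-- The abelian varieties with complex multiplication whose Hodge group is a simple torus are
determined. -/
theorem determined_of_typeTorus (h : TypeTorus A) : DeterminedCM A := by
  refine ⟨h.1, ?_⟩
  refine determined_of_det A (det_torus (fun X hX Y hY => ?_) (simpleCentre_CN A h.2))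
  have h1 := h.1 (mat A X) (mat A Y) ((inLie_mat A).2 hX) ((inLie_mat A).2 hY)
  rw [← mat_mul, ← mat_mul] at h1
  exact mat_inj A h1

/-- A CM type of the Galois extension `K` of `ℚ`: a set of representatives for the Galois group modulo
the complex conjugation `c`. -/
def IsCMType {K : IntermediateField ℚ ℂ} (c : K ≃ₐ[ℚ] K) (Φ : Finset (K ≃ₐ[ℚ] K)) : Prop :=
  ∀ τ, c * τ ∈ Φ ↔ τ ∉ Φ

/-- `A` is of Serre type for the Galois extension `K` of `ℚ` (with commutative Galois group): up to
isogeny it is a product of abelian varieties `B_i` with complex multiplication by `K`, and all CM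
types of `K` occur. The homology `H_1(B_i, ℚ)` is `K`, and the Lie algebra of the Hodge group of `A`
is the space of the elements `κ` of `K` with `c κ = - κ` (`c` is the complex conjugation); `κ` acts on
`H_1(B_i, ℚ)` by the multiplication by `∑ τ(κ)`, `τ ∈ Φ_i`, where `Φ_i` is the reflex type of the CM
type of `B_i`. -/
def IsSerreType (K : IntermediateField ℚ ℂ) [FiniteDimensional ℚ K] : Prop :=
  ∃ (c : K ≃ₐ[ℚ] K) (I : Type) (_ : Fintype I) (Θ : (I → K) ≃ₗ[ℚ] (Fin (2 * g) → ℚ))
    (Φ : I → Finset (K ≃ₐ[ℚ] K)),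
    (∀ x : K, ((c x : K) : ℂ) = (starRingEnd ℂ) (x : ℂ)) ∧
    (∀ i, IsCMType c (Φ i)) ∧ (∀ Ψ, IsCMType c Ψ → ∃ i, Φ i = Ψ) ∧
    ∀ X : Mat g, InLie A X ↔
      ∃ κ : K, c κ = -κ ∧ ∀ x i, Θ.symm (X *ᵥ Θ x) i = (∑ τ ∈ Φ i, τ κ) * x i

/-- the function of a CM type -/
theorem T_sign {K : IntermediateField ℚ ℂ} [FiniteDimensional ℚ K] {c : K ≃ₐ[ℚ] K}
    {Φ : Finset (K ≃ₐ[ℚ] K)} (hΦ : IsCMType c Φ) (hab : ∀ σ τ : K ≃ₐ[ℚ] K, σ * τ = τ * σ)
    {κ : K} (hκ : c κ = -κ) :
    T (fun τ => open Classical in if τ ∈ Φ then (1 : ℚ) else -1) κ = 2 * ∑ τ ∈ Φ, τ κ := by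
  classical
  unfold T
  rw [← Finset.sum_add_sum_compl Φ, two_mul]
  congr 1
  · refine Finset.sum_congr rfl fun τ hτ => ?_
    beta_reduce
    rw [if_pos hτ, one_smul]
  · refine Finset.sum_bij' (fun τ _ => c * τ) (fun τ _ => c⁻¹ * τ) (fun τ hτ => ?_)
      (fun τ hτ => ?_) (fun τ _ => inv_mul_cancel_left c τ) (fun τ _ => mul_inv_cancel_left c τ)
      (fun τ hτ => ?_)
    · exact (hΦ τ).2 (Finset.mem_compl.1 hτ)
    · rw [Finset.mem_compl]
      intro h1
      have h2 := (hΦ (c⁻¹ * τ)).1 (by rwa [mul_inv_cancel_left])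
      exact h2 h1
    · beta_reduce
      rw [if_neg (Finset.mem_compl.1 hτ), neg_one_smul, hab c τ, AlgEquiv.mul_apply, hκ, map_neg]

/-- the passage to the abstract data -/
theorem exists_ser {K : IntermediateField ℚ ℂ} [FiniteDimensional ℚ K]
    (hab : ∀ σ τ : K ≃ₐ[ℚ] K, σ * τ = τ * σ) (h : IsSerreType A K) :
    ∃ (I : Type) (_ : Fintype I) (_ : DecidableEq I), Nonempty (Ser A K I) := by
  classical
  obtain ⟨c, I, hI, Θ, Φ, h1, h2, h3, h4⟩ := h
  have hcc : c * c = 1 := by
    refine AlgEquiv.ext fun x => ?_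
    apply Subtype.ext
    rw [AlgEquiv.mul_apply, h1, h1, Complex.conj_conj, AlgEquiv.one_apply]
  refine ⟨I, hI, Classical.decEq I, ⟨{
    c := c
    cc := hcc
    Θ := Θ
    ε := fun i τ => if τ ∈ Φ i then (1 : ℚ) else -1
    sg := fun i => ⟨fun τ => ?_, fun τ => ?_⟩
    all := fun e he => ?_
    na := fun X => ?_ }⟩⟩
  · by_cases h : τ ∈ Φ i
    · exact Or.inl (if_pos h)
    · exact Or.inr (if_neg h)
  · by_cases h : τ ∈ Φ i
    · rw [if_pos h, if_neg fun h' => ((h2 i τ).1 h') h]
    · rw [if_neg h, if_pos ((h2 i τ).2 h), neg_neg]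
  · have h5 : IsCMType c (Finset.univ.filter fun τ => e τ = 1) := by
      intro τ
      rw [Finset.mem_filter, Finset.mem_filter, he.odd]
      simp only [Finset.mem_univ, true_and]
      rcases he.val τ with h | h <;> rw [h] <;> norm_num
    obtain ⟨i, hi⟩ := h3 _ h5
    refine ⟨i, funext fun τ => ?_⟩
    simp only [hi, Finset.mem_filter, Finset.mem_univ, true_and]
    rcases he.val τ with h | h <;> rw [h] <;> norm_num
  · rw [← inLie_mat A, h4]
    have hw : ∀ x, mat A X *ᵥ Θ x = X (Θ x) := fun x => mat_mulVec A X _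
    simp only [hw]
    constructor
    · rintro ⟨κ, hκ, h5⟩
      refine ⟨(2 : ℚ)⁻¹ • κ, by rw [map_rat_smul c, hκ, smul_neg], Xk_eq fun x i => ?_⟩
      rw [h5, T_arg_smul, T_sign (h2 i) hab hκ, Algebra.smul_def]
      congr 1
      simp
    · rintro ⟨κ, hκ, h5⟩
      refine ⟨(2 : ℚ) • κ, by rw [map_rat_smul c, hκ, smul_neg], fun x i => ?_⟩
      rw [h5, Xk_apply, Θ.symm_apply_apply, T_sign (h2 i) hab hκ]
      congr 1
      rw [Finset.mul_sum]
      refine Finset.sum_congr rfl fun τ _ => ?_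
      rw [map_rat_smul τ, Algebra.smul_def]
      simp

/-- The abelian varieties of Serre type for finite abelian extensions of `ℚ` are determined. -/
theorem determined_of_serreType (K : IntermediateField ℚ ℂ) [FiniteDimensional ℚ K]
    [IsGalois ℚ K] (hK : ∀ σ τ : K ≃ₐ[ℚ] K, σ * τ = τ * σ) (h : IsSerreType A K) :
    DeterminedCM A := by
  obtain ⟨I, _, _, ⟨S⟩⟩ := exists_ser A hK h
  refine ⟨fun X Y hX hY => ?_, determined_of_det A (S.det hK (algebraMap K ℂ))⟩
  obtain ⟨X, rfl⟩ := mat_surj A X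
  obtain ⟨Y, rfl⟩ := mat_surj A Y
  obtain ⟨κ, -, rfl⟩ := (S.na X).1 ((inLie_mat A).1 hX)
  obtain ⟨κ', -, rfl⟩ := (S.na Y).1 ((inLie_mat A).1 hY)
  rw [← mat_mul, ← mat_mul, Xk_comm]

end Examples

end Pool.Agent.Results.MP_5d33ca_ag.OneMotivesRadical
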