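import Pool.Agent.T6.H14.UG.Fin
import Pool.Agent.R917.DT.Mat

set_option autoImplicit false

/-!
# The period conjecture for the unipotent part of all 1-motives

Let `A` be any abelian variety over the field `ℚ̄` of algebraic numbers, with a polarization `φ`. Let
`P_i = exp(u_i)` and `Q_l = φ(exp(v_l))` be algebraic points of `A` and of the dual abelian variety,
`E` the extension of `A` by `G_m^s` given by the `Q_l`, and `M = [ℤ^n → E]` a 1-motive over `ℚ̄` with
the images `e_i ↦ R_i` above `P_i`. The periods of `M` are `2 π i`, the periods and quasi-periods of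
`A`, the abelian integrals `u_i` and the integrals of the second kind `h_k(u_i)`, the periods of the
third kind `∑ k, (h_k(v_l) λ_k - v_lk η_k)`, and the integrals of the third kind `ℓ_il`. The points
`R_i` are algebraic, and this means for the logarithms `ℓ_il` that

  `exp(ℓ_il) = q_il · θ(u_i - v_l) / (θ(u_i) θ(-v_l)) · exp(∑ k, h_k(v_l) u_ik)`, `q_il` algebraic:

the function `z ↦ θ(z - v) / (θ(z) θ(-v)) · exp(∑ k, h_k(v) z_k)` is the pullback of a rational
section, over `ℚ̄`, of the extension of `A` by `G_m` given by `v`. We assume that the arguments of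
the theta functions are not in the divisor of `θ`. So we get all 1-motives over `A`, up to isogeny.

The motivic Galois group of `M` is the Mumford-Tate group `MT(M)` of the mixed Hodge structure
`H_1(M)` (Brylinski, André): the smallest algebraic group over `ℚ` which contains the image of the
Deligne torus, which acts on the subspaces `I^{p,q}` of `H_1(M, ℂ)` given by Deligne's splitting.

The period conjecture says that the comparison isomorphism is a generic point, over `ℚ̄`, of its
torsor under the motivic Galois group of `M`. A consequence is that this torsor is the smallest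
torsor, among the torsors over `ℚ̄` of all algebraic groups `G ⊆ GL(H_B(M))` over `ℚ`, which
contains the comparison isomorphism (in the terminology of André: `Ω^And = Ω^dRB`).

**Theorem.** Let `M` be any 1-motive over `ℚ̄`, and let `G` be an algebraic group over `ℚ` with a
torsor over `ℚ̄` which contains the comparison isomorphism of `M`. Let `x` and `y` be elements of
`MT(M)` with the same action on the graded pieces of the weight filtration, up to a homothety `c`
(`c ^ 2` on `W_{-2}`, `c` on `W_{-1} / W_{-2}` and `1` on `W_0 / W_{-1}`). If `y` is in `G` then `x`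
is in `G`.

So `G` contains the unipotent radical `W_{-1} MT(M)` of the Mumford-Tate group, which is the kernel
of the map from `MT(M)` to `MT(A)` (or to `G_m` for `A = 0`, `n, s > 0`), and more precisely all
elements of `MT(M)` which act on the graded pieces by a homothety `(c ^ 2, c, 1)`. There is no
hypothesis on the abelian variety and on the points. The theorem says that the group `Ω^dRB` of `M`
(which is contained in `MT(M)`, by the theorem of Deligne on absolute Hodge cycles on abelian
varieties, extended to 1-motives by Brylinski) is the inverse image in `MT(M)` of the group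
`Ω^dRB` of the abelian variety `A`, so that the part of the conjecture which concerns the unipotent
radical is true for all 1-motives, and that a 1-motive satisfies `Ω^And = Ω^dRB` if the abelian
variety does. The deficient 1-motives of Ribet and Jacquinot are included, whose unipotent radical
is smaller than the relations between the points predict.

In the earlier file `OneMotivesMumfordTate` the group `MT(M)` is shown to be contained in `G` if `A`
is a factor of an abelian variety whose Hodge group is determined by its endomorphisms. This is a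
strong hypothesis: it does not hold for the general abelian variety of dimension two. Here `A` is
arbitrary.

## Proof

Let `𝔤` be the Lie algebra of `G`. The unipotent part `V` of weight `-1` of `𝔤` is given by the
relations between the points (theorems of Bost, Charles and Wüstholz type; `main2`), `𝔤` contains a
lift of the weight (`weight`), and there is a rational frame of the homology such that in this frame
`𝔤` is contained in the Lie algebra `V + T + 𝔩`, with `T ⊆ ℚ^(n s)` the part of weight `-2` and `𝔩`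
block diagonal. The relation between the logarithms (`Lm_rel`) says that the unipotent matrix which
maps the Deligne splitting to the split one is in `exp((V + T) ⊗ ℂ)`, in this frame. Let `𝒢` be the
set of all products of a block diagonal matrix, given by a similitude of the polarization which
commutes with the endomorphisms of `A` in the relations, and of an element of `exp((V + T) ⊗ ℂ)`. It
is an algebraic group over `ℚ` (`Dat.as_eqs`, `GU_alg`) which contains the Deligne torus. So it
contains the Mumford-Tate group, and the elements of `𝒢` whose block diagonal part is a homothety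
are in `G`.
-/

open Module Matrix Pool.Agent.Y102 Pool.Agent.R917.OM Pool.Agent.R917.BX Pool.Agent.W516.DR
  Pool.Agent.H204R3.GP Pool.Agent.R917.DT Pool.Agent.T6.H14.UG

noncomputable section

namespace Pool.Agent.Results.MP_5d33ca_ag.OneMotivesUnipotent

variable {g n s : ℕ} (A : AbVarG g)

/-! ### 1-motives and their periods -/

/-- The basis of the Betti realization of the 1-motive: the basis `λ_j` of the lattice of `A`, the
basis `γ_l` of `H_1(G_m^s)`, the basis `e_i` of `ℤ^n`. -/
abbrev Betti (g n s : ℕ) : Type := Fin (2 * g) ⊕ (Fin s ⊕ Fin n)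

/-- The basis of the de Rham cohomology of the 1-motive: the invariant differentials `d z_k` and the
differentials of the second kind `d h_k` on `A`, the invariant differentials of the third kind `ω_l`
on the semiabelian variety, and a basis for `ℤ^n`. -/
abbrev DeRham (g n s : ℕ) : Type := (Fin g ⊕ Fin g) ⊕ (Fin s ⊕ Fin n)

/-- The integral of the second kind `h_k = ∂ k (log θ 0)`, with the value zero at the origin. -/
def second (k : Fin g) (z : Fin g → ℂ) : ℂ := pd k (A.θ 0) z / A.θ 0 z - pd k (A.θ 0) 0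

/-- The comparison isomorphism of the 1-motive. The rows are the Betti side. -/
def periodMatrix (u : Fin n → Fin g → ℂ) (v : Fin s → Fin g → ℂ) (ℓ : Fin n → Fin s → ℂ) :
    Matrix (Betti g n s) (DeRham g n s) ℂ := Matrix.of fun r c =>
  match r, c with
  | Sum.inl j, Sum.inl (Sum.inl k) => A.lam j k
  | Sum.inl j, Sum.inl (Sum.inr k) => A.η j k
  | Sum.inl j, Sum.inr (Sum.inl l) => ∑ k, (second A k (v l) * A.lam j k - v l k * A.η j k)
  | Sum.inr (Sum.inl l), Sum.inr (Sum.inl l') => if l = l' then 2 * Real.pi * Complex.I else 0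
  | Sum.inr (Sum.inr i), Sum.inl (Sum.inl k) => u i k
  | Sum.inr (Sum.inr i), Sum.inl (Sum.inr k) => second A k (u i)
  | Sum.inr (Sum.inr i), Sum.inr (Sum.inl l) => ℓ i l
  | Sum.inr (Sum.inr i), Sum.inr (Sum.inr i') => if i = i' then 1 else 0
  | _, _ => 0

/-- The data `u_i, v_l, ℓ_il` of a 1-motive over the algebraic numbers: the points of `A` and of the
dual abelian variety are algebraic, and so are the points of the extension, in terms of the
trivialization by the function `θ(z - v) / (θ(z) θ(-v)) · exp(∑ k, h_k(v) z_k)`. The vectors are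
chosen outside of the divisor of the theta function. -/
structure IsOneMotive (u : Fin n → Fin g → ℂ) (v : Fin s → Fin g → ℂ) (ℓ : Fin n → Fin s → ℂ) :
    Prop where
  point : ∀ i, IsPoint A.toAbVar (u i)
  dual : ∀ l, IsPoint A.toAbVar (v l)
  neg : ∀ l, IsPoint A.toAbVar (-v l)
  sub : ∀ i l, IsPoint A.toAbVar (u i - v l)
  log : ∀ i l, ∃ q : ℂ, IsAlgebraic ℚ q ∧ Complex.exp (ℓ i l) =
    q * (A.θ 0 (u i - v l) / (A.θ 0 (u i) * A.θ 0 (-v l))) *
      Complex.exp (∑ k, second A k (v l) * u i k)

/-! ### Algebraic groups which contain the periods -/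

/-- A subgroup of `GL_R(ℂ)` defined by polynomials with rational coefficients. -/
def IsAlgebraicSubgroup {R : Type} [Fintype R] [DecidableEq R] (G : Subgroup (GL R ℂ)) : Prop :=
  ∃ I : Set (MvPolynomial (R × R) ℚ), ∀ x : GL R ℂ, x ∈ G ↔
    ∀ p ∈ I, MvPolynomial.aeval (fun b : R × R => (x : Matrix R R ℂ) b.1 b.2) p = 0

/-- The comparison isomorphism `c` is an element of a torsor `G · T⁻¹` of `G`, defined over the
algebraic numbers: `T` is a matrix with algebraic entries (an isomorphism between the Betti side and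
the de Rham side) such that `c T ∈ G`. -/
def ContainsPeriods (u : Fin n → Fin g → ℂ) (v : Fin s → Fin g → ℂ) (ℓ : Fin n → Fin s → ℂ)
    (G : Subgroup (GL (Betti g n s) ℂ)) : Prop :=
  ∃ T : Matrix (DeRham g n s) (Betti g n s) ℂ, (∀ i j, IsAlgebraic ℚ (T i j)) ∧
    ∃ x ∈ G, (x : Matrix (Betti g n s) (Betti g n s) ℂ) = periodMatrix A u v ℓ * T

/-! ### The mixed Hodge structure and the Mumford-Tate group -/

/-- The Hodge filtration: the vectors of `H_1(M, ℂ)` (in terms of their coordinates) on which the
invariant differentials of the semiabelian variety vanish. -/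
def F0 (u : Fin n → Fin g → ℂ) (v : Fin s → Fin g → ℂ) (ℓ : Fin n → Fin s → ℂ)
    (x : Betti g n s → ℂ) : Prop :=
  (∀ k, ∑ r, x r * periodMatrix A u v ℓ r (Sum.inl (Sum.inl k)) = 0) ∧
    ∀ l, ∑ r, x r * periodMatrix A u v ℓ r (Sum.inr (Sum.inl l)) = 0

/-- The part of weight `≤ -1` of the homology, the homology of the semiabelian variety. -/
def W1 (x : Betti g n s → ℂ) : Prop := ∀ i, x (Sum.inr (Sum.inr i)) = 0

/-- The part of weight `≤ -2` of the homology, the homology of the torus. -/
def W2 (x : Betti g n s → ℂ) : Prop :=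
  (∀ j, x (Sum.inl j) = 0) ∧ ∀ i, x (Sum.inr (Sum.inr i)) = 0

/-- The complex conjugate vector. -/
def bar (x : Betti g n s → ℂ) : Betti g n s → ℂ := fun r => (starRingEnd ℂ) (x r)

/-- The matrix `M` gives the action of the element `z` of the Deligne torus on the homology of the
1-motive (vectors are rows): it acts by `1` on `I^{0,0} = F^0 ∩ (F̄^0 + W_{-2})`, by `z̄` on
`I^{0,-1} = F^0 ∩ W_{-1}`, by `z` on its complex conjugate `I^{-1,0}` and by `z z̄` on
`I^{-1,-1} = W_{-2}`. -/
structure IsDeligne (u : Fin n → Fin g → ℂ) (v : Fin s → Fin g → ℂ) (ℓ : Fin n → Fin s → ℂ)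
    (z : ℂ) (M : Matrix (Betti g n s) (Betti g n s) ℂ) : Prop where
  zero_zero : ∀ x y w, F0 A u v ℓ x → F0 A u v ℓ y → W2 w → x = bar y + w → x ᵥ* M = x
  zero_neg : ∀ x, F0 A u v ℓ x → W1 x → x ᵥ* M = (starRingEnd ℂ) z • x
  neg_zero : ∀ x, F0 A u v ℓ x → W1 x → bar x ᵥ* M = z • bar x
  neg_neg : ∀ x, W2 x → x ᵥ* M = (z * (starRingEnd ℂ) z) • x

/-- The Mumford-Tate group of the 1-motive: the smallest algebraic group over `ℚ` which contains the
image of the Deligne torus. -/
def mumfordTate (u : Fin n → Fin g → ℂ) (v : Fin s → Fin g → ℂ) (ℓ : Fin n → Fin s → ℂ) :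
    Subgroup (GL (Betti g n s) ℂ) :=
  sInf {G | IsAlgebraicSubgroup G ∧ ∀ z : ℂ, z ≠ 0 → ∃ x ∈ G,
    IsDeligne A u v ℓ z (x : Matrix (Betti g n s) (Betti g n s) ℂ)}

/-- The matrices `x` and `y` (which act on rows) have the same action on the graded pieces of the
weight filtration, up to the homothety `c`: `x = c ^ 2 y` on `W_{-2}`, `x = c y` on
`W_{-1} / W_{-2}` and `x = y` on `W_0 / W_{-1}`. -/
structure SameGraded (c : ℂ) (x y : Matrix (Betti g n s) (Betti g n s) ℂ) : Prop where
  two : ∀ a, W2 a → a ᵥ* x = c ^ 2 • (a ᵥ* y)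
  one : ∀ a, W1 a → W2 (a ᵥ* x - c • (a ᵥ* y))
  zero : ∀ a, W1 (a ᵥ* x - a ᵥ* y)

/-! ### Proofs -/

/-- the data of the 1-motive -/
def dat (u : Fin n → Fin g → ℂ) (v : Fin s → Fin g → ℂ) (ℓ : Fin n → Fin s → ℂ) : Dt g n s where
  P := Sum.elim (fun i => Sum.elim (u i) (fun k => second A k (u i)))
    (fun l => Sum.elim (v l) (fun k => second A k (v l)))
  ℓ := ℓ

theorem per_eb (j : Fin (2 * g)) (k : Fin g) : A.dR (Sum.inl k) (eb A.toAbVar j) = A.lam j k := by
  change A.per (Pi.single j 1) k = _
  unfold AbVar.per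
  rw [Fintype.linearCombination_apply_single, one_smul]

theorem eta_eb (j : Fin (2 * g)) (k : Fin g) : A.dR (Sum.inr k) (eb A.toAbVar j) = A.η j k := by
  change A.eta (Pi.single j 1) k = _
  unfold AbVar.eta
  rw [Fintype.linearCombination_apply_single, one_smul]

theorem periodMatrix_eq (u : Fin n → Fin g → ℂ) (v : Fin s → Fin g → ℂ)
    (ℓ : Fin n → Fin s → ℂ) : periodMatrix A u v ℓ = pmat A.toAbVar (dat A u v ℓ) := by
  ext r c
  rcases r with j | l | i <;> rcases c with (k | k) | l' | i' <;>
    simp [periodMatrix, pmat, dat, per_eb, eta_eb, thd, tau]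

variable {A}

/-- A matrix with the eigenvectors of the Hodge structure. -/
theorem isDeligne_of {u : Fin n → Fin g → ℂ} {v : Fin s → Fin g → ℂ} {ℓ : Fin n → Fin s → ℂ}
    {z : ℂ} {M : Matrix (Betti g n s) (Betti g n s) ℂ}
    (hM : ∀ (v' : RI g n s → ℂ) (a b : ℂ), v' ᵥ* XW A.toAbVar (dat A u v ℓ) = a • v' →
      v' ᵥ* XJ A.toAbVar (dat A u v ℓ) = b • v' → (a = 0 → v' ᵥ* M = v') ∧
        (a = 1 → v' ᵥ* M = ((z.re : ℂ) + z.im * b) • v') ∧
        (a = 2 → v' ᵥ* M = (z * (starRingEnd ℂ) z) • v')) : IsDeligne A u v ℓ z M := by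
  have hF : ∀ a, F0 A u v ℓ a → (∀ k, i1 A.toAbVar (dat A u v ℓ) a k = 0) ∧
      ∀ l, i3 A.toAbVar (dat A u v ℓ) a l = 0 := by
    rintro a ⟨ha1, ha2⟩
    rw [periodMatrix_eq] at ha1 ha2
    exact ⟨ha1, ha2⟩
  have hz : (z.re : ℂ) + z.im * Complex.I = z := Complex.re_add_im z
  refine ⟨fun a b w ha hb hw hab => ?_, fun a ha ha1 => ?_, fun a ha ha1 => ?_, fun a ha => ?_⟩
  · obtain ⟨e1, e2⟩ := eig_0 (A := A.toAbVar) (d := dat A u v ℓ) (v := a) (f := b)
      (fun j => by rw [hab, Pi.add_apply, hw.1, add_zero]; rfl)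
      (fun i => by rw [hab, Pi.add_apply, hw.2, add_zero]; rfl) (hF a ha).1 (hF a ha).2 (hF b hb).1
    exact (hM a 0 0 e1 e2).1 rfl
  · obtain ⟨e1, e2⟩ := eig_m (A := A.toAbVar) (d := dat A u v ℓ) (v := a) ha1 (hF a ha).1
      (hF a ha).2
    rw [(hM a 1 (-Complex.I) (by rw [one_smul]; exact e1) e2).2.1 rfl]
    congr 1
    apply Complex.ext <;> simp
  · obtain ⟨e1, e2⟩ := eig_p (A := A.toAbVar) (d := dat A u v ℓ) (v := bar a) (w := a)
      (fun r => rfl) ha1 (hF a ha).1 (hF a ha).2
    rw [(hM (bar a) 1 Complex.I (by rw [one_smul]; exact e1) e2).2.1 rfl, hz]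
  · obtain ⟨e1, e2⟩ := eig_t (A := A.toAbVar) (d := dat A u v ℓ) (v := a) ha.1 ha.2
    exact (hM a 2 0 e1 e2).2.2 rfl

/-- **Theorem.** Let `G` be an algebraic group over `ℚ` with a torsor over `ℚ̄` which contains the
comparison isomorphism of a 1-motive, over an arbitrary abelian variety. Let `x` and `y` be elements
of the Mumford-Tate group of the 1-motive with the same action on the graded pieces of the weight
filtration, up to a homothety. If `y` is in `G` then `x` is in `G`. -/
theorem result (g n s : ℕ) (A : AbVarG g) (u : Fin n → Fin g → ℂ) (v : Fin s → Fin g → ℂ)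
    (ℓ : Fin n → Fin s → ℂ) (hM : IsOneMotive A u v ℓ)
    (G : Subgroup (GL (Betti g n s) ℂ)) (hG : IsAlgebraicSubgroup G)
    (hP : ContainsPeriods A u v ℓ G) (x y : GL (Betti g n s) ℂ)
    (hx : x ∈ mumfordTate A u v ℓ) (hy : y ∈ mumfordTate A u v ℓ) (c : ℂ) (hc : c ≠ 0)
    (hxy : SameGraded c (x : Matrix (Betti g n s) (Betti g n s) ℂ)
      (y : Matrix (Betti g n s) (Betti g n s) ℂ)) (hyG : y ∈ G) : x ∈ G := by
  obtain ⟨T, hT, x₀, hx₀, hxT⟩ := hP
  rw [periodMatrix_eq] at hxT
  have hpt := ptM_of hG hT hx₀ hxT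
  obtain ⟨K₁, hK₁, hrat⟩ := exists_rat_mult A (pt (dat A u v ℓ)) (by
    rintro (i | l)
    · exact Or.inl (hM.point i)
    · exact Or.inl (hM.dual l))
  obtain ⟨h, U, τ, hDel, hH⟩ := main hpt ⟨hM.point, hM.neg, hM.sub, hM.log⟩ hrat
  -- the algebraic group
  let G' : Subgroup (GL (Betti g n s) ℂ) :=
    { carrier := {z | (z : Matrix (RI g n s) (RI g n s) ℂ) ∈ GU h U τ}
      one_mem' := GU_one h U τ
      mul_mem' := fun {z z'} hz hz' => by
        change ((z * z' : GL (Betti g n s) ℂ) : Matrix (RI g n s) (RI g n s) ℂ) ∈ GU h U τ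
        rw [Units.val_mul]
        exact GU_mul h U τ hz hz'
      inv_mem' := fun {z} hz => GU_inv h U τ hz z.val_inv }
  have hG' : IsAlgebraicSubgroup G' := by
    obtain ⟨S, ⟨I, hI⟩, hS⟩ := GU_alg h U τ
    refine ⟨I, fun z => ?_⟩
    rw [← hI]
    exact hS _ _ z.val_inv
  have hle : mumfordTate A u v ℓ ≤ G' := by
    refine sInf_le ⟨hG', fun z hz => ?_⟩
    have h1 := hDel z hz
    have h2 := hDel z⁻¹ (inv_ne_zero hz)
    have hinv : dM A.toAbVar (dat A u v ℓ) U.w τ z * dM A.toAbVar (dat A u v ℓ) U.w τ z⁻¹ = 1 := by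
      have h4 : bZ A.toAbVar n s z * bZ A.toAbVar n s z⁻¹ = 1 := by
        unfold bZ
        rw [bm_mul, ← Pool.Agent.R917.hm_mul, mul_inv_cancel₀ hz, Pool.Agent.R917.hm_one, ← bm_one]
        congr 1
        · simp
        · rw [map_inv₀]
          have h5 : (starRingEnd ℂ) z ≠ 0 := by simpa using hz
          field_simp
        · simp
        · simp
        · simp
      have h5 : eI A.toAbVar (dat A u v ℓ) U.w τ * eT A.toAbVar (dat A u v ℓ) U.w τ = 1 :=
        un_inv' _ _ _
      have h6 : eT A.toAbVar (dat A u v ℓ) U.w τ * eI A.toAbVar (dat A u v ℓ) U.w τ = 1 :=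
        un_inv _ _ _
      have h7 := kF_kI A.toAbVar U.w τ
      have h8 := kI_kF A.toAbVar U.w τ
      unfold dM
      calc _ = kF A.toAbVar U.w τ * eT A.toAbVar (dat A u v ℓ) U.w τ * bZ A.toAbVar n s z *
          (eI A.toAbVar (dat A u v ℓ) U.w τ * (kI A.toAbVar U.w τ * kF A.toAbVar U.w τ) *
            eT A.toAbVar (dat A u v ℓ) U.w τ) * bZ A.toAbVar n s z⁻¹ *
            (eI A.toAbVar (dat A u v ℓ) U.w τ * kI A.toAbVar U.w τ) := by
              simp only [Matrix.mul_assoc]
        _ = kF A.toAbVar U.w τ * eT A.toAbVar (dat A u v ℓ) U.w τ *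
            (bZ A.toAbVar n s z * bZ A.toAbVar n s z⁻¹) *
            (eI A.toAbVar (dat A u v ℓ) U.w τ * kI A.toAbVar U.w τ) := by
              rw [h8, Matrix.mul_one, h5, Matrix.mul_one]
              simp only [Matrix.mul_assoc]
        _ = kF A.toAbVar U.w τ * (eT A.toAbVar (dat A u v ℓ) U.w τ *
            eI A.toAbVar (dat A u v ℓ) U.w τ) * kI A.toAbVar U.w τ := by
              rw [h4, Matrix.mul_one]
              simp only [Matrix.mul_assoc]
        _ = 1 := by rw [h6, Matrix.mul_one, h7]
    refine ⟨⟨dM A.toAbVar (dat A u v ℓ) U.w τ z, dM A.toAbVar (dat A u v ℓ) U.w τ z⁻¹, hinv,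
      mul_eq_one_comm.1 hinv⟩, h1, ?_⟩
    exact isDeligne_of fun v' a b ha hb => dM_eig _ _ _ _ _ ha hb
  have hx' := hle hx
  have hy' := hle hy
  have hr' : (x * y⁻¹) ∈ G' := mul_mem hx' (inv_mem hy')
  obtain ⟨X, yx, a, zx, tx, -, ex, -⟩ := GU_bm h U τ hx'
  obtain ⟨Y, yy, b, zy, ty, -, ey, Zi, Zr, T', hmem, -⟩ := GU_bm h U τ hy'
  obtain ⟨R, yr, e, zr, tr, -, er, -⟩ := GU_bm h U τ hr'
  have hprod : bm R yr e zr tr 1 * bm Y yy b zy ty 1 = bm X yx a zx tx 1 := by
    rw [← er, ← ey, ← ex, ← Units.val_mul, inv_mul_cancel_right]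
  rw [bm_mul] at hprod
  have hRX : R * Y = X := by
    have h1 := congrArg Dat.mX hprod
    rwa [Dat.mX_bm, Dat.mX_bm] at h1
  have hea : ∀ _ : Fin s, e * b = a := by
    intro l
    have h1 := congrFun (congrFun hprod (Sum.inr (Sum.inl l))) (Sum.inr (Sum.inl l))
    simpa [bm] using h1
  -- the graded pieces
  have hXY : X = c • Y := by
    ext j j'
    have h1 := (hxy.one (Pi.single (Sum.inl j) 1) (fun i => by
      rw [Pi.single_eq_of_ne (by simp)])).1 j'
    rw [Pi.sub_apply, Pi.smul_apply, ex, ey, vecMul_bm_inl, vecMul_bm_inl] at h1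
    simp [Pi.single_apply] at h1
    rw [Matrix.smul_apply, smul_eq_mul]
    linear_combination h1
  have hab : ∀ _ : Fin s, a = c ^ 2 * b := by
    intro l
    have h1 := congrFun (hxy.two (Pi.single (Sum.inr (Sum.inl l)) 1) ⟨fun j => by
      rw [Pi.single_eq_of_ne (by simp)], fun i => by rw [Pi.single_eq_of_ne (by simp)]⟩)
        (Sum.inr (Sum.inl l))
    rw [Pi.smul_apply, ex, ey, vecMul_bm_inr, vecMul_bm_inr] at h1
    simpa [Pi.single_apply] using h1
  have hR : R = c • (1 : Matrix (Fin (2 * g)) (Fin (2 * g)) ℂ) := by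
    obtain ⟨Y', h1, -⟩ := hmem.ex
    calc R = R * (Y * Y') := by rw [h1, Matrix.mul_one]
      _ = c • (1 : Matrix (Fin (2 * g)) (Fin (2 * g)) ℂ) := by
        rw [← Matrix.mul_assoc, hRX, hXY, Matrix.smul_mul, h1]
  have he : ∀ _ : Fin s, e = c ^ 2 := by
    intro l
    have h1 := hea l
    rw [hab l] at h1
    exact mul_right_cancel₀ hmem.a0 h1
  have er2 : ((x * y⁻¹ : GL (Betti g n s) ℂ) : Matrix (RI g n s) (RI g n s) ℂ) =
      bm (c • (1 : Matrix (Fin (2 * g)) (Fin (2 * g)) ℂ)) yr (c ^ 2) zr tr 1 := by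
    rw [er, hR]
    exact bm_a he
  have h1 : ((x * y⁻¹ : GL (Betti g n s) ℂ) : Matrix (RI g n s) (RI g n s) ℂ) ∈ GU h U τ := hr'
  rw [er2] at h1
  obtain ⟨r, hr, hr2⟩ := hH _ _ _ _ hc h1
  have h2 : r = x * y⁻¹ := Units.ext (hr2.trans er2.symm)
  rw [h2] at hr
  have h3 := mul_mem hr hyG
  rwa [inv_mul_cancel_right] at h3

end Pool.Agent.Results.MP_5d33ca_ag.OneMotivesUnipotent
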